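import Pool.Agent.Helper69.PQ.C2

/-!
# PP-C3: FF, FK: decomposition, sign, continuity, crude bounds

# PP-C: cells, types, sizes (elementary)

`n` good: `n = ∏ p` over `n.primeFactors` (squarefree), `US (ty n) = ∑_{p | n} ce p` (the cells are distinct), `ce p - 1 < G log p/L ≤ ce p`
for `p ≥ 2`; at most `1/δ` prime factors since `T^(δ ω(n)) ≤ n ≤ T`.
-/

open MeasureTheory Set Filter Topology
open Pool.Agent.Helper57.Zeta Pool.Agent.Helper57.PC Pool.Agent.Helper57.LH Pool.Agent.Helper78.SG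
open Pool.Agent.Helper4.SH Pool.Agent.Helper69.PP

namespace Pool.Agent.Helper69.PQ

theorem FF_eq (P : Par) (T t : ℝ) : FF P T t = ∑ k ∈ KR P, FK P k T t := by
  unfold FF FK
  calc ∑ x ∈ IX P T, ∑ y ∈ IX P T, cfn x * cfn y * Real.cos (t * (phn x - phn y))
      = ∑ x ∈ IX P T, ∑ y ∈ IX P T, ∑ k ∈ KR P,
          (if dk P T x y = k then cfn x * cfn y * Real.cos (t * (phn x - phn y)) else 0) := by
        refine Finset.sum_congr rfl fun x hx => Finset.sum_congr rfl fun y hy => ?_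
        rw [Finset.sum_ite_eq, if_pos (dk_mem hx hy)]
    _ = ∑ x ∈ IX P T, ∑ k ∈ KR P, ∑ y ∈ IX P T,
          (if dk P T x y = k then cfn x * cfn y * Real.cos (t * (phn x - phn y)) else 0) :=
        Finset.sum_congr rfl fun x _ => Finset.sum_comm
    _ = ∑ k ∈ KR P, ∑ x ∈ IX P T, ∑ y ∈ IX P T,
          (if dk P T x y = k then cfn x * cfn y * Real.cos (t * (phn x - phn y)) else 0) :=
        Finset.sum_comm

theorem FF_nonneg (P : Par) (T t : ℝ) : 0 ≤ FF P T t := by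
  have h : FF P T t = (∑ x ∈ IX P T, cfn x * Real.cos (t * phn x)) ^ 2
      + (∑ x ∈ IX P T, cfn x * Real.sin (t * phn x)) ^ 2 := by
    unfold FF
    rw [pow_two, pow_two, Finset.sum_mul_sum, Finset.sum_mul_sum, ← Finset.sum_add_distrib]
    refine Finset.sum_congr rfl fun x _ => ?_
    rw [← Finset.sum_add_distrib]
    refine Finset.sum_congr rfl fun y _ => ?_
    rw [mul_sub, Real.cos_sub]
    ring
  rw [h]
  positivity

theorem FF_cont (P : Par) (T : ℝ) : Continuous (FF P T) := by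
  unfold FF
  refine continuous_finsetSum _ fun x _ => continuous_finsetSum _ fun y _ => ?_
  fun_prop

theorem FK_cont (P : Par) (k : ℕ) (T : ℝ) : Continuous (FK P k T) := by
  unfold FK
  refine continuous_finsetSum _ fun x _ => continuous_finsetSum _ fun y _ => ?_
  by_cases h : dk P T x y = k
  · simp only [h, if_true]
    fun_prop
  · simp only [h, if_false]
    exact continuous_const

private theorem sumsqrt50 (N : ℕ) :
    ∑ i ∈ Finset.range N, 1 / Real.sqrt ((i : ℝ) + 1) ≤ 2 * Real.sqrt N := by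
  induction N with
  | zero => simp
  | succ N ih =>
    rw [Finset.sum_range_succ]
    have h0 : 0 ≤ Real.sqrt N := Real.sqrt_nonneg _
    have h1 : 0 < Real.sqrt ((N : ℝ) + 1) := Real.sqrt_pos.mpr (by positivity)
    have h2 : Real.sqrt N ^ 2 = N := Real.sq_sqrt (Nat.cast_nonneg N)
    have h3 : Real.sqrt ((N : ℝ) + 1) ^ 2 = N + 1 := Real.sq_sqrt (by positivity)
    have h4 : Real.sqrt N ≤ Real.sqrt ((N : ℝ) + 1) := Real.sqrt_le_sqrt (by linarith)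
    have h5 : 1 / Real.sqrt ((N : ℝ) + 1) ≤ 2 * Real.sqrt ((N : ℝ) + 1) - 2 * Real.sqrt N := by
      rw [div_le_iff₀ h1]
      nlinarith
    push_cast
    linarith

private theorem sumset50 {A : Finset ℕ} {X : ℝ} (hA : ∀ n ∈ A, n ≠ 0 ∧ (n : ℝ) ≤ X) (hX : 0 ≤ X) :
    ∑ n ∈ A, 1 / Real.sqrt n ≤ 2 * Real.sqrt X := by
  have h1 : ∑ n ∈ A, 1 / Real.sqrt n ≤
      ∑ n ∈ (Finset.range ⌊X⌋₊).image (fun i : ℕ => i + 1), 1 / Real.sqrt ((n : ℕ) : ℝ) := by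
    refine Finset.sum_le_sum_of_subset_of_nonneg ?_ fun n _ _ => by positivity
    intro n hn
    rw [Finset.mem_image]
    obtain ⟨h0, hle⟩ := hA n hn
    have h2 : n ≤ ⌊X⌋₊ := Nat.le_floor hle
    exact ⟨n - 1, Finset.mem_range.mpr (by omega), by omega⟩
  refine h1.trans ?_
  rw [Finset.sum_image (fun a _ b _ h => by simpa using h)]
  have h3 : ∑ i ∈ Finset.range ⌊X⌋₊, 1 / Real.sqrt ((i + 1 : ℕ) : ℝ) =
      ∑ i ∈ Finset.range ⌊X⌋₊, 1 / Real.sqrt ((i : ℝ) + 1) := by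
    refine Finset.sum_congr rfl fun i _ => ?_
    push_cast
    rfl
  rw [h3]
  refine (sumsqrt50 _).trans ?_
  have h4 : Real.sqrt (⌊X⌋₊ : ℝ) ≤ Real.sqrt X := Real.sqrt_le_sqrt (Nat.floor_le hX)
  linarith

private theorem abs_lam50 (n : ℕ) : |lam n| = 1 := by
  unfold lam
  rw [abs_pow, abs_neg, abs_one, one_pow]

private theorem abs_cfn50 (x : ℕ × ℕ) :
    |cfn x| = 1 / Real.sqrt x.1 * (1 / Real.sqrt x.2) := by
  unfold cfn
  rw [abs_div, abs_mul, abs_lam50, abs_lam50, abs_of_nonneg (Real.sqrt_nonneg _),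
    Real.sqrt_mul (Nat.cast_nonneg _), mul_one, div_mul_div_comm, mul_one]

private theorem sumcf50 (P : Par) {T : ℝ} (hT : 1 < T) :
    ∑ x ∈ IX P T, |cfn x| ≤ 4 * T ^ ((4199 : ℝ) / 8400) := by
  have h0 : 0 < T := by linarith
  have hA : ∀ n ∈ NA P T, n ≠ 0 ∧ (n : ℝ) ≤ T ^ ((1 : ℝ) / 2) := fun n hn =>
    ⟨(mem_NA.mp hn).1.1.1, NA_le hT hn⟩
  have hB : ∀ n ∈ NB P T, n ≠ 0 ∧ (n : ℝ) ≤ T ^ ((2099 : ℝ) / 4200) := fun n hn =>
    ⟨(mem_NB.mp hn).1.1.1, NB_le hT hn⟩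
  have sA := sumset50 hA (Real.rpow_nonneg h0.le _)
  have sB := sumset50 hB (Real.rpow_nonneg h0.le _)
  have h1 : ∑ x ∈ IX P T, |cfn x| ≤
      ∑ x ∈ (NA P T) ×ˢ (NB P T), 1 / Real.sqrt x.1 * (1 / Real.sqrt x.2) := by
    simp_rw [abs_cfn50]
    refine Finset.sum_le_sum_of_subset_of_nonneg ?_ fun x _ _ => by positivity
    unfold IX
    exact Finset.filter_subset _ _
  have h2 : ∑ x ∈ (NA P T) ×ˢ (NB P T), 1 / Real.sqrt x.1 * (1 / Real.sqrt x.2) =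
      (∑ m ∈ NA P T, 1 / Real.sqrt m) * ∑ n ∈ NB P T, 1 / Real.sqrt n := by
    rw [Finset.sum_product, Finset.sum_mul_sum]
  have e1 : Real.sqrt (T ^ ((1 : ℝ) / 2)) = T ^ ((1 : ℝ) / 4) := by
    rw [Real.sqrt_eq_rpow, ← Real.rpow_mul h0.le]
    norm_num
  have e2 : Real.sqrt (T ^ ((2099 : ℝ) / 4200)) = T ^ ((2099 : ℝ) / 8400) := by
    rw [Real.sqrt_eq_rpow, ← Real.rpow_mul h0.le]
    norm_num
  have e3 : T ^ ((4199 : ℝ) / 8400) = T ^ ((1 : ℝ) / 4) * T ^ ((2099 : ℝ) / 8400) := by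
    rw [← Real.rpow_add h0]
    norm_num
  rw [e1] at sA
  rw [e2] at sB
  have sA0 : 0 ≤ ∑ m ∈ NA P T, 1 / Real.sqrt m := Finset.sum_nonneg fun _ _ => by positivity
  have sB0 : 0 ≤ ∑ m ∈ NB P T, 1 / Real.sqrt m := Finset.sum_nonneg fun _ _ => by positivity
  refine h1.trans ?_
  rw [h2, e3]
  calc (∑ m ∈ NA P T, 1 / Real.sqrt m) * ∑ n ∈ NB P T, 1 / Real.sqrt n
      ≤ (2 * T ^ ((1 : ℝ) / 4)) * (2 * T ^ ((2099 : ℝ) / 8400)) :=
        mul_le_mul sA sB sB0 (sA0.trans sA)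
    _ = 4 * (T ^ ((1 : ℝ) / 4) * T ^ ((2099 : ℝ) / 8400)) := by ring

private theorem dbl50 {ι : Type*} (I : Finset ι) (a : ι → ℝ) (c : ι → ι → ℝ)
    (hc : ∀ i j, |c i j| ≤ |a i| * |a j|) :
    |∑ i ∈ I, ∑ j ∈ I, c i j| ≤ (∑ i ∈ I, |a i|) * (∑ j ∈ I, |a j|) := by
  rw [Finset.sum_mul_sum]
  refine (Finset.abs_sum_le_sum_abs _ _).trans (Finset.sum_le_sum fun i _ => ?_)
  refine (Finset.abs_sum_le_sum_abs _ _).trans (Finset.sum_le_sum fun j _ => hc i j)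

private theorem sqcf50 (P : Par) {T : ℝ} (hT : 1 < T) :
    (∑ x ∈ IX P T, |cfn x|) * (∑ x ∈ IX P T, |cfn x|) ≤ 16 * T ^ ((4199 : ℝ) / 4200) := by
  have h := sumcf50 P hT
  have h0 : 0 < T := by linarith
  have hn : 0 ≤ ∑ x ∈ IX P T, |cfn x| := Finset.sum_nonneg fun _ _ => abs_nonneg _
  have e : T ^ ((4199 : ℝ) / 4200) = T ^ ((4199 : ℝ) / 8400) * T ^ ((4199 : ℝ) / 8400) := by
    rw [← Real.rpow_add h0]
    norm_num
  calc (∑ x ∈ IX P T, |cfn x|) * (∑ x ∈ IX P T, |cfn x|)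
      ≤ (4 * T ^ ((4199 : ℝ) / 8400)) * (4 * T ^ ((4199 : ℝ) / 8400)) := mul_le_mul h h hn (hn.trans h)
    _ = 16 * T ^ ((4199 : ℝ) / 4200) := by rw [e]; ring

/-- `∑ |cf| ≤ 4 T^(41/84)` -/
theorem sum_cf (P : Par) : ∀ᶠ T : ℝ in atTop, ∑ x ∈ IX P T, |cfn x| ≤ 4 * T ^ ((4199 : ℝ) / 8400) := by
  filter_upwards [eventually_gt_atTop (1 : ℝ)] with T hT
  exact sumcf50 P hT

theorem FK_crude (P : Par) : ∀ᶠ T : ℝ in atTop, ∀ (k : ℕ) (t : ℝ), |FK P k T t| ≤ 16 * T ^ ((4199 : ℝ) / 4200) := by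
  filter_upwards [eventually_gt_atTop (1 : ℝ)] with T hT k t
  refine le_trans ?_ (sqcf50 P hT)
  unfold FK
  refine dbl50 (IX P T) cfn _ fun x y => ?_
  split_ifs
  · rw [abs_mul, abs_mul]
    exact mul_le_of_le_one_right (by positivity) (Real.abs_cos_le_one _)
  · rw [abs_zero]
    positivity

theorem FF_crude (P : Par) : ∀ᶠ T : ℝ in atTop, ∀ t : ℝ, |FF P T t| ≤ 16 * T ^ ((4199 : ℝ) / 4200) := by
  filter_upwards [eventually_gt_atTop (1 : ℝ)] with T hT t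
  refine le_trans ?_ (sqcf50 P hT)
  unfold FF
  refine dbl50 (IX P T) cfn _ fun x y => ?_
  rw [abs_mul, abs_mul]
  exact mul_le_of_le_one_right (by positivity) (Real.abs_cos_le_one _)

end Pool.Agent.Helper69.PQ
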