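import Pool.Agent.Helper69.PQ.C3
import Pool.Agent.Helper4.SH.WSum

/-!
# PP-MS: the reciprocal sum of the good numbers is bounded

`1/n ≤ δ^(-2 ω(n)) WW(n)²·…`: for `p ∈ [T^δ, T]`: `1/p ≤ δ^(-2) ww T p ^ 2` (`log p/L ≥ δ`), so for `n` good
`1/n ≤ δ^(-2K) WW T n ^ 2` (`ω(n) ≤ K`, `δ ≤ 1`), and `∑_{Ω(n) = i} WW² ≤ 1` (`WW_pow_sum` of SH/WSum with `ww_sq_le`).
-/

open MeasureTheory Set Filter Topology
open Pool.Agent.Helper57.Zeta Pool.Agent.Helper57.PC Pool.Agent.Helper57.LH Pool.Agent.Helper78.SG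
open Pool.Agent.Helper4.SH Pool.Agent.Helper69.PP

namespace Pool.Agent.Helper69.PQ

/-- one prime -/
private theorem inv_le_ww {δ T : ℝ} (hδ : 0 < δ) (hT : 1 < T) {p : ℕ} (hp : p.Prime)
    (hpT : T ^ δ ≤ (p : ℝ)) : 1 / (p : ℝ) ≤ (δ⁻¹) ^ 2 * ww T p ^ 2 := by
  have hp0 : (0 : ℝ) < p := by exact_mod_cast hp.pos
  have hL : 0 < Real.log T := Real.log_pos hT
  have hT0 : 0 < T := by linarith
  have h1 : δ * Real.log T ≤ Real.log p := by
    rw [← Real.log_rpow hT0]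
    exact Real.log_le_log (Real.rpow_pos_of_pos hT0 δ) hpT
  have h2 : Real.sqrt p ^ 2 = p := Real.sq_sqrt hp0.le
  unfold ww
  rw [div_pow, mul_pow, h2]
  have h3 : 1 ≤ δ⁻¹ ^ 2 * (Real.log p ^ 2 / Real.log T ^ 2) := by
    have h4 : 1 ≤ δ⁻¹ * (Real.log p / Real.log T) := by
      rw [inv_mul_eq_div, le_div_iff₀ hδ, one_mul, le_div_iff₀ hL]
      exact h1
    calc (1 : ℝ) ≤ (δ⁻¹ * (Real.log p / Real.log T)) ^ 2 := one_le_pow₀ h4
      _ = δ⁻¹ ^ 2 * (Real.log p ^ 2 / Real.log T ^ 2) := by rw [mul_pow, div_pow]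
  calc 1 / (p : ℝ) = 1 / p * 1 := by ring
    _ ≤ 1 / p * (δ⁻¹ ^ 2 * (Real.log p ^ 2 / Real.log T ^ 2)) :=
        mul_le_mul_of_nonneg_left h3 (by positivity)
    _ = δ⁻¹ ^ 2 * (Real.log p ^ 2 / (Real.log T ^ 2 * p)) := by
        field_simp

/-- lists of primes `≥ T^δ` -/
private theorem list_le {δ T : ℝ} (hδ : 0 < δ) (hT : 1 < T) : ∀ l : List ℕ,
    (∀ p ∈ l, p.Prime ∧ T ^ δ ≤ (p : ℝ)) →
    1 / ((l.prod : ℕ) : ℝ) ≤ ((δ⁻¹) ^ 2) ^ l.length * (l.map (ww T)).prod ^ 2 ∧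
      T ^ (δ * l.length) ≤ ((l.prod : ℕ) : ℝ)
  | [], _ => by simp
  | a :: l, h => by
    obtain ⟨ih1, ih2⟩ := list_le hδ hT l fun p hp => h p (List.mem_cons_of_mem _ hp)
    obtain ⟨ha, haT⟩ := h a List.mem_cons_self
    have h1 := inv_le_ww hδ hT ha haT
    have hT0 : 0 < T := by linarith
    constructor
    · rw [List.prod_cons, List.map_cons, List.prod_cons, List.length_cons, Nat.cast_mul,
        ← one_div_mul_one_div]
      calc 1 / (a : ℝ) * (1 / ((l.prod : ℕ) : ℝ))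
          ≤ ((δ⁻¹) ^ 2 * ww T a ^ 2) * (((δ⁻¹) ^ 2) ^ l.length * (l.map (ww T)).prod ^ 2) :=
            mul_le_mul h1 ih1 (by positivity) (by positivity)
        _ = ((δ⁻¹) ^ 2) ^ (l.length + 1) * (ww T a * (l.map (ww T)).prod) ^ 2 := by ring
    · rw [List.prod_cons, List.length_cons, Nat.cast_mul]
      have h2 : T ^ (δ * ((l.length + 1 : ℕ) : ℝ)) = T ^ δ * T ^ (δ * l.length) := by
        rw [← Real.rpow_add hT0]
        congr 1
        push_cast
        ring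
      rw [h2]
      exact mul_le_mul haT ih2 (Real.rpow_pos_of_pos hT0 _).le (by positivity)

/-- the same without squarefreeness -/
theorem rough_sum (δ : ℝ) (hδ : 0 < δ) (hδ1 : δ ≤ 1) : ∃ C : ℝ, 0 < C ∧ ∀ᶠ T : ℝ in atTop,
    ∑ n ∈ (Finset.Icc 1 ⌊T⌋₊).filter (fun n => ∀ p ∈ n.primeFactors, ⌈T ^ δ⌉₊ ≤ p), 1 / (n : ℝ) ≤ C := by
  classical
  set K : ℕ := ⌈1 / δ⌉₊ with hK
  have hδ2 : 1 ≤ (δ⁻¹) ^ 2 := one_le_pow₀ ((one_le_inv₀ hδ).2 hδ1)
  refine ⟨((K : ℝ) + 1) * ((δ⁻¹) ^ 2) ^ K, by positivity, ?_⟩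
  filter_upwards [ww_sq_le, eventually_gt_atTop (1 : ℝ)] with T hW hT
  have hT0 : 0 < T := by linarith
  set S : Finset ℕ := (Finset.Icc 1 ⌊T⌋₊).filter (fun n => ∀ p ∈ n.primeFactors, ⌈T ^ δ⌉₊ ≤ p)
    with hS
  have hmem : ∀ n ∈ S, n ≠ 0 ∧ n.primeFactorsList.length ≤ K ∧
      (∀ p ∈ n.primeFactorsList, p ∈ PP T) ∧
      1 / (n : ℝ) ≤ ((δ⁻¹) ^ 2) ^ n.primeFactorsList.length * WW T n ^ 2 := by
    intro n hn
    rw [hS, Finset.mem_filter, Finset.mem_Icc] at hn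
    obtain ⟨⟨hn1, hn2⟩, hn3⟩ := hn
    have hn0 : n ≠ 0 := by omega
    have hnT : (n : ℝ) ≤ T := (Nat.le_floor_iff hT0.le).1 hn2
    have hl : ∀ p ∈ n.primeFactorsList, p.Prime ∧ T ^ δ ≤ (p : ℝ) := by
      intro p hp
      refine ⟨Nat.prime_of_mem_primeFactorsList hp, ?_⟩
      have := hn3 p (Nat.mem_primeFactors_iff_mem_primeFactorsList.2 hp)
      exact Nat.ceil_le.1 this
    obtain ⟨h1, h2⟩ := list_le hδ hT n.primeFactorsList hl
    rw [Nat.prod_primeFactorsList hn0] at h1 h2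
    refine ⟨hn0, ?_, ?_, h1⟩
    · have h3 : T ^ (δ * (n.primeFactorsList.length : ℝ)) ≤ T ^ (1 : ℝ) := by
        rw [Real.rpow_one]
        exact h2.trans hnT
      have h4 := (Real.rpow_le_rpow_left_iff hT).1 h3
      have h5 : (n.primeFactorsList.length : ℝ) ≤ 1 / δ := by
        rw [le_div_iff₀ hδ]
        linarith
      exact_mod_cast h5.trans (Nat.le_ceil _)
    · intro p hp
      unfold PP
      rw [Finset.mem_filter, Finset.mem_range]
      refine ⟨?_, Nat.prime_of_mem_primeFactorsList hp⟩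
      have h3 : p ≤ n := Nat.le_of_dvd (by omega) (Nat.dvd_of_mem_primeFactorsList hp)
      omega
  calc ∑ n ∈ S, 1 / (n : ℝ)
      = ∑ i ∈ Finset.range (K + 1), ∑ n ∈ S.filter (fun n => n.primeFactorsList.length = i),
          1 / (n : ℝ) := by
        rw [Finset.sum_fiberwise_of_maps_to]
        intro n hn
        rw [Finset.mem_range]
        have := (hmem n hn).2.1
        omega
    _ ≤ ∑ i ∈ Finset.range (K + 1), ((δ⁻¹) ^ 2) ^ K := by
        refine Finset.sum_le_sum fun i hi => ?_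
        have hi' : i ≤ K := by
          rw [Finset.mem_range] at hi
          omega
        calc ∑ n ∈ S.filter (fun n => n.primeFactorsList.length = i), 1 / (n : ℝ)
            ≤ ∑ n ∈ S.filter (fun n => n.primeFactorsList.length = i),
                ((δ⁻¹) ^ 2) ^ i * WW T n ^ 2 := by
              refine Finset.sum_le_sum fun n hn => ?_
              rw [Finset.mem_filter] at hn
              have := (hmem n hn.1).2.2.2
              rwa [hn.2] at this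
          _ = ((δ⁻¹) ^ 2) ^ i * ∑ n ∈ S.filter (fun n => n.primeFactorsList.length = i),
                WW T n ^ 2 := by rw [Finset.mul_sum]
          _ ≤ ((δ⁻¹) ^ 2) ^ i * (∑ p ∈ PP T, ww T p ^ 2) ^ i := by
              refine mul_le_mul_of_nonneg_left (WW_pow_sum hT i _ ?_) (by positivity)
              intro n hn
              rw [Finset.mem_filter] at hn
              obtain ⟨h1, -, h3, -⟩ := hmem n hn.1
              exact ⟨h1, hn.2, h3⟩
          _ ≤ ((δ⁻¹) ^ 2) ^ i * 1 := by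
              refine mul_le_mul_of_nonneg_left ?_ (by positivity)
              exact pow_le_one₀ (Finset.sum_nonneg fun _ _ => sq_nonneg _) hW
          _ = ((δ⁻¹) ^ 2) ^ i := mul_one _
          _ ≤ ((δ⁻¹) ^ 2) ^ K := pow_le_pow_right₀ hδ2 hi'
    _ = ((K : ℝ) + 1) * ((δ⁻¹) ^ 2) ^ K := by
        rw [Finset.sum_const, Finset.card_range, nsmul_eq_mul]
        push_cast
        ring

open Classical in
theorem good_sum (P : Par) : ∃ C : ℝ, 0 < C ∧ ∀ᶠ T : ℝ in atTop,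
    ∑ n ∈ (Finset.range (⌊T⌋₊ + 1)).filter (fun n => Gd P T n), 1 / (n : ℝ) ≤ C := by
  obtain ⟨C, hC, h⟩ := rough_sum P.δ P.hδ (P.hδ1.trans (by norm_num))
  refine ⟨C, hC, ?_⟩
  filter_upwards [h] with T hT
  refine (Finset.sum_le_sum_of_subset_of_nonneg ?_ fun _ _ _ => by positivity).trans hT
  intro n hn
  rw [Finset.mem_filter, Finset.mem_range] at hn
  obtain ⟨hn1, ⟨hn0, hn2⟩, -⟩ := hn
  rw [Finset.mem_filter, Finset.mem_Icc]
  refine ⟨⟨Nat.one_le_iff_ne_zero.2 hn0, by omega⟩, fun p hp => ?_⟩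
  exact Nat.ceil_le.2 (hn2 p hp)

end Pool.Agent.Helper69.PQ
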