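import Pool.Agent.Helper4.SH.PPow

/-!
# PP-NP: a sum over prime powers that are not primes
-/

open MeasureTheory Set Filter Topology
open ArithmeticFunction.vonMangoldt
open Pool.Agent.Helper57.Zeta Pool.Agent.Helper57.PC Pool.Agent.Helper57.LH Pool.Agent.Helper57.LS Pool.Agent.Helper57.UB Pool.Agent.Helper78.SG
open Pool.Agent.Helper4.SH

namespace Pool.Agent.Helper69.PQ

/-- the divisor function at prime powers -/
theorem card_div_le {n : ℕ} (h : ArithmeticFunction.vonMangoldt n ≠ 0) : (n.divisors.card : ℝ) ≤ 24 * (n : ℝ) ^ ((1:ℝ) / 8) := by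
  have hpp : IsPrimePow n := ArithmeticFunction.vonMangoldt_ne_zero_iff.1 h
  obtain ⟨p, k, hp, hk, rfl⟩ := (isPrimePow_nat_iff n).1 hpp
  rw [Nat.divisors_prime_pow hp, Finset.card_map, Finset.card_range]
  have hp0 : (0:ℝ) < (p ^ k : ℕ) := by exact_mod_cast pow_pos hp.pos k
  have h2 := Real.log_le_rpow_div hp0.le (show (0:ℝ) < 1 / 8 by norm_num)
  have h3 : (k:ℝ) * Real.log 2 ≤ Real.log ((p ^ k : ℕ) : ℝ) := by
    push_cast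
    rw [Real.log_pow]
    apply mul_le_mul_of_nonneg_left _ (by positivity)
    exact Real.log_le_log (by norm_num) (by exact_mod_cast hp.two_le)
  have h4 := Real.log_two_gt_d9
  have h5 : (1:ℝ) ≤ k := by exact_mod_cast hk
  have h6 : ((p ^ k : ℕ) : ℝ) ^ ((1:ℝ) / 8) / (1 / 8) = 8 * ((p ^ k : ℕ) : ℝ) ^ ((1:ℝ) / 8) := by ring
  rw [h6] at h2
  have h7 : (k : ℝ) * (2 / 3) ≤ k * Real.log 2 := mul_le_mul_of_nonneg_left (by linarith) (by positivity)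
  push_cast at h2 h3 h7 ⊢
  nlinarith

theorem w78 (n : ℕ) (hn : 1 ≤ n) : (n:ℝ) ^ (-(7:ℝ) / 8) - ((n:ℝ) + 1) ^ (-(7:ℝ) / 8) ≤ (n:ℝ) ^ (-(15:ℝ) / 8) := by
  have hn0 : (0:ℝ) < n := by exact_mod_cast hn
  have hn1 : (1:ℝ) ≤ n := by exact_mod_cast hn
  have h0 : (0:ℝ) < 1 / n := by positivity
  have h0' : 1 / (n:ℝ) ≤ 1 := by rw [div_le_one hn0]; exact hn1
  have h1 : (1 + 1 / (n:ℝ)) ^ ((7:ℝ) / 8) ≤ 1 + (7 / 8) * (1 / (n:ℝ)) :=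
    rpow_one_add_le_one_add_mul_self (by linarith) (by norm_num) (by norm_num)
  have h2 : (n:ℝ) + 1 = n * (1 + 1 / n) := by field_simp
  have h3 : ((n:ℝ) + 1) ^ (-(7:ℝ) / 8) = (n:ℝ) ^ (-(7:ℝ) / 8) * ((1 + 1 / (n:ℝ)) ^ ((7:ℝ) / 8))⁻¹ := by
    rw [h2, Real.mul_rpow hn0.le (by positivity), neg_div, Real.rpow_neg (x := 1 + 1 / (n:ℝ)) (by positivity)]
  have h5 : (0:ℝ) < (1 + 1 / (n:ℝ)) ^ ((7:ℝ) / 8) := by positivity
  have h4 : 1 - 1 / (n:ℝ) ≤ ((1 + 1 / (n:ℝ)) ^ ((7:ℝ) / 8))⁻¹ := by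
    rw [← one_div, le_div_iff₀ h5]
    have h6 : (1 - 1 / (n:ℝ)) * (1 + 1 / (n:ℝ)) ^ ((7:ℝ) / 8) ≤ (1 - 1 / (n:ℝ)) * (1 + (7 / 8) * (1 / (n:ℝ))) :=
      mul_le_mul_of_nonneg_left h1 (by linarith)
    nlinarith
  have h6 : (n:ℝ) ^ (-(15:ℝ) / 8) = (n:ℝ) ^ (-(7:ℝ) / 8) * (1 / n) := by
    rw [one_div, ← Real.rpow_neg_one, ← Real.rpow_add hn0]
    norm_num
  have h7 : 0 < (n:ℝ) ^ (-(7:ℝ) / 8) := by positivity
  rw [h3, h6]
  nlinarith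

theorem abel78 (A a : ℕ → ℝ) (w : ℕ → ℝ) (h0 : A 0 = 0) (hA : ∀ n, A (n + 1) = A n + a (n + 1)) (M : ℕ) :
    ∑ n ∈ Finset.Icc 1 (M + 1), a n * w n = A (M + 1) * w (M + 1) + ∑ n ∈ Finset.Icc 1 M, A n * (w n - w (n + 1)) := by
  induction M with
  | zero => simp [hA, h0]
  | succ M ih =>
    rw [Finset.sum_Icc_succ_top (by omega), ih, Finset.sum_Icc_succ_top (by omega : 1 ≤ M + 1), hA (M + 1)]
    ring

/-- constant -/
noncomputable def CT : ℝ := 24 * (8 + 8 * ∑' n : ℕ, 1 / (n:ℝ) ^ ((9:ℝ) / 8))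

theorem CT_nonneg : 0 ≤ CT := by
  unfold CT
  have : 0 ≤ ∑' n : ℕ, 1 / (n:ℝ) ^ ((9:ℝ) / 8) := tsum_nonneg fun n => by positivity
  positivity

theorem np_sum (M : ℕ) : ∑ n ∈ Finset.Icc 1 M, aN n * (n.divisors.card : ℝ) / n ≤ CT := by
  rcases Nat.eq_zero_or_pos M with rfl | hM
  · simpa using CT_nonneg
  obtain ⟨K, rfl⟩ : ∃ K, M = K + 1 := ⟨M - 1, by omega⟩
  have h1 : ∀ n ∈ Finset.Icc 1 (K + 1), aN n * (n.divisors.card : ℝ) / n ≤ 24 * (aN n * (n:ℝ) ^ (-(7:ℝ) / 8)) := by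
    intro n hn
    have hn1 := (Finset.mem_Icc.1 hn).1
    have hn0 : (0:ℝ) < n := by exact_mod_cast hn1
    by_cases h : ArithmeticFunction.vonMangoldt n = 0
    · have : aN n = 0 := by
        unfold aN
        split_ifs
        · rfl
        · exact h
      rw [this]
      simp
    · have h2 := card_div_le h
      have h3 := aN_nonneg n
      have h4 : (n:ℝ) ^ (-(7:ℝ) / 8) = (n:ℝ) ^ ((1:ℝ) / 8) / n := by
        rw [div_eq_mul_inv _ (n:ℝ), ← Real.rpow_neg_one, ← Real.rpow_add hn0]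
        norm_num
      rw [h4]
      calc aN n * (n.divisors.card : ℝ) / n ≤ aN n * (24 * (n:ℝ) ^ ((1:ℝ) / 8)) / n := by
            gcongr
        _ = _ := by ring
  refine (Finset.sum_le_sum h1).trans ?_
  rw [← Finset.mul_sum]
  unfold CT
  refine mul_le_mul_of_nonneg_left ?_ (by norm_num)
  set A : ℕ → ℝ := fun m => ∑ n ∈ Finset.range (m + 1), aN n with hA
  have hA0 : A 0 = 0 := by
    simp only [hA]
    simp [aN]
  have hAb : ∀ m : ℕ, 1 ≤ m → A m ≤ 8 * (m:ℝ) ^ ((3:ℝ) / 4) := fun m hm => aN_sum_le hm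
  have hAn : ∀ m : ℕ, 0 ≤ A m := fun m => Finset.sum_nonneg fun n _ => aN_nonneg n
  have h2 := abel78 A aN (fun n => (n:ℝ) ^ (-(7:ℝ) / 8)) hA0 (fun n => by
    simp only [hA]
    rw [Finset.sum_range_succ]) K
  rw [h2]
  apply add_le_add
  · have hK : (1:ℝ) ≤ ((K + 1 : ℕ) : ℝ) := by
      push_cast
      have : (0:ℝ) ≤ K := by positivity
      linarith
    have hK0 : (0:ℝ) < ((K + 1 : ℕ) : ℝ) := by linarith
    have h3 := hAb (K + 1) (by omega)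
    have h4 : ((K + 1 : ℕ) : ℝ) ^ ((3:ℝ) / 4) * ((K + 1 : ℕ) : ℝ) ^ (-(7:ℝ) / 8) ≤ 1 := by
      rw [← Real.rpow_add hK0]
      exact Real.rpow_le_one_of_one_le_of_nonpos hK (by norm_num)
    have h5 : 0 < ((K + 1 : ℕ) : ℝ) ^ (-(7:ℝ) / 8) := by positivity
    calc A (K + 1) * ((K + 1 : ℕ) : ℝ) ^ (-(7:ℝ) / 8) ≤ (8 * ((K + 1 : ℕ) : ℝ) ^ ((3:ℝ) / 4)) * ((K + 1 : ℕ) : ℝ) ^ (-(7:ℝ) / 8) :=
          mul_le_mul_of_nonneg_right h3 h5.le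
      _ = 8 * (((K + 1 : ℕ) : ℝ) ^ ((3:ℝ) / 4) * ((K + 1 : ℕ) : ℝ) ^ (-(7:ℝ) / 8)) := by ring
      _ ≤ 8 := by linarith
  · have hs : Summable (fun n : ℕ => 1 / (n:ℝ) ^ ((9:ℝ) / 8)) := Real.summable_one_div_nat_rpow.mpr (by norm_num)
    rw [← tsum_mul_left]
    refine le_trans ?_ ((hs.mul_left 8).sum_le_tsum (Finset.Icc 1 K) (fun n _ => by positivity))
    refine Finset.sum_le_sum fun n hn => ?_
    have hn1 := (Finset.mem_Icc.1 hn).1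
    have hn0 : (0:ℝ) < n := by exact_mod_cast hn1
    have h3 := hAb n hn1
    have h4 := w78 n hn1
    have h5 : (n:ℝ) ^ ((3:ℝ) / 4) * (n:ℝ) ^ (-(15:ℝ) / 8) = 1 / (n:ℝ) ^ ((9:ℝ) / 8) := by
      rw [← Real.rpow_add hn0, one_div, ← Real.rpow_neg hn0.le]
      norm_num
    push_cast
    calc A n * ((n:ℝ) ^ (-(7:ℝ) / 8) - ((n:ℝ) + 1) ^ (-(7:ℝ) / 8)) ≤ A n * (n:ℝ) ^ (-(15:ℝ) / 8) :=
          mul_le_mul_of_nonneg_left h4 (hAn n)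
      _ ≤ (8 * (n:ℝ) ^ ((3:ℝ) / 4)) * (n:ℝ) ^ (-(15:ℝ) / 8) := mul_le_mul_of_nonneg_right h3 (by positivity)
      _ = 8 * (1 / (n:ℝ) ^ ((9:ℝ) / 8)) := by rw [← h5]; ring

end Pool.Agent.Helper69.PQ
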