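import Pool.Agent.Helper69.PQ.E0
import Pool.Agent.Helper69.PQ.NP
import Pool.Agent.Helper69.PQ.MomSum

/-!
# PP-E3: prime powers

# PP-E: mean values

`mean_FF`: `gmv` (`Helper4/SH/GMV`) with index set `IX × IX`, `a = x.1 * y.2`, `b = x.2 * y.1 ≤ T^(4199/4200)`, `δ = 1/4200`; the diagonal
`x.1 y.2 = x.2 y.1` with both pairs coprime is `x = y`.
-/

open MeasureTheory Set Filter Topology
open Pool.Agent.Helper57.Zeta Pool.Agent.Helper57.PC Pool.Agent.Helper57.LH Pool.Agent.Helper78.SG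
open Pool.Agent.Helper4.SH Pool.Agent.Helper57.LS Pool.Agent.Helper69.PP
open ArithmeticFunction.vonMangoldt

namespace Pool.Agent.Helper69.PQ

theorem e3_abs_lam (n : ℕ) : |lam n| = 1 := by
  unfold lam
  rw [abs_pow, abs_neg, abs_one, one_pow]

theorem e3_abs_cfn_mul (x y : ℕ × ℕ) :
    |cfn x * cfn y| = 1 / (Real.sqrt (x.1 * x.2) * Real.sqrt (y.1 * y.2)) := by
  unfold cfn
  rw [abs_mul, abs_div, abs_div, abs_mul, abs_mul, e3_abs_lam, e3_abs_lam, e3_abs_lam, e3_abs_lam,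
    abs_of_nonneg (Real.sqrt_nonneg _), abs_of_nonneg (Real.sqrt_nonneg _)]
  rw [mul_one, div_mul_div_comm, one_mul]

theorem e3_IX_pos {P : Par} {T : ℝ} {x : ℕ × ℕ} (hx : x ∈ IX P T) :
    x.1 ∈ NA P T ∧ x.2 ∈ NB P T ∧ Nat.Coprime x.1 x.2 ∧ x.1 ≠ 0 ∧ x.2 ≠ 0 := by
  unfold IX at hx
  rw [Finset.mem_filter, Finset.mem_product] at hx
  obtain ⟨⟨h1, h2⟩, h3⟩ := hx
  refine ⟨h1, h2, h3, ?_, ?_⟩
  · simp only [NA, Finset.mem_filter] at h1
    exact h1.2.1.1.1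
  · simp only [NB, Finset.mem_filter] at h2
    exact h2.2.1.1.1

/-- the value on the diagonal of `n` -/
theorem e3_cfn_diag {P : Par} {T : ℝ} {x y : ℕ × ℕ} (hx : x ∈ IX P T) (hy : y ∈ IX P T) {n : ℕ}
    (hn : n ≠ 0) (h : x.1 * y.2 * n = x.2 * y.1) :
    |cfn x * cfn y| * (2 / Real.log T * (Λ n / Real.sqrt n)) =
      (2 / Real.log T * (Λ n / n)) * (1 / (x.1 : ℝ) * (1 / (y.2 : ℝ))) := by
  obtain ⟨-, -, -, hx1, hx2⟩ := e3_IX_pos hx
  obtain ⟨-, -, -, hy1, hy2⟩ := e3_IX_pos hy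
  rw [e3_abs_cfn_mul]
  have hx1' : (0 : ℝ) < x.1 := by exact_mod_cast Nat.pos_of_ne_zero hx1
  have hy2' : (0 : ℝ) < y.2 := by exact_mod_cast Nat.pos_of_ne_zero hy2
  have hn' : (0 : ℝ) < n := by exact_mod_cast Nat.pos_of_ne_zero hn
  have h1 : (x.1 * y.2 * n : ℝ) = x.2 * y.1 := by exact_mod_cast h
  have h2 : Real.sqrt (x.1 * x.2) * Real.sqrt (y.1 * y.2) = x.1 * y.2 * Real.sqrt n := by
    rw [← Real.sqrt_mul (by positivity)]
    have h3 : ((x.1 : ℝ) * x.2 * (y.1 * y.2)) = (x.1 * y.2) ^ 2 * n := by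
      calc ((x.1 : ℝ) * x.2 * (y.1 * y.2)) = (x.1 * y.2) * (x.2 * y.1) := by ring
        _ = (x.1 * y.2) * (x.1 * y.2 * n) := by rw [h1]
        _ = _ := by ring
    rw [h3, Real.sqrt_mul (by positivity), Real.sqrt_sq (by positivity)]
  rw [h2]
  have h4 : Real.sqrt n * Real.sqrt n = n := Real.mul_self_sqrt hn'.le
  have h5 : (0 : ℝ) < Real.sqrt n := Real.sqrt_pos.2 hn'
  have h6 : 1 / ((x.1 : ℝ) * y.2 * Real.sqrt n) * (2 / Real.log T * (Λ n / Real.sqrt n)) =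
      (2 / Real.log T) * Λ n * (1 / (x.1 : ℝ) * (1 / (y.2 : ℝ))) *
        (1 / (Real.sqrt n * Real.sqrt n)) := by
    field_simp
  rw [h6, h4]
  ring

/-- the diagonal of `n` -/
theorem e3_diag_n (P : Par) {T : ℝ} (hT : 1 < T) {n : ℕ} (hn : n ≠ 0) :
    ∑ x ∈ IX P T, ∑ y ∈ IX P T,
      (if x.1 * y.2 * n = x.2 * y.1 then |cfn x * cfn y| * (2 / Real.log T * (Λ n / Real.sqrt n)) else 0)
      ≤ (2 / Real.log T * (Λ n / n)) * ((∑ a ∈ NA P T, 1 / (a : ℝ)) * (∑ b ∈ NB P T, 1 / (b : ℝ)) *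
        n.divisors.card) := by
  have hL : 0 < Real.log T := Real.log_pos hT
  have hΛ : 0 ≤ Λ n := ArithmeticFunction.vonMangoldt_nonneg
  rw [← Finset.sum_product' (s := IX P T) (t := IX P T)
    (f := fun x y => if x.1 * y.2 * n = x.2 * y.1 then
      |cfn x * cfn y| * (2 / Real.log T * (Λ n / Real.sqrt n)) else 0)]
  rw [← Finset.sum_filter]
  set F := ((IX P T) ×ˢ (IX P T)).filter
    (fun p : (ℕ × ℕ) × (ℕ × ℕ) => p.1.1 * p.2.2 * n = p.1.2 * p.2.1) with hF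
  have hmem : ∀ p ∈ F, p.1 ∈ IX P T ∧ p.2 ∈ IX P T ∧ p.1.1 * p.2.2 * n = p.1.2 * p.2.1 := by
    intro p hp
    rw [hF, Finset.mem_filter, Finset.mem_product] at hp
    exact ⟨hp.1.1, hp.1.2, hp.2⟩
  -- `p.2.1 = p.1.1 u`, `p.1.2 = p.2.2 v`, `u v = n`
  have hdec : ∀ p ∈ F, ∃ u v, p.2.1 = p.1.1 * u ∧ p.1.2 = p.2.2 * v ∧ u * v = n := by
    intro p hp
    obtain ⟨h1, h2, h3⟩ := hmem p hp
    obtain ⟨-, -, hc1, hp1, -⟩ := e3_IX_pos h1
    obtain ⟨-, -, hc2, -, hp2⟩ := e3_IX_pos h2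
    have h4 : p.1.1 ∣ p.2.1 := by
      refine Nat.Coprime.dvd_of_dvd_mul_left hc1 ?_
      rw [← h3, mul_assoc]
      exact dvd_mul_right _ _
    have h5 : p.2.2 ∣ p.1.2 := by
      refine Nat.Coprime.dvd_of_dvd_mul_right hc2.symm ?_
      rw [← h3, mul_comm p.1.1, mul_assoc]
      exact dvd_mul_right _ _
    obtain ⟨u, hu⟩ := h4
    obtain ⟨v, hv⟩ := h5
    refine ⟨u, v, hu, hv, ?_⟩
    rw [hu, hv] at h3
    have h6 : p.1.1 * p.2.2 * (u * v) = p.1.1 * p.2.2 * n := by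
      rw [h3]
      ring
    exact Nat.eq_of_mul_eq_mul_left (Nat.mul_pos (Nat.pos_of_ne_zero hp1) (Nat.pos_of_ne_zero hp2)) h6
  set g : (ℕ × ℕ) × (ℕ × ℕ) → (ℕ × ℕ) × ℕ := fun p => ((p.1.1, p.2.2), p.2.1 / p.1.1) with hg
  set w : (ℕ × ℕ) × ℕ → ℝ := fun q => (2 / Real.log T * (Λ n / n)) * (1 / (q.1.1 : ℝ) * (1 / (q.1.2 : ℝ))) with hw
  have hval : ∀ p ∈ F, |cfn p.1 * cfn p.2| * (2 / Real.log T * (Λ n / Real.sqrt n)) = w (g p) := by
    intro p hp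
    obtain ⟨h1, h2, h3⟩ := hmem p hp
    exact e3_cfn_diag h1 h2 hn h3
  have hinj : Set.InjOn g (F : Set ((ℕ × ℕ) × (ℕ × ℕ))) := by
    intro p hp q hq hpq
    obtain ⟨u, v, hu, hv, huv⟩ := hdec p hp
    obtain ⟨u', v', hu', hv', huv'⟩ := hdec q hq
    obtain ⟨h1, h2, h3⟩ := hmem p hp
    obtain ⟨h1', h2', h3'⟩ := hmem q hq
    have hp1 := (e3_IX_pos h1).2.2.2.1
    have hq1 := (e3_IX_pos h1').2.2.2.1
    simp only [hg, Prod.mk.injEq] at hpq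
    obtain ⟨⟨e1, e2⟩, e3⟩ := hpq
    rw [hu, hu', Nat.mul_div_cancel_left _ (Nat.pos_of_ne_zero hp1),
      Nat.mul_div_cancel_left _ (Nat.pos_of_ne_zero hq1)] at e3
    have hu0 : u ≠ 0 := by
      rintro rfl
      rw [zero_mul] at huv
      exact hn huv.symm
    have e4 : v = v' := by
      rw [← e3] at huv'
      exact Nat.eq_of_mul_eq_mul_left (Nat.pos_of_ne_zero hu0) (huv.trans huv'.symm)
    have e5 : p.1.2 = q.1.2 := by rw [hv, hv', e2, e4]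
    have e6 : p.2.1 = q.2.1 := by rw [hu, hu', e1, e3]
    exact Prod.ext (Prod.ext e1 e5) (Prod.ext e6 e2)
  have hsub : F.image g ⊆ ((NA P T) ×ˢ (NB P T)) ×ˢ n.divisors := by
    intro q hq
    obtain ⟨p, hp, rfl⟩ := Finset.mem_image.1 hq
    obtain ⟨u, v, hu, hv, huv⟩ := hdec p hp
    obtain ⟨h1, h2, h3⟩ := hmem p hp
    have hp1 := (e3_IX_pos h1).2.2.2.1
    simp only [hg, Finset.mem_product]
    refine ⟨⟨(e3_IX_pos h1).1, (e3_IX_pos h2).2.1⟩, ?_⟩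
    rw [hu, Nat.mul_div_cancel_left _ (Nat.pos_of_ne_zero hp1)]
    exact Nat.mem_divisors.2 ⟨⟨v, huv.symm⟩, hn⟩
  rw [Finset.sum_congr rfl hval, ← Finset.sum_image (f := w) hinj]
  refine (Finset.sum_le_sum_of_subset_of_nonneg hsub ?_).trans (le_of_eq ?_)
  · intro q _ _
    simp only [hw]
    positivity
  · rw [Finset.sum_product]
    simp only [hw]
    have e1 : (∑ a ∈ NA P T, 1 / (a : ℝ)) * (∑ b ∈ NB P T, 1 / (b : ℝ)) =
        ∑ z ∈ NA P T ×ˢ NB P T, 1 / (z.1 : ℝ) * (1 / (z.2 : ℝ)) := by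
      rw [Finset.sum_mul_sum, Finset.sum_product]
    rw [e1]
    simp only [Finset.sum_const, nsmul_eq_mul]
    rw [← Finset.mul_sum, ← Finset.mul_sum]
    ring

/-- the diagonal over the integers that are not primes: `x.1 y.2 n = x.2 y.1` gives `y.1 = x.1 u`, `x.2 = y.2 v`, `u v = n`,
`|cfn x cfn y| = 1/(x.1 y.2 √n)`, so the sum is at most `(2/L) ∑_{n not prime} Λ(n) τ(n)/n · (∑_{m ≤ T, RF} 1/m)² ≤ C/L`
(`np_sum` of Helper69/SM/PSum; `∑_{m ≤ T, RF δ} 1/m` is bounded: `m` has at most `1/δ` prime factors, all in `[T^δ, T]`, or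
`Helper69/PP/MomSum`) -/
theorem nonprime_small (P : Par) {ε : ℝ} (hε : 0 < ε) : ∀ᶠ T : ℝ in atTop,
    ∑ x ∈ IX P T, ∑ y ∈ IX P T, ∑ n ∈ (Finset.range (⌊T⌋₊ + 1)).filter (fun n => ¬ n.Prime),
      (if x.1 * y.2 * n = x.2 * y.1 then |cfn x * cfn y| * (2 / Real.log T * (Λ n / Real.sqrt n)) else 0) ≤ ε := by
  classical
  obtain ⟨C, hC, hCT⟩ := good_sum P
  have hlog : ∀ᶠ T : ℝ in atTop, 2 * CT * (C * C) / ε ≤ Real.log T :=
    Real.tendsto_log_atTop.eventually_ge_atTop _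
  filter_upwards [hCT, hlog, eventually_gt_atTop (1 : ℝ)] with T hT1 hT2 hT3
  have hL : 0 < Real.log T := Real.log_pos hT3
  have hNA : ∑ a ∈ NA P T, 1 / (a : ℝ) ≤ C := by
    refine le_trans (Finset.sum_le_sum_of_subset_of_nonneg ?_ fun _ _ _ => by positivity) hT1
    intro a ha
    unfold NA at ha
    rw [Finset.mem_filter] at ha ⊢
    exact ⟨ha.1, ha.2.1⟩
  have hNB : ∑ a ∈ NB P T, 1 / (a : ℝ) ≤ C := by
    refine le_trans (Finset.sum_le_sum_of_subset_of_nonneg ?_ fun _ _ _ => by positivity) hT1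
    intro a ha
    unfold NB at ha
    rw [Finset.mem_filter] at ha ⊢
    exact ⟨ha.1, ha.2.1⟩
  have hNA0 : 0 ≤ ∑ a ∈ NA P T, 1 / (a : ℝ) := Finset.sum_nonneg fun _ _ => by positivity
  have hNB0 : 0 ≤ ∑ a ∈ NB P T, 1 / (a : ℝ) := Finset.sum_nonneg fun _ _ => by positivity
  have hcomm : ∑ x ∈ IX P T, ∑ y ∈ IX P T, ∑ n ∈ (Finset.range (⌊T⌋₊ + 1)).filter (fun n => ¬ n.Prime),
      (if x.1 * y.2 * n = x.2 * y.1 then |cfn x * cfn y| * (2 / Real.log T * (Λ n / Real.sqrt n)) else 0) =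
      ∑ n ∈ (Finset.range (⌊T⌋₊ + 1)).filter (fun n => ¬ n.Prime), ∑ x ∈ IX P T, ∑ y ∈ IX P T,
      (if x.1 * y.2 * n = x.2 * y.1 then |cfn x * cfn y| * (2 / Real.log T * (Λ n / Real.sqrt n)) else 0) := by
    rw [Finset.sum_congr rfl fun x _ => Finset.sum_comm]
    exact Finset.sum_comm
  rw [hcomm]
  have hterm : ∀ n ∈ (Finset.range (⌊T⌋₊ + 1)).filter (fun n => ¬ n.Prime),
      (∑ x ∈ IX P T, ∑ y ∈ IX P T,
      (if x.1 * y.2 * n = x.2 * y.1 then |cfn x * cfn y| * (2 / Real.log T * (Λ n / Real.sqrt n)) else 0)) ≤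
      (2 / Real.log T * (C * C)) * (aN n * (n.divisors.card : ℝ) / n) := by
    intro n hn
    rw [Finset.mem_filter] at hn
    rcases Nat.eq_zero_or_pos n with rfl | hn0
    · simp
    · refine (e3_diag_n P hT3 hn0.ne').trans ?_
      have h1 : aN n = Λ n := by
        unfold aN
        rw [if_neg hn.2]
      have hΛ : 0 ≤ Λ n := ArithmeticFunction.vonMangoldt_nonneg
      have h2 : (∑ a ∈ NA P T, 1 / (a : ℝ)) * (∑ b ∈ NB P T, 1 / (b : ℝ)) ≤ C * C :=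
        mul_le_mul hNA hNB hNB0 hC.le
      rw [h1]
      calc (2 / Real.log T * (Λ n / n)) * ((∑ a ∈ NA P T, 1 / (a : ℝ)) * (∑ b ∈ NB P T, 1 / (b : ℝ)) *
            n.divisors.card) ≤ (2 / Real.log T * (Λ n / n)) * (C * C * n.divisors.card) := by
            refine mul_le_mul_of_nonneg_left ?_ (by positivity)
            exact mul_le_mul_of_nonneg_right h2 (Nat.cast_nonneg _)
        _ = _ := by ring
  refine (Finset.sum_le_sum hterm).trans ?_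
  rw [← Finset.mul_sum]
  have h3 : ∑ n ∈ (Finset.range (⌊T⌋₊ + 1)).filter (fun n => ¬ n.Prime), (aN n * (n.divisors.card : ℝ) / n) ≤ CT := by
    refine le_trans ?_ (np_sum ⌊T⌋₊)
    have h4 : ∑ n ∈ (Finset.range (⌊T⌋₊ + 1)).filter (fun n => ¬ n.Prime), (aN n * (n.divisors.card : ℝ) / n) ≤
        ∑ n ∈ Finset.range (⌊T⌋₊ + 1), (aN n * (n.divisors.card : ℝ) / n) := by
      refine Finset.sum_le_sum_of_subset_of_nonneg (Finset.filter_subset _ _) fun n _ _ => ?_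
      have := aN_nonneg n
      positivity
    refine h4.trans (le_of_eq ?_)
    rw [Finset.range_eq_Ico, Finset.sum_eq_sum_Ico_succ_bot (by omega)]
    simp only [Nat.divisors_zero, Finset.card_empty, Nat.cast_zero, mul_zero, div_zero, zero_add]
    refine Finset.sum_congr ?_ fun _ _ => rfl
    ext k
    simp only [Finset.mem_Ico, Finset.mem_Icc]
    omega
  calc 2 / Real.log T * (C * C) * _ ≤ 2 / Real.log T * (C * C) * CT :=
        mul_le_mul_of_nonneg_left h3 (by positivity)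
    _ = (2 * CT * (C * C)) / Real.log T := by ring
    _ ≤ ε := by
        rw [div_le_iff₀ hL]
        rw [div_le_iff₀ hε] at hT2
        linarith

end Pool.Agent.Helper69.PQ
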