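import Pool.Agent.Helper69.PQ.C3
import Pool.Agent.Helper4.SH.Kernels
import Pool.Agent.Helper4.SH.Num

/-!
# PP-W1: kernels

# PP-W: kernels and the window identity

Templates: Helper4/SH/Kernels.lean (`exists_cut`: cut `SBc c (2y)` off between `((k+2K)/G)/2` and `f.th`, smooth: `sinc_contDiff`) and
Helper4/SH/Window.lean, WindowF.lean (`window_cos` for the window `hwc c T` instead of `hw T`; `kernel_cos`; `wf_sum`).
For a frequency `ν` of class `k`: `|ν| ≤ (k+2K)/G · L` (`dk_phn`), `∫ cos(ν t) krs f.h 2 T (t-γ) dt = (2π/L) f.h(ν/(2L)) cos(νγ)` and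
`f.h(ν/(2L)) = SBc c (ν/L)`.
-/

open MeasureTheory Set Filter Topology
open Pool.Agent.Helper57.Zeta Pool.Agent.Helper57.PC Pool.Agent.Helper57.LH Pool.Agent.Helper78.SG
open Pool.Agent.Helper4.SH Pool.Agent.Helper69.PP
open scoped ContDiff

namespace Pool.Agent.Helper69.PQ

private theorem cut (a b : ℝ) (ha : 0 < a) (hab : a < b) (hb : b < 1 / 2) (F : ℝ → ℝ)
    (hF : ContDiff ℝ ∞ F) (hFe : ∀ x, F (-x) = F x) :
    ∃ f : TF, (∀ y, |y| ≤ a → f.h y = F y) ∧ f.th ≤ b := by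
  let χ : ContDiffBump (0 : ℝ) := ⟨a, b, ha, hab⟩
  refine ⟨⟨fun y => χ y * F y, b, χ.contDiff.mul hF, ?_, by linarith, hb, ?_⟩, ?_, le_refl _⟩
  · intro x
    simp only [χ.neg, hFe]
  · intro x hx
    have : χ x = 0 := χ.zero_of_le_dist (by rw [Real.dist_eq, sub_zero]; exact hx)
    simp only [this, zero_mul]
  · intro y hy
    have : χ y = 1 := χ.one_of_mem_closedBall (by
      rw [Metric.mem_closedBall, Real.dist_eq, sub_zero]; exact hy)
    simp only [this, one_mul]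

private theorem SBc_contDiff (c : ℝ) : ContDiff ℝ ∞ (SBc c) := by
  unfold SBc
  exact contDiff_const.mul (sinc_contDiff.comp (contDiff_const.mul contDiff_id))

private theorem SBc_even' (c y : ℝ) : SBc c (-y) = SBc c y := by
  unfold SBc
  rw [mul_neg, Real.sinc_neg]

private theorem K_pos (P : Par) : 0 < (P.K : ℝ) := by
  have h : 0 < P.K := Nat.ceil_pos.2 (one_div_pos.2 P.hδ)
  exact_mod_cast h

/-- kernels exist: `(k+2K)/G ≤ 4199/4200 + e/2 < 1` for `k ∈ KR` -/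
theorem exists_KF (P : Par) {k : ℕ} (hk : k ∈ KR P) : ∃ f : TF, KF P k f := by
  have hG : (0 : ℝ) < P.G := by exact_mod_cast P.hG0
  have hK := K_pos P
  have hk0 : (0 : ℝ) ≤ k := Nat.cast_nonneg k
  have he := P.he
  have he1 := P.he1
  have hk1 : (k : ℝ) ≤ (4199 / 4200 : ℝ) * P.G := by
    unfold KR at hk
    rw [Finset.mem_range] at hk
    exact (Nat.le_floor_iff (by positivity)).1 (by omega)
  have hG1 : (2 * (P.K : ℝ) + 2) / P.G ≤ P.e / 2 := P.hG
  rw [div_le_iff₀ hG] at hG1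
  have h1 : ((k : ℝ) + 2 * P.K) / P.G ≤ 4199 / 4200 + P.e / 2 := by
    rw [div_le_iff₀ hG]
    nlinarith
  have h0 : 0 < ((k : ℝ) + 2 * P.K) / P.G := by positivity
  obtain ⟨f, hf, hf1⟩ := cut (((k : ℝ) + 2 * P.K) / P.G / 2)
    ((((k : ℝ) + 2 * P.K) / P.G + P.e / 4) / 2) (by positivity) (by linarith) (by linarith)
    (fun y => SBc P.c (2 * y)) ((SBc_contDiff P.c).comp (contDiff_const.mul contDiff_id))
    (fun x => by rw [mul_neg, SBc_even'])
  exact ⟨f, hf, hf1⟩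

theorem SBc_zero (c : ℝ) : SBc c 0 = c := by
  simp [SBc]

theorem KF_zero {P : Par} {k : ℕ} {f : TF} (hf : KF P k f) : f.h 0 = P.c := by
  have hG : (0 : ℝ) < P.G := by exact_mod_cast P.hG0
  have hK := K_pos P
  have hk0 : (0 : ℝ) ≤ k := Nat.cast_nonneg k
  rw [hf.1 0 (by rw [abs_zero]; positivity), mul_zero, SBc_zero]

end Pool.Agent.Helper69.PQ
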