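import Pool.Agent.Helper69.PQ.M1

/-!
# PP-M3: cell polynomials

# PP-M: admissible Dirichlet polynomials and their mean squares
-/

open MeasureTheory Set Filter Topology
open Pool.Agent.Helper57.Zeta Pool.Agent.Helper57.PC Pool.Agent.Helper57.LH Pool.Agent.Helper78.SG
open Pool.Agent.Helper4.SH Pool.Agent.Helper69.PP

namespace Pool.Agent.Helper69.PQ

/-- the cell polynomials are admissible: `1/√p ≤ δ⁻¹ ww T p` for `p ≥ T^δ`, `p ≤ T^(l/G)` for `p` in the cell `l` -/
theorem adm_Pl (P : Par) {T : ℝ} (hT : 1 < T) (l : ℕ) :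
    Adm (1 / P.δ) 1 ((l : ℝ) / P.G) T (PC P l T) (fun p => 1 / Real.sqrt p) := by
  classical
  intro p hp
  obtain ⟨hpP, hpd, hpl⟩ := Finset.mem_filter.1 hp
  have hprime : p.Prime := (Finset.mem_filter.1 hpP).2
  have hL : 0 < Real.log T := Real.log_pos hT
  have hp0 : (0 : ℝ) < p := by exact_mod_cast hprime.pos
  have hT0 : 0 < T := by linarith
  have hsq : 0 < Real.sqrt p := Real.sqrt_pos.2 hp0
  have hG : (0 : ℝ) < P.G := by exact_mod_cast P.hG0
  refine ⟨hprime.ne_zero, ?_, ?_, ?_, ?_⟩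
  · rw [Nat.primeFactorsList_prime hprime]; simp
  · intro q hq
    rw [Nat.primeFactorsList_prime hprime] at hq
    rw [List.mem_singleton] at hq
    rw [hq]; exact hpP
  · have hW : WW T p = ww T p := by
      unfold WW
      rw [Nat.primeFactorsList_prime hprime]; simp
    rw [hW, abs_of_nonneg (by positivity)]
    unfold ww
    have hlog : P.δ * Real.log T ≤ Real.log p := by
      have := Real.log_le_log (Real.rpow_pos_of_pos hT0 _) hpd
      rwa [Real.log_rpow hT0] at this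
    have hδ := P.hδ
    rw [div_mul_div_comm, one_mul]
    rw [div_le_div_iff₀ hsq (by positivity)]
    nlinarith [mul_le_mul_of_nonneg_right hlog hsq.le]
  · have h1 : P.G * Real.log p / Real.log T ≤ (l : ℝ) := by
      rw [← hpl]
      exact Nat.le_ceil _
    have h2 : Real.log p ≤ Real.log T * ((l : ℝ) / P.G) := by
      rw [div_le_iff₀ hL] at h1
      rw [← mul_div_assoc, le_div_iff₀ hG]
      linarith
    calc (p : ℝ) = Real.exp (Real.log p) := (Real.exp_log hp0).symm
      _ ≤ Real.exp (Real.log T * ((l : ℝ) / P.G)) := Real.exp_le_exp.2 h2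
      _ = T ^ ((l : ℝ) / P.G) := by rw [Real.rpow_def_of_pos hT0]

/-- products of cell polynomials and an admissible polynomial -/
theorem adm_list (P : Par) (K : ℝ) (hK : 0 ≤ K) (d : ℕ) (θ : ℝ) (s : List ℕ) : ∃ (K' : ℝ) (d' : ℕ), 0 ≤ K' ∧
    ∀ T : ℝ, 1 < T → ∀ (S : Finset ℕ) (c : ℕ → ℝ), Adm K d θ T S c →
      ∃ (S' : Finset ℕ) (c' : ℕ → ℝ), Adm K' d' ((s.sum : ℝ) / P.G + θ) T S' c' ∧
        ∀ t, ‖DP S' c' t‖ = (s.map (fun l => ‖Pl P l T t‖)).prod * ‖DP S c t‖ := by
  induction s with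
  | nil =>
    refine ⟨K, d, hK, ?_⟩
    intro T hT S c h
    refine ⟨S, c, ?_, ?_⟩
    · simpa using h
    · intro t; simp
  | cons l s ih =>
    obtain ⟨K', d', hK', hih⟩ := ih
    have hδ := P.hδ
    refine ⟨1 / P.δ * K' * 2 ^ (1 + d'), 1 + d', by positivity, ?_⟩
    intro T hT S c h
    obtain ⟨S', c', h1, h2⟩ := hih T hT S c h
    obtain ⟨S'', c'', h3, h4⟩ := adm_mul hT (by positivity) hK' (adm_Pl P hT l) h1
    refine ⟨S'', c'', ?_, ?_⟩
    · have he : (((l :: s).sum : ℕ) : ℝ) / P.G + θ = (l : ℝ) / P.G + ((s.sum : ℝ) / P.G + θ) := by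
        rw [List.sum_cons]; push_cast; ring
      rw [he]; exact h3
    · intro t
      rw [h4, norm_mul, h2, List.map_cons, List.prod_cons, mul_assoc]
      rfl

end Pool.Agent.Helper69.PQ
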