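import Pool.Agent.Helper69.PQ.C3
import Pool.Agent.Helper4.SH.PPow

/-!
# PP-X1: prime powers

# PP-X: the prime sum as an admissible polynomial plus a bounded function

`pss_eq71`, `prp_eq71` (SH/PPow) give the two sums; the prime powers `p^a`, `a ≥ 2`, contribute at most
`(2M/L) ∑ log p (1/p + p^(-3/2)/(1-p^(-1/2)))`, and `∑_{p ≤ T} log p/p ≤ L + C` (Mertens of Helper57/LS).
-/

open MeasureTheory Set Filter Topology
open Pool.Agent.Helper57.Zeta Pool.Agent.Helper57.PC Pool.Agent.Helper57.LH Pool.Agent.Helper78.SG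
open Pool.Agent.Helper4.SH Pool.Agent.Helper69.PP

namespace Pool.Agent.Helper69.PQ

open scoped ArithmeticFunction in
open Pool.Agent.Helper57.UB Pool.Agent.Helper57.LS in
theorem x1_aN (N : ℕ) : ∑ n ∈ Finset.range (N + 1), aN n / Real.sqrt n ≤ 8 * Real.log N := by
  classical
  set S : Finset ℕ := (Finset.range (N + 1)).filter (fun n => ¬ n.Prime ∧ Λ n ≠ 0) with hS
  have e1 : ∑ n ∈ Finset.range (N + 1), aN n / Real.sqrt n = ∑ n ∈ S, aN n / Real.sqrt n := by
    symm
    apply Finset.sum_subset (Finset.filter_subset _ _)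
    intro n hn hn2
    rw [Finset.mem_filter] at hn2
    have : aN n = 0 := by
      unfold aN
      split_ifs with h
      · rfl
      · by_contra h3
        exact hn2 ⟨hn, h, h3⟩
    rw [this, zero_div]
  rw [e1]
  set φ : ℕ → ℕ × ℕ := fun n => (n.minFac, n.factorization n.minFac) with hφ
  set g : ℕ × ℕ → ℝ := fun x => Real.log x.1 * (1 / Real.sqrt x.1) ^ x.2 with hg
  have hpp : ∀ n ∈ S, n.minFac ^ n.factorization n.minFac = n ∧ n.minFac.Prime ∧
      2 ≤ n.factorization n.minFac ∧ n ≤ N := by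
    intro n hn
    rw [hS, Finset.mem_filter, Finset.mem_range] at hn
    have h1 : IsPrimePow n := ArithmeticFunction.vonMangoldt_ne_zero_iff.1 hn.2.2
    have h2 : n.minFac ^ n.factorization n.minFac = n := h1.minFac_pow_factorization_eq
    have h3 : n ≠ 1 := h1.ne_one
    have h4 : n.minFac.Prime := Nat.minFac_prime h3
    refine ⟨h2, h4, ?_, by omega⟩
    by_contra h5
    have h6 : n.factorization n.minFac = 0 ∨ n.factorization n.minFac = 1 := by omega
    rcases h6 with h6 | h6
    · rw [h6, pow_zero] at h2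
      exact h3 h2.symm
    · rw [h6, pow_one] at h2
      exact hn.2.1 (h2 ▸ h4)
  have e2 : ∀ n ∈ S, aN n / Real.sqrt n = g (φ n) := by
    intro n hn
    obtain ⟨h1, h2, h3, h4⟩ := hpp n hn
    have h5 : Λ n = Real.log n.minFac := by
      conv_lhs => rw [← h1]
      rw [ArithmeticFunction.vonMangoldt_apply_pow (by omega), ArithmeticFunction.vonMangoldt_apply_prime h2]
    have h6 : Real.sqrt n = Real.sqrt n.minFac ^ n.factorization n.minFac := by
      have h7 : (n : ℝ) = (n.minFac : ℝ) ^ n.factorization n.minFac := by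
        exact_mod_cast h1.symm
      rw [Real.sqrt_eq_iff_mul_self_eq (by positivity) (by positivity), ← mul_pow,
        Real.mul_self_sqrt (by positivity), ← h7]
    have h8 : ¬ n.Prime := by
      rw [hS, Finset.mem_filter] at hn
      exact hn.2.1
    simp only [hg, hφ]
    unfold aN
    rw [if_neg h8, h5, h6, one_div, inv_pow]
    rfl
  have hinj : Set.InjOn φ S := by
    intro m hm n hn h
    simp only [hφ, Prod.mk.injEq] at h
    rw [← (hpp m hm).1, ← (hpp n hn).1, h.2, h.1]
  rw [Finset.sum_congr rfl e2, ← Finset.sum_image (f := g) hinj]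
  have hsub : S.image φ ⊆ ((Finset.range (N + 1)).filter Nat.Prime) ×ˢ (Finset.Ico 2 (N + 2)) := by
    intro x hx
    obtain ⟨n, hn, rfl⟩ := Finset.mem_image.1 hx
    obtain ⟨h1, h2, h3, h4⟩ := hpp n hn
    have h0 : n ≠ 0 := by
      rintro rfl
      simp at h3
    rw [Finset.mem_product, Finset.mem_filter, Finset.mem_range, Finset.mem_Ico]
    refine ⟨⟨?_, h2⟩, h3, ?_⟩
    · have := Nat.minFac_le (n := n) (by omega)
      simp only [hφ]
      omega
    · have h5 := Nat.lt_pow_self h2.one_lt (n := n.factorization n.minFac)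
      simp only [hφ]
      rw [h1] at h5
      omega
  refine (Finset.sum_le_sum_of_subset_of_nonneg hsub ?_).trans ?_
  · intro x _ _
    simp only [hg]
    have := Real.log_natCast_nonneg x.1
    positivity
  rw [Finset.sum_product]
  have h3 : ∀ p ∈ (Finset.range (N + 1)).filter Nat.Prime,
      ∑ a ∈ Finset.Ico 2 (N + 2), g (p, a) ≤ 4 * (Λ p / p) := by
    intro p hp
    have hpr := (Finset.mem_filter.1 hp).2
    have hp2 : (2 : ℝ) ≤ p := by exact_mod_cast hpr.two_le
    have hp0 : (0 : ℝ) < p := by linarith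
    set r : ℝ := 1 / Real.sqrt p with hr
    have hs0 : 0 < Real.sqrt p := Real.sqrt_pos.2 hp0
    have hr0 : 0 < r := by positivity
    have hr2 : r ^ 2 = 1 / p := by
      rw [hr, div_pow, one_pow, Real.sq_sqrt hp0.le]
    have hr1 : r ≤ 3 / 4 := by
      have : r ^ 2 ≤ (3 / 4) ^ 2 := by
        rw [hr2, div_le_iff₀ hp0]
        linarith
      exact le_of_sq_le_sq this (by norm_num)
    have h4 : ∑ a ∈ Finset.Ico 2 (N + 2), r ^ a ≤ 4 * r ^ 2 := by
      rw [geom_sum_Ico (by linarith) (by omega)]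
      rw [show (r ^ (N + 2) - r ^ 2) / (r - 1) = (r ^ 2 - r ^ (N + 2)) / (1 - r) by
        rw [← neg_sub, ← neg_sub 1 r, neg_div_neg_eq]]
      rw [div_le_iff₀ (by linarith)]
      have : 0 ≤ r ^ (N + 2) := by positivity
      nlinarith [sq_nonneg r]
    simp only [hg]
    rw [← Finset.mul_sum, ArithmeticFunction.vonMangoldt_apply_prime hpr]
    have h5 : 0 ≤ Real.log p := Real.log_natCast_nonneg p
    calc Real.log p * ∑ a ∈ Finset.Ico 2 (N + 2), r ^ a ≤ Real.log p * (4 * r ^ 2) :=
          mul_le_mul_of_nonneg_left h4 h5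
      _ = 4 * (Real.log p / p) := by rw [hr2]; ring
  refine (Finset.sum_le_sum h3).trans ?_
  rw [← Finset.mul_sum]
  have h4 : ∑ p ∈ (Finset.range (N + 1)).filter Nat.Prime, Λ p / p ≤
      ∑ d ∈ Finset.range (N + 1), Λ d / d := by
    refine Finset.sum_le_sum_of_subset_of_nonneg (Finset.filter_subset _ _) ?_
    intro n _ _
    have := @ArithmeticFunction.vonMangoldt_nonneg n
    positivity
  have h5 := sum_vM N
  linarith

/-- the prime powers are pointwise bounded -/
theorem pp_bdd (f : TF) : ∃ C : ℝ, 0 < C ∧ ∀ᶠ T : ℝ in atTop, ∀ t : ℝ, |pss f.h 2 T t - prp f.h 2 T t| ≤ C := by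
  obtain ⟨M, hM0, hM⟩ := tf_bdd71 f
  refine ⟨16 * M, by positivity, ?_⟩
  filter_upwards [eventually_gt_atTop 1] with T hT t
  have hL : 0 < Real.log T := Real.log_pos hT
  rw [pss_eq71 f (Or.inr rfl) hT, prp_eq71,
      ← Finset.sum_filter_add_sum_filter_not (Finset.range (⌊T⌋₊ + 1)) Nat.Prime
        (fun n => cc71 f.h 2 T n * Real.cos (Real.log n * t)), add_sub_cancel_left]
  refine (Finset.abs_sum_le_sum_abs _ _).trans ?_
  have h1 : ∀ n ∈ (Finset.range (⌊T⌋₊ + 1)).filter (fun n => ¬ n.Prime),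
      |cc71 f.h 2 T n * Real.cos (Real.log n * t)| ≤
        2 * M / Real.log T * (Pool.Agent.Helper57.LS.aN n / Real.sqrt n) := by
    intro n hn
    have hn2 := (Finset.mem_filter.1 hn).2
    have h2 := hM (yy T n / 2)
    have h3 : 0 ≤ ArithmeticFunction.vonMangoldt n := ArithmeticFunction.vonMangoldt_nonneg
    unfold cc71 Pool.Agent.Helper57.LS.aN
    rw [if_neg hn2, abs_mul, abs_mul]
    have h4 : |2 / Real.log T * (ArithmeticFunction.vonMangoldt n / Real.sqrt n)| =
        2 / Real.log T * (ArithmeticFunction.vonMangoldt n / Real.sqrt n) := abs_of_nonneg (by positivity)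
    rw [h4]
    have h5 := Real.abs_cos_le_one (Real.log n * t)
    calc 2 / Real.log T * (ArithmeticFunction.vonMangoldt n / Real.sqrt n) * |f.h (yy T n / 2)| *
          |Real.cos (Real.log n * t)|
        ≤ 2 / Real.log T * (ArithmeticFunction.vonMangoldt n / Real.sqrt n) * M * 1 := by gcongr
      _ = _ := by ring
  refine (Finset.sum_le_sum h1).trans ?_
  rw [← Finset.mul_sum]
  have h2 : ∑ n ∈ (Finset.range (⌊T⌋₊ + 1)).filter (fun n => ¬ n.Prime),
      Pool.Agent.Helper57.LS.aN n / Real.sqrt n ≤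
      ∑ n ∈ Finset.range (⌊T⌋₊ + 1), Pool.Agent.Helper57.LS.aN n / Real.sqrt n := by
    refine Finset.sum_le_sum_of_subset_of_nonneg (Finset.filter_subset _ _) ?_
    intro n _ _
    have := Pool.Agent.Helper57.LS.aN_nonneg n
    positivity
  have h3 := x1_aN ⌊T⌋₊
  have h4 : Real.log (⌊T⌋₊ : ℕ) ≤ Real.log T := by
    apply Real.log_le_log
    · have : 1 ≤ ⌊T⌋₊ := Nat.le_floor (by simpa using hT.le)
      exact_mod_cast this
    · exact Nat.floor_le (by linarith)
  have h5 : 0 ≤ 2 * M / Real.log T := by positivity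
  calc 2 * M / Real.log T * _ ≤ 2 * M / Real.log T * (8 * Real.log T) :=
        mul_le_mul_of_nonneg_left (by linarith) h5
    _ = 16 * M := by field_simp; ring

end Pool.Agent.Helper69.PQ
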