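import Pool.Agent.Helper69.PQ.A0
import Pool.Agent.Helper4.SH.S1

/-!
# PP-A0c: Mertens for functions

# PP-A0: rough numbers, definitions
-/

open MeasureTheory Set Filter Topology
open Pool.Agent.Helper57.Zeta Pool.Agent.Helper57.PC Pool.Agent.Helper57.LH Pool.Agent.Helper78.SG
open Pool.Agent.Helper4.SH Pool.Agent.Helper69.PP

namespace Pool.Agent.Helper69.PQ

/-- Mertens for continuous functions, away from `0` (`S1` of Helper4/SH with `φ(y) = ψ(y)/max y a`) -/
theorem mert {ψ : ℝ → ℝ} (hψ : Continuous ψ) {a : ℝ} (ha : 0 < a) {ε : ℝ} (hε : 0 < ε) : ∀ᶠ T : ℝ in atTop,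
    ∀ u u' : ℝ, a ≤ u → u ≤ u' → u' ≤ 1 →
      |(∑ p ∈ (PP T).filter (fun p => u < yy T p ∧ yy T p ≤ u'), yy T p / p * ψ (yy T p)) - ∫ y in u..u', ψ y| ≤ ε := by
  have hmax : ∀ y, 0 < max y a := fun y => lt_max_of_lt_right ha
  have hφ : Continuous (fun y => ψ y / max y a) :=
    hψ.div (continuous_id.max continuous_const) (fun y => (hmax y).ne')
  filter_upwards [S1 hφ (half_pos hε)] with T hT u u' hau huu' hu'1
  have h1 := hT u ⟨(ha.le.trans hau), huu'.trans hu'1⟩
  have h2 := hT u' ⟨(ha.le.trans hau).trans huu', hu'1⟩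
  have hsplit : (∑ p ∈ (PP T).filter (fun p => yy T p ≤ u'), ww T p ^ 2 * (ψ (yy T p) / max (yy T p) a)) =
      (∑ p ∈ (PP T).filter (fun p => yy T p ≤ u), ww T p ^ 2 * (ψ (yy T p) / max (yy T p) a)) +
      ∑ p ∈ (PP T).filter (fun p => u < yy T p ∧ yy T p ≤ u'), yy T p / p * ψ (yy T p) := by
    have hd : Disjoint ((PP T).filter (fun p => yy T p ≤ u))
        ((PP T).filter (fun p => u < yy T p ∧ yy T p ≤ u')) := by
      rw [Finset.disjoint_left]
      intro p hp hp'
      exact absurd (Finset.mem_filter.1 hp').2.1 (not_lt.2 (Finset.mem_filter.1 hp).2)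
    have hu : (PP T).filter (fun p => yy T p ≤ u') = (PP T).filter (fun p => yy T p ≤ u) ∪
        (PP T).filter (fun p => u < yy T p ∧ yy T p ≤ u') := by
      ext p
      simp only [Finset.mem_union, Finset.mem_filter]
      constructor
      · rintro ⟨h, h'⟩
        rcases le_or_gt (yy T p) u with h3 | h3
        · exact Or.inl ⟨h, h3⟩
        · exact Or.inr ⟨h, h3, h'⟩
      · rintro (⟨h, h'⟩ | ⟨h, h', h''⟩)
        · exact ⟨h, h'.trans huu'⟩
        · exact ⟨h, h''⟩
    rw [hu, Finset.sum_union hd]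
    congr 1
    apply Finset.sum_congr rfl
    intro p hp
    have hp' := Finset.mem_filter.1 hp
    have hpp : p.Prime := by
      have := hp'.1
      unfold PP at this
      exact (Finset.mem_filter.1 this).2
    have hp0 : (0:ℝ) < p := by exact_mod_cast hpp.pos
    have hy : a ≤ yy T p := hau.trans hp'.2.1.le
    have hy0 : 0 < yy T p := ha.trans_le hy
    rw [max_eq_left hy]
    have hw : ww T p ^ 2 = yy T p ^ 2 / p := by
      unfold ww yy
      rw [div_pow, mul_pow, Real.sq_sqrt hp0.le, div_pow, div_div]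
    rw [hw]
    field_simp
  have hii : ∀ b c : ℝ, IntervalIntegrable (fun y => y * (ψ y / max y a)) volume b c := fun b c =>
    (continuous_id.mul hφ).intervalIntegrable _ _
  have hint : (∫ y in (0:ℝ)..u', y * (ψ y / max y a)) =
      (∫ y in (0:ℝ)..u, y * (ψ y / max y a)) + ∫ y in u..u', ψ y := by
    rw [← intervalIntegral.integral_add_adjacent_intervals (hii 0 u) (hii u u')]
    congr 1
    apply intervalIntegral.integral_congr
    intro y hy
    rw [uIcc_of_le huu'] at hy
    have hy1 : a ≤ y := hau.trans hy.1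
    have hy0 : 0 < y := ha.trans_le hy1
    simp only
    rw [max_eq_left hy1]
    field_simp
  rw [hsplit, hint] at h2
  have h3 := abs_le.1 h1
  have h4 := abs_le.1 h2
  rw [abs_le]
  constructor <;> linarith [h3.1, h3.2, h4.1, h4.2]

/-- the same for the reciprocals -/
theorem mert_log {a : ℝ} (ha : 0 < a) {ε : ℝ} (hε : 0 < ε) : ∀ᶠ T : ℝ in atTop,
    ∀ u u' : ℝ, a ≤ u → u ≤ u' → u' ≤ 1 →
      |(∑ p ∈ (PP T).filter (fun p => u < yy T p ∧ yy T p ≤ u'), 1 / (p : ℝ)) - Real.log (u' / u)| ≤ ε := by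
  have hmax : ∀ y, 0 < max y a := fun y => lt_max_of_lt_right ha
  have hφ : Continuous (fun y => 1 / max y a) :=
    continuous_const.div (continuous_id.max continuous_const) (fun y => (hmax y).ne')
  filter_upwards [mert hφ ha hε] with T hT u u' hau huu' hu'1
  have h := hT u u' hau huu' hu'1
  have h1 : (∑ p ∈ (PP T).filter (fun p => u < yy T p ∧ yy T p ≤ u'), yy T p / p * (1 / max (yy T p) a)) =
      ∑ p ∈ (PP T).filter (fun p => u < yy T p ∧ yy T p ≤ u'), 1 / (p : ℝ) := by
    apply Finset.sum_congr rfl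
    intro p hp
    have hp' := Finset.mem_filter.1 hp
    have hpp : p.Prime := by
      have := hp'.1
      unfold PP at this
      exact (Finset.mem_filter.1 this).2
    have hp0 : (0:ℝ) < p := by exact_mod_cast hpp.pos
    have hy : a ≤ yy T p := hau.trans hp'.2.1.le
    have hy0 : 0 < yy T p := ha.trans_le hy
    rw [max_eq_left hy]
    field_simp
  have h2 : (∫ y in u..u', 1 / max y a) = Real.log (u' / u) := by
    rw [← integral_one_div (a := u) (b := u')]
    · apply intervalIntegral.integral_congr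
      intro y hy
      rw [uIcc_of_le huu'] at hy
      simp only
      rw [max_eq_left (hau.trans hy.1)]
    · rw [uIcc_of_le huu']
      intro h0
      linarith [h0.1]
  rw [h1, h2] at h
  exact h

end Pool.Agent.Helper69.PQ
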