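import Pool.Agent.Helper69.PQ.A0b

/-!
# PP-A3a: bounds of W

# PP-A3: the sums over numerators and denominators
-/

open MeasureTheory Set Filter Topology
open Pool.Agent.Helper57.Zeta Pool.Agent.Helper57.PC Pool.Agent.Helper57.LH Pool.Agent.Helper78.SG
open Pool.Agent.Helper4.SH Pool.Agent.Helper69.PP

namespace Pool.Agent.Helper69.PQ

private theorem yn67 {T : ℝ} (hT : 1 < T) (n : ℕ) : 0 ≤ yy T n :=
  div_nonneg (Real.log_natCast_nonneg n) (Real.log_pos hT).le

private theorem kap_nonneg67 {c : ℝ} (hc : 0 ≤ c) : 0 ≤ kap c := by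
  unfold kap
  positivity

private theorem sum_yy67 (T : ℝ) (n : ℕ) :
    ∑ p ∈ n.primeFactors, yy T p = yy T (∏ p ∈ n.primeFactors, p) := by
  unfold yy
  rw [← Finset.sum_div]
  congr 1
  push_cast
  rw [Real.log_prod]
  intro p hp
  exact_mod_cast (Nat.prime_of_mem_primeFactors hp).ne_zero

/-- `∑_{p | n} y_p ≤ y_n ≤ 1` -/
theorem Wn_le {c T : ℝ} (hc : 0 ≤ c) (hc1 : c ≤ 1) (hT : 1 < T) {n : ℕ} (hn : n ≠ 0) (hn1 : (n : ℝ) ≤ T) : |Wn c T n| ≤ 2 := by
  have hL : 0 < Real.log T := Real.log_pos hT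
  have h1 : |Wn c T n| ≤ ∑ p ∈ n.primeFactors, 2 * yy T p := by
    unfold Wn
    refine (Finset.abs_sum_le_sum_abs _ _).trans (Finset.sum_le_sum fun p _ => ?_)
    have hy := yn67 hT p
    rw [abs_mul, abs_of_nonneg (by positivity : (0:ℝ) ≤ 2 * yy T p)]
    have h2 := (SBc_le hc (yy T p)).trans hc1
    calc 2 * yy T p * |SBc c (yy T p)| ≤ 2 * yy T p * 1 :=
          mul_le_mul_of_nonneg_left h2 (by positivity)
      _ = _ := mul_one _
  rw [← Finset.mul_sum, sum_yy67] at h1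
  have h3 : ∏ p ∈ n.primeFactors, p ≤ n := Nat.le_of_dvd (Nat.pos_of_ne_zero hn) (Nat.prod_primeFactors_dvd n)
  have h4 : yy T (∏ p ∈ n.primeFactors, p) ≤ 1 := by
    unfold yy
    rw [div_le_one hL]
    have hpos : 0 < ∏ p ∈ n.primeFactors, p :=
      Finset.prod_pos fun p hp => (Nat.prime_of_mem_primeFactors hp).pos
    refine Real.log_le_log (by exact_mod_cast hpos) ?_
    refine le_trans ?_ hn1
    exact_mod_cast h3
  linarith

/-- lower bound for squarefree `n` all of whose prime factors have `y_p ≤ b`: `W(n) ≥ 2 (c - κ b²) y_n` -/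
theorem Wn_ge {c T b : ℝ} (hc : 0 ≤ c) (hT : 1 < T) {n : ℕ} (hn : Squarefree n) (hb : ∀ p ∈ n.primeFactors, yy T p ≤ b)
    (hb0 : 0 ≤ b) : 2 * (c - kap c * b ^ 2) * yy T n ≤ Wn c T n := by
  have hk := kap_nonneg67 hc
  have h1 : yy T n = ∑ p ∈ n.primeFactors, yy T p := by
    rw [sum_yy67, Nat.prod_primeFactors_of_squarefree hn]
  rw [h1, Finset.mul_sum]
  unfold Wn
  refine Finset.sum_le_sum fun p hp => ?_
  have hy := yn67 hT p
  have h2 := SBc_ge hc (yy T p)
  have h3 : yy T p ^ 2 ≤ b ^ 2 := pow_le_pow_left₀ hy (hb p hp) 2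
  have h4 : kap c * yy T p ^ 2 ≤ kap c * b ^ 2 := mul_le_mul_of_nonneg_left h3 hk
  have h5 : c - kap c * b ^ 2 ≤ SBc c (yy T p) := by linarith
  calc 2 * (c - kap c * b ^ 2) * yy T p = 2 * yy T p * (c - kap c * b ^ 2) := by ring
    _ ≤ 2 * yy T p * SBc c (yy T p) := mul_le_mul_of_nonneg_left h5 (by positivity)

/-- lower bound for `n = q n'`, `n'` squarefree: `W(n) ≥ 2 c y_q - 2 κ y_q³ + 2 c y_n' - 2 κ y_n'³` -/
theorem Wn_mul_ge {c T : ℝ} (hc : 0 ≤ c) (hT : 1 < T) {q n : ℕ} (hq : q.Prime) (hn : Squarefree n) (hqn : ¬ q ∣ n) :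
    2 * c * yy T q - 2 * kap c * yy T q ^ 3 + (2 * c * yy T n - 2 * kap c * yy T n ^ 3) ≤ Wn c T (q * n) := by
  have hk := kap_nonneg67 hc
  have hone : ∀ p : ℕ, 2 * c * yy T p - 2 * kap c * yy T p ^ 3 ≤ 2 * yy T p * SBc c (yy T p) := by
    intro p
    have hy := yn67 hT p
    have h2 := SBc_ge hc (yy T p)
    calc 2 * c * yy T p - 2 * kap c * yy T p ^ 3 = 2 * yy T p * (c - kap c * yy T p ^ 2) := by ring
      _ ≤ 2 * yy T p * SBc c (yy T p) := mul_le_mul_of_nonneg_left h2 (by positivity)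
  have hpf : (q * n).primeFactors = insert q n.primeFactors := by
    rw [Nat.primeFactors_mul hq.ne_zero hn.ne_zero, hq.primeFactors, Finset.insert_eq]
  have hnot : q ∉ n.primeFactors := fun h => hqn (Nat.dvd_of_mem_primeFactors h)
  have h1 : yy T n = ∑ p ∈ n.primeFactors, yy T p := by
    rw [sum_yy67, Nat.prod_primeFactors_of_squarefree hn]
  have hcube : ∑ p ∈ n.primeFactors, yy T p ^ 3 ≤ yy T n ^ 3 := by
    have hle : ∀ p ∈ n.primeFactors, yy T p ≤ yy T n := by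
      intro p hp
      rw [h1]
      exact Finset.single_le_sum (f := fun p => yy T p) (fun i _ => yn67 hT i) hp
    have hyn := yn67 hT n
    calc ∑ p ∈ n.primeFactors, yy T p ^ 3 ≤ ∑ p ∈ n.primeFactors, yy T p * yy T n ^ 2 := by
          refine Finset.sum_le_sum fun p hp => ?_
          have hy := yn67 hT p
          have h2 : yy T p ^ 2 ≤ yy T n ^ 2 := pow_le_pow_left₀ hy (hle p hp) 2
          calc yy T p ^ 3 = yy T p * yy T p ^ 2 := by ring
            _ ≤ yy T p * yy T n ^ 2 := mul_le_mul_of_nonneg_left h2 hy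
      _ = yy T n ^ 3 := by
          rw [← Finset.sum_mul, ← h1]
          ring
  unfold Wn
  rw [hpf, Finset.sum_insert hnot]
  refine add_le_add (hone q) ?_
  calc 2 * c * yy T n - 2 * kap c * yy T n ^ 3
      ≤ 2 * c * yy T n - 2 * kap c * ∑ p ∈ n.primeFactors, yy T p ^ 3 := by
        have := mul_le_mul_of_nonneg_left hcube (by positivity : (0:ℝ) ≤ 2 * kap c)
        linarith
    _ = ∑ p ∈ n.primeFactors, (2 * c * yy T p - 2 * kap c * yy T p ^ 3) := by
        rw [Finset.sum_sub_distrib, ← Finset.mul_sum, ← Finset.mul_sum, h1]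
    _ ≤ _ := Finset.sum_le_sum fun p _ => hone p

end Pool.Agent.Helper69.PQ
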