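import Pool.Agent.Helper69.PQ.A0a

/-!
# PP-A3c: membership by size

# PP-A3: the sums over numerators and denominators
-/

open MeasureTheory Set Filter Topology
open Pool.Agent.Helper57.Zeta Pool.Agent.Helper57.PC Pool.Agent.Helper57.LH Pool.Agent.Helper78.SG
open Pool.Agent.Helper4.SH Pool.Agent.Helper69.PP

namespace Pool.Agent.Helper69.PQ

/-- the slack covers the number of prime factors -/
private theorem K_le_slack (P : Par) : (P.K : ℝ) ≤ P.e / 4 * P.G := by
  have h := P.hG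
  have hG : (0 : ℝ) < P.G := by exact_mod_cast P.hG0
  rw [div_le_iff₀ hG] at h
  have hK : (P.K : ℝ) = (⌈1 / P.δ⌉₊ : ℝ) := rfl
  rw [hK]
  linarith

/-- size of the type from the size of the number -/
private theorem US_le_of_yy {P : Par} {T : ℝ} (hT : 1 < T) {n : ℕ} (h : Gd P T n) {θ : ℝ} (hn : yy T n ≤ θ - 2 * P.e) :
    (US (ty P.G T n) : ℝ) ≤ (θ - P.e) * P.G := by
  have h1 := US_le_log hT h
  have hK := K_le_slack P
  have hG : (0 : ℝ) < P.G := by exact_mod_cast P.hG0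
  have he := P.he
  have h2 : P.G * Real.log n / Real.log T = P.G * yy T n := by
    unfold yy
    ring
  rw [h2] at h1
  have h3 : P.G * yy T n ≤ P.G * (θ - 2 * P.e) := mul_le_mul_of_nonneg_left hn hG.le
  nlinarith

private theorem yy_le_of_rpow {T : ℝ} (hT : 1 < T) {n : ℕ} (hn0 : n ≠ 0) {θ : ℝ} (hn : (n : ℝ) ≤ T ^ θ) : yy T n ≤ θ := by
  have hL : 0 < Real.log T := Real.log_pos hT
  have hn1 : (0 : ℝ) < n := by exact_mod_cast Nat.pos_of_ne_zero hn0
  unfold yy
  rw [div_le_iff₀ hL]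
  calc Real.log n ≤ Real.log (T ^ θ) := Real.log_le_log hn1 hn
    _ = θ * Real.log T := Real.log_rpow (by linarith) θ

/-- membership by size: good `n ≤ T^(1/2 - 2e)` -/
theorem mem_NA_of {P : Par} {T : ℝ} (hT : 1 < T) {n : ℕ} (h : Gd P T n) (hn : (n : ℝ) ≤ T ^ (1 / 2 - 2 * P.e)) : n ∈ NA P T := by
  rw [mem_NA]
  exact ⟨h, US_le_of_yy hT h (yy_le_of_rpow hT h.1.1 hn)⟩

/-- membership by size: good `n ≤ T^(1/3 - 2e)` -/
theorem mem_NB_of {P : Par} {T : ℝ} (hT : 1 < T) {n : ℕ} (h : Gd P T n) (hn : (n : ℝ) ≤ T ^ (1 / 3 - 2 * P.e)) : n ∈ NB P T := by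
  rw [mem_NB]
  have hG : (0 : ℝ) < P.G := by exact_mod_cast P.hG0
  have he := P.he
  have h1 := US_le_of_yy hT h (yy_le_of_rpow hT h.1.1 hn)
  refine ⟨h, fun _ _ => 3, ?_, ?_⟩
  · intro l _
    rw [Finset.sum_const, Finset.card_univ, Fintype.card_fin]
    norm_num
  · intro _
    have h2 : (∑ l ∈ ty P.G T n, 3 * l : ℕ) = 3 * US (ty P.G T n) := by
      unfold US
      rw [Finset.mul_sum]
    rw [h2]
    push_cast
    nlinarith

/-- prime factors of denominators: `y_p ≤ 1/3` -/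
theorem NB_prime {P : Par} {T : ℝ} (hT : 1 < T) {n p : ℕ} (hn : n ∈ NB P T) (hp : p ∈ n.primeFactors) : yy T p ≤ 1 / 3 := by
  rw [mem_NB] at hn
  have hG : (0 : ℝ) < P.G := by exact_mod_cast P.hG0
  have he := P.he
  have hL : 0 < Real.log T := Real.log_pos hT
  have hcp : ce P.G T p ∈ ty P.G T n := Finset.mem_image_of_mem _ hp
  have hkey : (ce P.G T p : ℝ) ≤ 1 / 3 * P.G := by
    obtain ⟨f, hf1, hf2⟩ := hn.2
    by_contra hlt
    push_neg at hlt
    have h2 : ∀ j, f j (ce P.G T p) ≤ 2 := by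
      intro j
      by_contra h3
      have h3' : 3 ≤ f j (ce P.G T p) := by omega
      have h4 : f j (ce P.G T p) * ce P.G T p ≤ ∑ l ∈ ty P.G T n, f j l * l :=
        Finset.single_le_sum (f := fun l : ℕ => f j l * l) (fun _ _ => Nat.zero_le _) hcp
      have h5 : 3 * ce P.G T p ≤ ∑ l ∈ ty P.G T n, f j l * l := le_trans (Nat.mul_le_mul_right _ h3') h4
      have h6 : (3 : ℝ) * ce P.G T p ≤ ((∑ l ∈ ty P.G T n, f j l * l : ℕ) : ℝ) := by exact_mod_cast h5
      have h7 := hf2 j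
      nlinarith
    have h8 : ∑ j, f j (ce P.G T p) ≤ ∑ _j : Fin 2099, 2 := Finset.sum_le_sum fun j _ => h2 j
    have h9 : ∑ _j : Fin 2099, 2 = 2099 * 2 := by
      rw [Finset.sum_const, Finset.card_univ, Fintype.card_fin, smul_eq_mul]
    have h10 := hf1 _ hcp
    omega
  have hceil : P.G * Real.log p / Real.log T ≤ (ce P.G T p : ℝ) := Nat.le_ceil _
  have h3 : P.G * Real.log p / Real.log T = P.G * yy T p := by
    unfold yy
    ring
  rw [h3] at hceil
  have h4 : (P.G : ℝ) * yy T p ≤ P.G * (1 / 3) := by linarith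
  exact le_of_mul_le_mul_left h4 hG

end Pool.Agent.Helper69.PQ
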