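import Pool.Agent.Helper69.PQ.A0a
import Pool.Agent.Helper69.PQ.A0b
import Pool.Agent.Helper69.PQ.A0c

/-!
# PP-A3b: rough sums of W

# PP-A3: the sums over numerators and denominators
-/

open MeasureTheory Set Filter Topology
open Pool.Agent.Helper57.Zeta Pool.Agent.Helper57.PC Pool.Agent.Helper57.LH Pool.Agent.Helper78.SG
open Pool.Agent.Helper4.SH Pool.Agent.Helper69.PP

namespace Pool.Agent.Helper69.PQ

private theorem A3b_cont (c : ℝ) : Continuous (SBc c) := by
  unfold SBc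
  exact continuous_const.mul (Real.continuous_sinc.comp (by fun_prop))

private theorem A3b_nonneg {c y : ℝ} (hc : 0 ≤ c) (hc1 : c ≤ 1) (hy : 0 ≤ y) (hy1 : y ≤ 1) :
    0 ≤ SBc c y := by
  unfold SBc
  refine mul_nonneg hc ?_
  have hpi := Real.pi_pos
  rcases eq_or_lt_of_le (by positivity : 0 ≤ Real.pi * c * y) with h | h
  · rw [← h]; simp
  · rw [Real.sinc_of_ne_zero h.ne']
    refine div_nonneg (Real.sin_nonneg_of_nonneg_of_le_pi h.le ?_) h.le
    have h1 : c * y ≤ 1 := by nlinarith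
    calc Real.pi * c * y = Real.pi * (c * y) := by ring
      _ ≤ Real.pi * 1 := by gcongr
      _ = Real.pi := mul_one _

private theorem A3b_int {c κ θ a : ℝ} :
    ∫ y in a..θ, 2 * (c - κ * y ^ 2) * (θ - y) =
      c * θ ^ 2 - κ * θ ^ 4 / 6 - (2 * c * θ * a - c * a ^ 2 - 2 * κ * θ * a ^ 3 / 3 + κ * a ^ 4 / 2) := by
  rw [intervalIntegral.integral_eq_sub_of_hasDerivAt
    (f := fun y => 2 * c * θ * y - c * y ^ 2 - 2 * κ * θ * y ^ 3 / 3 + κ * y ^ 4 / 2)]
  · ring
  · intro y _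
    have h1 : HasDerivAt (fun y : ℝ => 2 * c * θ * y) (2 * c * θ) y := by
      simpa using (hasDerivAt_id y).const_mul (2 * c * θ)
    have h2 : HasDerivAt (fun y : ℝ => c * y ^ 2) (c * (2 * y)) y := by
      simpa using (hasDerivAt_pow 2 y).const_mul c
    have h3 : HasDerivAt (fun y : ℝ => 2 * κ * θ * y ^ 3 / 3) (2 * κ * θ * (3 * y ^ 2) / 3) y := by
      simpa using ((hasDerivAt_pow 3 y).const_mul (2 * κ * θ)).div_const 3
    have h4 : HasDerivAt (fun y : ℝ => κ * y ^ 4 / 2) (κ * (4 * y ^ 3) / 2) y := by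
      simpa using ((hasDerivAt_pow 4 y).const_mul κ).div_const 2
    exact (((h1.sub h2).sub h3).add h4).congr_deriv (by ring)
  · exact (by fun_prop : Continuous fun y : ℝ => 2 * (c - κ * y ^ 2) * (θ - y)).intervalIntegrable _ _

/-- rough numbers: `∑ W(n)/n = ∑_{p ≥ N} (2 y_p SB(y_p)/p) RS(T^(θ - y_p)) ≥ v (c θ² - κ θ⁴/6 - 4 ε)` -/
theorem RW_ge (P : Par) {ε : ℝ} (hε : 0 < ε) (hδ : P.δ ≤ ε) (hF : Flat P ε) {θ : ℝ} (hθ : 1 / 10 ≤ θ) (hθ1 : θ ≤ 1 / 2) :
    ∀ᶠ T : ℝ in atTop, vT P T * (P.c * θ ^ 2 - kap P.c * θ ^ 4 / 6 - 4 * ε) ≤ ∑ n ∈ RN (NS P T) (T ^ θ), Wn P.c T n / n := by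
  have hc0 := P.hc
  have hc1 := P.hc1
  have hδ0 := P.hδ
  have hδ1 := P.hδ1
  have hcont := A3b_cont P.c
  have hψ : Continuous (fun y => 2 * SBc P.c y * (θ - y)) := by fun_prop
  filter_upwards [hF, mert hψ hδ0 hε, eventually_gt_atTop 1] with T hT hm hT1
  obtain ⟨hv1, -, hfl⟩ := hT
  have hT0 : 0 < T := by linarith
  have hL : 0 < Real.log T := Real.log_pos hT1
  have hm' := hm P.δ θ le_rfl (by linarith) (by linarith)
  obtain ⟨S, hS⟩ : ∃ S, S = (PP T).filter (fun p => P.δ < yy T p ∧ yy T p ≤ θ) := ⟨_, rfl⟩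
  rw [← hS] at hm'
  obtain ⟨x, hx⟩ : ∃ x, x = T ^ θ := ⟨_, rfl⟩
  rw [← hx]
  have hx0 : 0 < x := by rw [hx]; exact Real.rpow_pos_of_pos hT0 _
  have hyp : ∀ p ∈ S, p.Prime ∧ P.δ < yy T p ∧ yy T p ≤ θ := by
    intro p hp
    rw [hS, Finset.mem_filter, PP, Finset.mem_filter] at hp
    exact ⟨hp.1.2, hp.2⟩
  have hTy : ∀ p : ℕ, 0 < p → T ^ yy T p = p := by
    intro p hp
    have hp0 : (0:ℝ) < p := by exact_mod_cast hp
    rw [Real.rpow_def_of_pos hT0, yy, mul_div_cancel₀ _ hL.ne', Real.exp_log hp0]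
  have hκ0 : 0 ≤ kap P.c := by
    unfold kap
    positivity
  have hκ2 : kap P.c ≤ 2 := by
    unfold kap
    have h1 : Real.pi ^ 2 ≤ 3.15 ^ 2 := by
      have := Real.pi_lt_d2
      have := Real.pi_pos
      gcongr
    have h2 : P.c ^ 3 ≤ 1 := pow_le_one₀ hc0.le hc1.le
    have h3 : 0 ≤ P.c ^ 3 := by positivity
    nlinarith
  have hint : P.c * θ ^ 2 - kap P.c * θ ^ 4 / 6 - 2 * ε ≤ ∫ y in P.δ..θ, 2 * SBc P.c y * (θ - y) := by
    have h1 : ∫ y in P.δ..θ, 2 * (P.c - kap P.c * y ^ 2) * (θ - y) ≤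
        ∫ y in P.δ..θ, 2 * SBc P.c y * (θ - y) := by
      refine intervalIntegral.integral_mono_on (by linarith)
        ((by fun_prop : Continuous fun y : ℝ => 2 * (P.c - kap P.c * y ^ 2) * (θ - y)).intervalIntegrable _ _)
        (hψ.intervalIntegrable _ _) ?_
      intro y hy
      have h2 := SBc_ge hc0.le y
      have h3 : 0 ≤ θ - y := by linarith [hy.2]
      exact mul_le_mul_of_nonneg_right (by linarith) h3
    refine le_trans ?_ h1
    rw [A3b_int]
    have h4 : P.δ ^ 3 ≤ 1 := pow_le_one₀ hδ0.le (by linarith)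
    have h5 : kap P.c * P.δ ^ 4 / 2 ≤ P.δ := by
      have : P.δ ^ 4 ≤ P.δ := by
        calc P.δ ^ 4 = P.δ ^ 3 * P.δ := by ring
          _ ≤ 1 * P.δ := by gcongr
          _ = P.δ := one_mul _
      nlinarith [pow_pos hδ0 4]
    have h6 : 2 * P.c * θ * P.δ ≤ P.δ := by
      have : 2 * P.c * θ ≤ 1 := by nlinarith
      nlinarith
    have h7 : 0 ≤ P.c * P.δ ^ 2 := by positivity
    have h8 : 0 ≤ 2 * kap P.c * θ * P.δ ^ 3 / 3 := by
      have : 0 ≤ θ := by linarith
      positivity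
    linarith
  have h1 : ∀ p ∈ S, (θ - yy T p) * vT P T ≤ RS (NS P T) (x / p) := by
    intro p hp
    obtain ⟨hp1, hp2, hp3⟩ := hyp p hp
    have h2 := (hfl (θ - yy T p) ⟨by linarith, by linarith⟩).1
    rwa [Real.rpow_sub hT0, hTy p hp1.pos, ← hx] at h2
  have hNp : ∀ p ∈ S, NS P T ≤ p := by
    intro p hp
    obtain ⟨hp1, hp2, hp3⟩ := hyp p hp
    unfold NS
    refine Nat.ceil_le.2 ?_
    rw [← hTy p hp1.pos]
    exact Real.rpow_le_rpow_of_exponent_le hT1.le hp2.le
  have hfn : ∀ p : ℕ, 0 ≤ yy T p → yy T p ≤ 1 → 0 ≤ 2 * yy T p * SBc P.c (yy T p) := by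
    intro p h2 h3
    have := A3b_nonneg hc0.le hc1.le h2 h3
    positivity
  have h2 : ∑ p ∈ S, 2 * yy T p * SBc P.c (yy T p) * (1 / p * RS (NS P T) (x / p)) ≤
      ∑ n ∈ RN (NS P T) x, Wn P.c T n / n := by
    calc ∑ p ∈ S, 2 * yy T p * SBc P.c (yy T p) * (1 / p * RS (NS P T) (x / p))
        = ∑ p ∈ S, ∑ n ∈ (RN (NS P T) x).filter (fun n => p ∣ n),
            2 * yy T p * SBc P.c (yy T p) * (1 / (n:ℝ)) := by
          refine Finset.sum_congr rfl fun p hp => ?_
          rw [← RS_mult (hyp p hp).1 (hNp p hp) hx0.le, Finset.mul_sum]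
      _ = ∑ n ∈ RN (NS P T) x, ∑ p ∈ S.filter (fun p => p ∣ n),
            2 * yy T p * SBc P.c (yy T p) * (1 / (n:ℝ)) := by
          simp only [Finset.sum_filter]
          rw [Finset.sum_comm]
      _ ≤ ∑ n ∈ RN (NS P T) x, Wn P.c T n / n := by
          refine Finset.sum_le_sum fun n hn => ?_
          have hn' := mem_RN.1 hn
          have hn0 : (0:ℝ) < n := by
            have : 0 < n := Nat.pos_of_ne_zero hn'.1
            exact_mod_cast this
          rw [Wn, Finset.sum_div]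
          have h3 : ∀ p ∈ S.filter (fun p => p ∣ n),
              2 * yy T p * SBc P.c (yy T p) * (1 / (n:ℝ)) = 2 * yy T p * SBc P.c (yy T p) / n := by
            intro p _
            ring
          rw [Finset.sum_congr rfl h3]
          refine Finset.sum_le_sum_of_subset_of_nonneg ?_ ?_
          · intro p hp
            rw [Finset.mem_filter] at hp
            exact Nat.mem_primeFactors.2 ⟨(hyp p hp.1).1, hp.2, hn'.1⟩
          · intro p hp _
            have hpp := Nat.prime_of_mem_primeFactors hp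
            have hpn : (p:ℝ) ≤ n := by exact_mod_cast Nat.le_of_mem_primeFactors hp
            have hp0 : (0:ℝ) < p := by exact_mod_cast hpp.pos
            have h4 : 0 ≤ yy T p := by
              unfold yy
              exact div_nonneg (Real.log_nonneg (by exact_mod_cast hpp.one_lt.le)) hL.le
            have h5 : yy T p ≤ θ := by
              unfold yy
              rw [div_le_iff₀ hL, ← Real.log_rpow hT0, ← hx]
              exact Real.log_le_log hp0 (hpn.trans hn'.2.1)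
            exact div_nonneg (hfn p h4 (by linarith)) hn0.le
  refine le_trans ?_ h2
  have h3 : vT P T * ∑ p ∈ S, yy T p / p * (2 * SBc P.c (yy T p) * (θ - yy T p)) ≤
      ∑ p ∈ S, 2 * yy T p * SBc P.c (yy T p) * (1 / p * RS (NS P T) (x / p)) := by
    rw [Finset.mul_sum]
    refine Finset.sum_le_sum fun p hp => ?_
    obtain ⟨hp1, hp2, hp3⟩ := hyp p hp
    have h4 := h1 p hp
    have hp0 : (0:ℝ) < p := by exact_mod_cast hp1.pos
    have h5 := hfn p (by linarith) (by linarith)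
    calc vT P T * (yy T p / p * (2 * SBc P.c (yy T p) * (θ - yy T p)))
        = 2 * yy T p * SBc P.c (yy T p) * (1 / p * ((θ - yy T p) * vT P T)) := by ring
      _ ≤ _ := by gcongr
  refine le_trans ?_ h3
  refine mul_le_mul_of_nonneg_left ?_ (by linarith)
  have h6 := (abs_le.1 hm').1
  linarith

end Pool.Agent.Helper69.PQ
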