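import Pool.Agent.Helper69.PQ.A0a
import Pool.Agent.Helper69.PQ.A0c

/-!
# PP-A2a: collisions

# PP-A2: collisions, parameters

Not good: divisible by the square of a prime `≥ N` (`∑_{p ≥ N} 1/p² · RS ≤ (2/N) RS`) or by two distinct primes of one cell
(`∑_l (∑_{p ∈ cell l} 1/p)² RS`; the cells that occur have `l ≥ δ G`; `∑_{p ∈ cell l} 1/p ≤ 2/(l-1)` for `T` large, by `mert_log` with
`a = δ/2`, so the sum is `≤ 8/(δ G)`).
-/

open MeasureTheory Set Filter Topology
open Pool.Agent.Helper57.Zeta Pool.Agent.Helper57.PC Pool.Agent.Helper57.LH Pool.Agent.Helper78.SG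
open Pool.Agent.Helper4.SH Pool.Agent.Helper69.PP

namespace Pool.Agent.Helper69.PQ

/-- union bound -/
private theorem cover59 {ι : Type*} (S R : Finset ℕ) (I : Finset ι) (c : ι → ℕ → Prop)
    [∀ i n, Decidable (c i n)] (hS : S ⊆ R) (hc : ∀ n ∈ S, ∃ i ∈ I, c i n) (f : ℕ → ℝ)
    (hf : ∀ n, 0 ≤ f n) : ∑ n ∈ S, f n ≤ ∑ i ∈ I, ∑ n ∈ R.filter (c i), f n := by
  calc ∑ n ∈ S, f n ≤ ∑ n ∈ S, ∑ i ∈ I, (if c i n then f n else 0) := by
        apply Finset.sum_le_sum
        intro n hn
        obtain ⟨i, hi, hci⟩ := hc n hn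
        have h := Finset.single_le_sum (f := fun i => if c i n then f n else 0)
          (fun i _ => by
            show 0 ≤ (if c i n then f n else 0)
            split_ifs
            exacts [hf n, le_rfl]) hi
        simpa only [hci, if_true] using h
    _ ≤ ∑ n ∈ R, ∑ i ∈ I, (if c i n then f n else 0) := by
        apply Finset.sum_le_sum_of_subset_of_nonneg hS
        intro n _ _
        apply Finset.sum_nonneg
        intro i _
        split_ifs
        exacts [hf n, le_rfl]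
    _ = ∑ i ∈ I, ∑ n ∈ R.filter (c i), f n := by
        rw [Finset.sum_comm]
        apply Finset.sum_congr rfl
        intro i _
        rw [Finset.sum_filter]

/-- multiples of `d` -/
private theorem RS_dvd59 {N d : ℕ} (hd : d ≠ 0) (x : ℝ) :
    ∑ n ∈ (RN N x).filter (fun n => d ∣ n), 1 / (n : ℝ) ≤ 1 / (d : ℝ) * RS N x := by
  classical
  rw [RS, Finset.mul_sum]
  have hdpos : 0 < d := Nat.pos_of_ne_zero hd
  have h1 : ∑ n ∈ (RN N x).filter (fun n => d ∣ n), 1 / (n : ℝ) =
      ∑ n ∈ (RN N x).filter (fun n => d ∣ n), (1 / (d : ℝ)) * (1 / ((n / d : ℕ) : ℝ)) := by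
    apply Finset.sum_congr rfl
    intro n hn
    obtain ⟨-, m, rfl⟩ := Finset.mem_filter.1 hn
    rw [Nat.mul_div_cancel_left m hdpos]
    push_cast
    rw [one_div_mul_one_div]
  have h2 : ∑ n ∈ (RN N x).filter (fun n => d ∣ n), (1 / (d : ℝ)) * (1 / ((n / d : ℕ) : ℝ)) =
      ∑ m ∈ ((RN N x).filter (fun n => d ∣ n)).image (fun n => n / d),
        (1 / (d : ℝ)) * (1 / (m : ℝ)) := by
    rw [Finset.sum_image]
    intro a ha b hb hab
    obtain ⟨-, ma, rfl⟩ := Finset.mem_filter.1 (Finset.mem_coe.1 ha)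
    obtain ⟨-, mb, rfl⟩ := Finset.mem_filter.1 (Finset.mem_coe.1 hb)
    simp only [Nat.mul_div_cancel_left _ hdpos] at hab
    rw [hab]
  rw [h1, h2]
  apply Finset.sum_le_sum_of_subset_of_nonneg
  · intro m hm
    rw [Finset.mem_image] at hm
    obtain ⟨n, hn, rfl⟩ := hm
    obtain ⟨hn1, m, rfl⟩ := Finset.mem_filter.1 hn
    rw [Nat.mul_div_cancel_left m hdpos]
    rw [mem_RN] at hn1 ⊢
    obtain ⟨h3, h4, h5⟩ := hn1
    have hm0 : m ≠ 0 := by
      rintro rfl
      simp at h3
    refine ⟨hm0, ?_, ?_⟩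
    · refine le_trans ?_ h4
      exact_mod_cast Nat.le_mul_of_pos_left m hdpos
    · intro p hp
      exact h5 p (Nat.primeFactors_mono (Dvd.intro_left d rfl) h3 hp)
  · intro _ _ _
    positivity

private theorem RS_nonneg59 (N : ℕ) (x : ℝ) : 0 ≤ RS N x := by
  unfold RS
  apply Finset.sum_nonneg
  intro _ _
  positivity

/-- primes of one cell above the sifting level -/
private noncomputable def CC59 (P : Par) (T : ℝ) (l : ℕ) : Finset ℕ :=
  (PP T).filter (fun p => NS P T ≤ p ∧ ce P.G T p = l)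

private theorem cell_sum59 (P : Par) : ∀ᶠ T : ℝ in atTop, ∀ l : ℕ, l ≤ P.G →
    ∑ p ∈ CC59 P T l, 1 / (p : ℝ) ≤ 3 / (P.δ * P.G) := by
  have hG : (0 : ℝ) < P.G := by exact_mod_cast P.hG0
  have hδ := P.hδ
  have hm := mert_log (a := P.δ / 2) (by linarith) (ε := 1 / (P.δ * P.G)) (by positivity)
  filter_upwards [hm, eventually_gt_atTop 1] with T hT hT1 l hl
  have hlog : 0 < Real.log T := Real.log_pos hT1
  by_cases hne : (CC59 P T l).Nonempty
  swap
  · rw [Finset.not_nonempty_iff_eq_empty.1 hne, Finset.sum_empty]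
    positivity
  have key : ∀ p ∈ CC59 P T l, P.δ ≤ yy T p ∧ (l : ℝ) - 1 < P.G * yy T p ∧ P.G * yy T p ≤ l := by
    intro p hp
    unfold CC59 at hp
    rw [Finset.mem_filter] at hp
    obtain ⟨-, hp1, hp2⟩ := hp
    have h1 : T ^ P.δ ≤ p := by
      have := Nat.le_ceil (T ^ P.δ)
      refine this.trans ?_
      exact_mod_cast hp1
    have hTd : (0 : ℝ) < T ^ P.δ := Real.rpow_pos_of_pos (by linarith) _
    have h2 : P.δ ≤ yy T p := by
      unfold yy
      rw [le_div_iff₀ hlog, ← Real.log_rpow (by linarith)]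
      exact Real.log_le_log hTd h1
    have h3 : P.G * Real.log p / Real.log T = P.G * yy T p := by
      unfold yy
      ring
    unfold ce at hp2
    rw [h3] at hp2
    have hpos : 0 ≤ P.G * yy T p := by
      have : 0 ≤ yy T p := by linarith
      positivity
    refine ⟨h2, ?_, ?_⟩
    · have := Nat.ceil_lt_add_one hpos
      rw [hp2] at this
      linarith
    · have := Nat.le_ceil (P.G * yy T p)
      rwa [hp2] at this
  set u : ℝ := max (((l : ℝ) - 1) / P.G) (P.δ / 2) with hu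
  set u' : ℝ := (l : ℝ) / P.G with hu'
  have hu2 : P.δ / 2 ≤ u := le_max_right _ _
  have hu1 : ((l : ℝ) - 1) / P.G ≤ u := le_max_left _ _
  have hlδ : P.δ ≤ u' := by
    obtain ⟨p, hp⟩ := hne
    obtain ⟨h1, -, h3⟩ := key p hp
    rw [hu', le_div_iff₀ hG]
    nlinarith
  have huu : u ≤ u' := by
    apply max_le
    · rw [hu', div_le_div_iff_of_pos_right hG]
      linarith
    · linarith
  have hu1' : u' ≤ 1 := by
    rw [hu', div_le_one hG]
    exact_mod_cast hl
  have h1 := hT u u' hu2 huu hu1'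
  have h2 : ∑ p ∈ CC59 P T l, 1 / (p : ℝ) ≤
      ∑ p ∈ (PP T).filter (fun p => u < yy T p ∧ yy T p ≤ u'), 1 / (p : ℝ) := by
    apply Finset.sum_le_sum_of_subset_of_nonneg
    · intro p hp
      obtain ⟨h3, h4, h5⟩ := key p hp
      unfold CC59 at hp
      rw [Finset.mem_filter] at hp ⊢
      refine ⟨hp.1, ?_, ?_⟩
      · rw [hu]
        apply max_lt
        · rw [div_lt_iff₀ hG]
          linarith
        · linarith
      · rw [hu', le_div_iff₀ hG]
        linarith
    · intro _ _ _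
      positivity
  have hupos : 0 < u := by linarith
  have hu'pos : 0 < u' := by linarith
  have h3 : Real.log (u' / u) ≤ 2 / (P.δ * P.G) := by
    have h4 := Real.log_le_sub_one_of_pos (div_pos hu'pos hupos)
    refine h4.trans ?_
    have h5 : u' - u ≤ 1 / P.G := by
      have : u' - 1 / P.G = ((l : ℝ) - 1) / P.G := by
        rw [hu']
        ring
      linarith
    have h6 : u' / u - 1 = (u' - u) / u := by
      field_simp
    rw [h6]
    calc (u' - u) / u ≤ (1 / P.G) / (P.δ / 2) := by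
          apply div_le_div₀ (by positivity) h5 (by positivity) hu2
      _ = 2 / (P.δ * P.G) := by
          field_simp
  have h7 := (abs_le.1 h1).2
  have h8 : 2 / (P.δ * P.G) + 1 / (P.δ * P.G) = 3 / (P.δ * P.G) := by ring
  linarith

theorem coll {δ ε : ℝ} (hδ : 0 < δ) (hδ1 : δ ≤ 1 / 100) (hε : 0 < ε) : ∃ G0 : ℕ, ∀ P : Par, P.δ = δ → G0 ≤ P.G →
    Flat P 1 → Coll P ε := by
  classical
  refine ⟨⌈144 / (δ ^ 3 * ε)⌉₊, ?_⟩
  intro P hPδ hG0 hflat
  subst hPδ
  have hG : (0 : ℝ) < P.G := by exact_mod_cast P.hG0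
  have hG1 : (1 : ℝ) ≤ P.G := by exact_mod_cast P.hG0
  have hGbig : 144 / (P.δ ^ 3 * ε) ≤ P.G := by
    refine (Nat.le_ceil _).trans ?_
    exact_mod_cast hG0
  have hN : Tendsto (fun T : ℝ => T ^ P.δ) atTop atTop := tendsto_rpow_atTop hδ
  unfold Coll
  filter_upwards [hflat, cell_sum59 P, eventually_gt_atTop 1,
    hN.eventually_ge_atTop (16 / (P.δ * ε)), hN.eventually_ge_atTop 1] with T hT hcell hT1 hNT hNT1
  obtain ⟨-, hv, hfl⟩ := hT
  obtain ⟨-, hfl1⟩ := hfl 1 ⟨by norm_num, le_rfl⟩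
  rw [Real.rpow_one] at hfl1
  have hlog : 0 < Real.log T := Real.log_pos hT1
  set N := NS P T with hNdef
  have hNle : T ^ P.δ ≤ N := Nat.le_ceil _
  have hNpos : (0 : ℝ) < N := by linarith
  have hN1 : 1 ≤ N := by
    have : (1 : ℝ) ≤ N := by linarith
    exact_mod_cast this
  set R := RS N T with hR
  have hR0 : 0 ≤ R := RS_nonneg59 _ _
  have hR4 : R ≤ 4 / P.δ := by
    have : (1 + 1) * vT P T ≤ (1 + 1) * (2 / P.δ) := by
      apply mul_le_mul_of_nonneg_left hv (by norm_num)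
    calc R ≤ (1 + 1) * vT P T := hfl1
      _ ≤ (1 + 1) * (2 / P.δ) := this
      _ = 4 / P.δ := by ring
  set BS := (RN N T).filter (fun n => ¬ Gd P T n) with hBS
  -- split
  set S1 := BS.filter (fun n => ∃ p : ℕ, p.Prime ∧ p * p ∣ n) with hS1
  set S2 := BS.filter (fun n => ¬ ∃ p : ℕ, p.Prime ∧ p * p ∣ n) with hS2
  have hsplit : ∑ n ∈ BS, 1 / (n : ℝ) = ∑ n ∈ S1, 1 / (n : ℝ) + ∑ n ∈ S2, 1 / (n : ℝ) := by
    rw [hS1, hS2, Finset.sum_filter_add_sum_filter_not]
  have hS1R : S1 ⊆ RN N T := (Finset.filter_subset _ _).trans (Finset.filter_subset _ _)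
  have hS2R : S2 ⊆ RN N T := (Finset.filter_subset _ _).trans (Finset.filter_subset _ _)
  -- first part
  have hb1 : ∑ n ∈ S1, 1 / (n : ℝ) ≤ ε / 2 := by
    have h1 := cover59 S1 (RN N T) (Finset.Ioo (N - 1) (⌊T⌋₊ + 1)) (fun p n => p * p ∣ n) hS1R
      (by
        intro n hn
        obtain ⟨hn1, p, hp, hpn⟩ := Finset.mem_filter.1 hn
        have hn2 := hS1R hn
        rw [mem_RN] at hn2
        obtain ⟨h3, h4, h5⟩ := hn2
        have hpn' : p ∣ n := (Dvd.intro_left p rfl).trans hpn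
        have hNp := h5 p (Nat.mem_primeFactors.2 ⟨hp, hpn', h3⟩)
        have hpT : p ≤ ⌊T⌋₊ := by
          have hpn2 : p ≤ n := Nat.le_of_dvd (Nat.pos_of_ne_zero h3) hpn'
          exact hpn2.trans (Nat.le_floor h4)
        exact ⟨p, Finset.mem_Ioo.2 ⟨by omega, by omega⟩, hpn⟩)
      (fun n => 1 / (n : ℝ)) (fun n => by positivity)
    refine h1.trans ?_
    have h2 : ∑ p ∈ Finset.Ioo (N - 1) (⌊T⌋₊ + 1), ∑ n ∈ (RN N T).filter (fun n => p * p ∣ n), 1 / (n : ℝ)
        ≤ ∑ p ∈ Finset.Ioo (N - 1) (⌊T⌋₊ + 1), ((p : ℝ) ^ 2)⁻¹ * R := by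
      apply Finset.sum_le_sum
      intro p hp
      rw [Finset.mem_Ioo] at hp
      have hp0 : p * p ≠ 0 := by
        have : p ≠ 0 := by omega
        exact mul_ne_zero this this
      have := RS_dvd59 (N := N) hp0 T
      refine this.trans (le_of_eq ?_)
      rw [hR]
      push_cast
      rw [one_div, pow_two]
    refine h2.trans ?_
    rw [← Finset.sum_mul]
    have h3 := sum_Ioo_inv_sq_le (α := ℝ) (N - 1) (⌊T⌋₊ + 1)
    have h4 : ((N - 1 : ℕ) : ℝ) + 1 = N := by
      have : (N - 1) + 1 = N := by omega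
      exact_mod_cast this
    rw [h4] at h3
    calc (∑ i ∈ Finset.Ioo (N - 1) (⌊T⌋₊ + 1), ((i : ℝ) ^ 2)⁻¹) * R ≤ 2 / N * (4 / P.δ) := by
          apply mul_le_mul h3 hR4 hR0 (by positivity)
      _ ≤ ε / 2 := by
          have h5 : 16 / (P.δ * ε) ≤ N := by linarith
          rw [div_le_iff₀ (by positivity)] at h5
          rw [div_mul_div_comm, div_le_div_iff₀ (by positivity) (by positivity)]
          nlinarith
  -- second part
  have hb2 : ∑ n ∈ S2, 1 / (n : ℝ) ≤ ε / 2 := by
    have h1 := cover59 S2 (RN N T)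
      ((Finset.range (P.G + 1)).sigma (fun l => (CC59 P T l) ×ˢ (CC59 P T l)))
      (fun x n => x.2.1 * x.2.2 ∣ n) hS2R
      (by
        intro n hn
        obtain ⟨hn1, hn2⟩ := Finset.mem_filter.1 hn
        obtain ⟨hnR, hnG⟩ := Finset.mem_filter.1 hn1
        have hsq : Squarefree n := by
          rw [Nat.squarefree_iff_prime_squarefree]
          intro p hp hpn
          exact hn2 ⟨p, hp, hpn⟩
        rw [Gd_iff] at hnG
        have hinj : ¬ Set.InjOn (ce P.G T) (n.primeFactors : Set ℕ) := fun h => hnG ⟨hnR, hsq, h⟩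
        rw [mem_RN] at hnR
        obtain ⟨h3, h4, h5⟩ := hnR
        unfold Set.InjOn at hinj
        push Not at hinj
        obtain ⟨p, hp, p', hp', hce, hne⟩ := hinj
        rw [Finset.mem_coe] at hp hp'
        have hpp := Nat.mem_primeFactors.1 hp
        have hpp' := Nat.mem_primeFactors.1 hp'
        have hTle : ∀ r : ℕ, r ∣ n → r ≤ ⌊T⌋₊ := by
          intro r hr
          exact (Nat.le_of_dvd (Nat.pos_of_ne_zero h3) hr).trans (Nat.le_floor h4)
        refine ⟨⟨ce P.G T p, (p, p')⟩, ?_, ?_⟩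
        · rw [Finset.mem_sigma, Finset.mem_product]
          refine ⟨?_, ?_, ?_⟩
          · -- ce ≤ G
            show ce P.G T p ∈ Finset.range (P.G + 1)
            rw [Finset.mem_range, Nat.lt_succ_iff]
            unfold ce
            rw [Nat.ceil_le, div_le_iff₀ hlog]
            apply mul_le_mul_of_nonneg_left _ hG.le
            apply Real.log_le_log
            · exact_mod_cast hpp.1.pos
            · exact (Nat.le_floor_iff (by linarith)).1 (hTle p hpp.2.1)
          · show p ∈ CC59 P T (ce P.G T p)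
            unfold CC59
            rw [Finset.mem_filter]
            refine ⟨?_, h5 p hp, rfl⟩
            unfold PP
            rw [Finset.mem_filter, Finset.mem_range]
            exact ⟨Nat.lt_succ_of_le (hTle p hpp.2.1), hpp.1⟩
          · show p' ∈ CC59 P T (ce P.G T p)
            unfold CC59
            rw [Finset.mem_filter]
            refine ⟨?_, h5 p' hp', hce.symm⟩
            unfold PP
            rw [Finset.mem_filter, Finset.mem_range]
            exact ⟨Nat.lt_succ_of_le (hTle p' hpp'.2.1), hpp'.1⟩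
        · show p * p' ∣ n
          exact Nat.Coprime.mul_dvd_of_dvd_of_dvd ((Nat.coprime_primes hpp.1 hpp'.1).2 hne)
            hpp.2.1 hpp'.2.1)
      (fun n => 1 / (n : ℝ)) (fun n => by positivity)
    refine h1.trans ?_
    rw [Finset.sum_sigma]
    have hCpos : ∀ l, ∀ p ∈ CC59 P T l, p ≠ 0 := by
      intro l p hp
      unfold CC59 at hp
      rw [Finset.mem_filter] at hp
      have := hp.2.1
      omega
    have h2 : ∀ l ∈ Finset.range (P.G + 1),
        ∑ x ∈ (CC59 P T l) ×ˢ (CC59 P T l), ∑ n ∈ (RN N T).filter (fun n => x.1 * x.2 ∣ n), 1 / (n : ℝ)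
        ≤ (3 / (P.δ * P.G)) ^ 2 * R := by
      intro l hl
      rw [Finset.mem_range, Nat.lt_succ_iff] at hl
      have h3 : ∑ x ∈ (CC59 P T l) ×ˢ (CC59 P T l), ∑ n ∈ (RN N T).filter (fun n => x.1 * x.2 ∣ n), 1 / (n : ℝ)
          ≤ ∑ x ∈ (CC59 P T l) ×ˢ (CC59 P T l), (1 / (x.1 : ℝ)) * (1 / (x.2 : ℝ)) * R := by
        apply Finset.sum_le_sum
        intro x hx
        rw [Finset.mem_product] at hx
        have hx0 : x.1 * x.2 ≠ 0 := mul_ne_zero (hCpos l _ hx.1) (hCpos l _ hx.2)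
        have := RS_dvd59 (N := N) hx0 T
        refine this.trans (le_of_eq ?_)
        rw [hR]
        push_cast
        rw [one_div_mul_one_div]
      refine h3.trans ?_
      rw [← Finset.sum_mul, Finset.sum_product]
      have h4 : ∑ x ∈ CC59 P T l, ∑ y ∈ CC59 P T l, (1 / (x : ℝ)) * (1 / (y : ℝ)) =
          (∑ x ∈ CC59 P T l, 1 / (x : ℝ)) ^ 2 := by
        rw [pow_two, Finset.sum_mul_sum]
      rw [h4]
      apply mul_le_mul_of_nonneg_right _ hR0
      apply pow_le_pow_left₀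
      · apply Finset.sum_nonneg
        intro _ _
        positivity
      · exact hcell l hl
    refine (Finset.sum_le_sum h2).trans ?_
    rw [Finset.sum_const, Finset.card_range, nsmul_eq_mul]
    push_cast
    have h5 : ((P.G : ℝ) + 1) ≤ 2 * P.G := by linarith
    have hδ3 : (0 : ℝ) < P.δ ^ 3 := by positivity
    calc ((P.G : ℝ) + 1) * ((3 / (P.δ * P.G)) ^ 2 * R)
        ≤ (2 * P.G) * ((3 / (P.δ * P.G)) ^ 2 * (4 / P.δ)) := by
          apply mul_le_mul h5 _ (by positivity) (by positivity)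
          apply mul_le_mul_of_nonneg_left hR4 (by positivity)
      _ = 72 / (P.δ ^ 3 * P.G) := by
          field_simp
          ring
      _ ≤ ε / 2 := by
          rw [div_le_iff₀ (by positivity)] at hGbig
          rw [div_le_div_iff₀ (by positivity) (by positivity)]
          nlinarith
  calc ∑ n ∈ BS, 1 / (n : ℝ) = ∑ n ∈ S1, 1 / (n : ℝ) + ∑ n ∈ S2, 1 / (n : ℝ) := hsplit
    _ ≤ ε := by linarith

end Pool.Agent.Helper69.PQ
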