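import Pool.Agent.Helper69.PQ.A2a
import Pool.Agent.Helper69.PQ.A1c

/-!
# PP-A2b: parameters

# PP-A2: collisions, parameters

Not good: divisible by the square of a prime `≥ N` (`∑_{p ≥ N} 1/p² · RS ≤ (2/N) RS`) or by two distinct primes of one cell
(`∑_l (∑_{p ∈ cell l} 1/p)² RS`; the cells that occur have `l ≥ δ G`; `∑_{p ∈ cell l} 1/p ≤ 2/(l-1)` for `T` large, by `mert_log` with
`a = δ/2`, so the sum is `≤ 8/(δ G)`).
-/

open MeasureTheory Set Filter Topology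
open Pool.Agent.Helper57.Zeta Pool.Agent.Helper57.PC Pool.Agent.Helper57.LH Pool.Agent.Helper78.SG
open Pool.Agent.Helper4.SH Pool.Agent.Helper69.PP

namespace Pool.Agent.Helper69.PQ

/-- the parameters -/
theorem exists_par {c ε : ℝ} (hc : 0 < c) (hc1 : c < 1) (hε : 0 < ε) (hε1 : ε ≤ 1) : ∃ P : Par, P.c = c ∧ P.e = 1 / 100000 ∧ P.δ ≤ ε ∧
    Flat P ε ∧ Coll P ε := by
  obtain ⟨δ0, hδ0, hf0⟩ := flat hε
  obtain ⟨δ1, hδ1, hf1⟩ := flat (ε := 1) one_pos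
  obtain ⟨δ, hδ⟩ : ∃ δ : ℝ, δ = min (min δ0 δ1) (min ε (1 / 100)) := ⟨_, rfl⟩
  have hδpos : 0 < δ := by
    rw [hδ]
    exact lt_min (lt_min hδ0 hδ1) (lt_min hε (by norm_num))
  have hδδ0 : δ ≤ δ0 := by
    rw [hδ]
    exact (min_le_left _ _).trans (min_le_left _ _)
  have hδδ1 : δ ≤ δ1 := by
    rw [hδ]
    exact (min_le_left _ _).trans (min_le_right _ _)
  have hδε : δ ≤ ε := by
    rw [hδ]
    exact (min_le_right _ _).trans (min_le_left _ _)
  have hδ100 : δ ≤ 1 / 100 := by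
    rw [hδ]
    exact (min_le_right _ _).trans (min_le_right _ _)
  obtain ⟨G0, hG0⟩ := coll hδpos hδ100 hε
  obtain ⟨G, hG⟩ : ∃ G : ℕ, G = G0 + (2 * ⌈1 / δ⌉₊ + 2) * 200000 := ⟨_, rfl⟩
  have hGpos : 0 < G := by
    rw [hG]
    positivity
  have hGe : (2 * (⌈1 / δ⌉₊ : ℝ) + 2) / G ≤ (1 / 100000) / 2 := by
    rw [div_le_iff₀ (by exact_mod_cast hGpos), hG]
    push_cast
    have h1 : (0 : ℝ) ≤ G0 := Nat.cast_nonneg _
    linarith
  let P : Par :=
    { c := c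
      δ := δ
      e := 1 / 100000
      G := G
      hc := hc
      hc1 := hc1
      hδ := hδpos
      hδ1 := hδ100
      he := by norm_num
      he1 := by norm_num
      hG0 := hGpos
      hG := hGe }
  refine ⟨P, rfl, rfl, hδε, hf0 P hδδ0, hG0 P rfl ?_ (hf1 P hδδ1)⟩
  show G0 ≤ G
  omega

end Pool.Agent.Helper69.PQ
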