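import Pool.Agent.Helper69.PQ.A2c
import Pool.Agent.Helper69.PQ.A3a

/-!
# PP-A5a: reduction

# PP-A5: the arithmetic inequality

`BT - μ AT = ∑_{IX} (W(m) + W(n) - μ)/(mn) ≥ ∑_{NA × NB} - 5 · (not coprime)`, and
`∑_{NA × NB} = S_B ∑_{NA} W/m + S_A ∑_{NB} W/n - μ S_A S_B ≥ S_A ∑_{NB} (W - λ)/n`, `λ = μ - w_A`, `∑_{NA} W/m ≥ w_A S_A` (`sumA`).
-/

open MeasureTheory Set Filter Topology
open Pool.Agent.Helper57.Zeta Pool.Agent.Helper57.PC Pool.Agent.Helper57.LH Pool.Agent.Helper78.SG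
open Pool.Agent.Helper4.SH Pool.Agent.Helper69.PP

namespace Pool.Agent.Helper69.PQ

/-- reduction to the sum over the denominators -/
theorem reduce (P : Par) {mu wA rho : ℝ} (hmu : |mu| ≤ 1) (hrho : 0 < rho) (hwA : 0 ≤ wA) (hwA1 : wA ≤ 1)
    (hA : ∀ᶠ T : ℝ in atTop, 1 ≤ ∑ m ∈ NA P T, 1 / (m : ℝ) ∧ wA * (∑ m ∈ NA P T, 1 / (m : ℝ)) ≤ ∑ m ∈ NA P T, Wn P.c T m / m)
    (hB : ∀ᶠ T : ℝ in atTop, rho ≤ ∑ n ∈ NB P T, (Wn P.c T n - (mu - wA)) / n) :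
    ∀ᶠ T : ℝ in atTop, mu * AT P T ≤ BT P T := by
  have hε : 0 < rho / 5 := by positivity
  filter_upwards [hA, hB, noncop P hε, eventually_gt_atTop (1 : ℝ)] with T hAT hBT hnc hT
  obtain ⟨hA1, hA2⟩ := hAT
  set SA : ℝ := ∑ m ∈ NA P T, 1 / (m : ℝ) with hSA
  set SB : ℝ := ∑ n ∈ NB P T, 1 / (n : ℝ) with hSB
  set g : ℕ × ℕ → ℝ := fun x => (Wn P.c T x.1 + Wn P.c T x.2 - mu) * (1 / ((x.1 : ℝ) * x.2)) with hg
  have hSB0 : 0 ≤ SB := Finset.sum_nonneg (fun n _ => by positivity)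
  -- splitting
  have hsplit : ∑ x ∈ (NA P T) ×ˢ (NB P T), g x
      = ∑ x ∈ IX P T, g x + ∑ x ∈ ((NA P T) ×ˢ (NB P T)).filter (fun x => ¬ Nat.Coprime x.1 x.2), g x := by
    unfold IX
    rw [Finset.sum_filter_add_sum_filter_not]
  have hIX : ∑ x ∈ IX P T, g x = BT P T - mu * AT P T := by
    unfold BT AT
    rw [Finset.mul_sum, ← Finset.sum_sub_distrib]
    refine Finset.sum_congr rfl (fun x _ => ?_)
    simp only [hg]
    ring
  -- the pairs that are not coprime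
  have hW : ∀ x ∈ ((NA P T) ×ˢ (NB P T)).filter (fun x => ¬ Nat.Coprime x.1 x.2), g x ≤ 5 * (1 / ((x.1 : ℝ) * x.2)) := by
    intro x hx
    rw [Finset.mem_filter, Finset.mem_product] at hx
    obtain ⟨⟨h1, h2⟩, _⟩ := hx
    rw [mem_NA] at h1
    rw [mem_NB] at h2
    have hw1 := abs_le.1 (Wn_le P.hc.le P.hc1.le hT h1.1.1.1 h1.1.2.2.2)
    have hw2 := abs_le.1 (Wn_le P.hc.le P.hc1.le hT h2.1.1.1 h2.1.2.2.2)
    have hm := abs_le.1 hmu
    have hpos : 0 ≤ 1 / ((x.1 : ℝ) * x.2) := by positivity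
    simp only [hg]
    exact mul_le_mul_of_nonneg_right (by linarith [hw1.2, hw2.2, hm.1]) hpos
  have hncs : ∑ x ∈ ((NA P T) ×ˢ (NB P T)).filter (fun x => ¬ Nat.Coprime x.1 x.2), g x ≤ rho := by
    calc ∑ x ∈ ((NA P T) ×ˢ (NB P T)).filter (fun x => ¬ Nat.Coprime x.1 x.2), g x
        ≤ ∑ x ∈ ((NA P T) ×ˢ (NB P T)).filter (fun x => ¬ Nat.Coprime x.1 x.2), 5 * (1 / ((x.1 : ℝ) * x.2)) :=
          Finset.sum_le_sum hW
      _ = 5 * ∑ x ∈ ((NA P T) ×ˢ (NB P T)).filter (fun x => ¬ Nat.Coprime x.1 x.2), 1 / ((x.1 : ℝ) * x.2) := by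
          rw [Finset.mul_sum]
      _ ≤ 5 * (rho / 5) := by
          exact mul_le_mul_of_nonneg_left hnc (by norm_num)
      _ = rho := by ring
  -- the full product
  have hprod : ∑ x ∈ (NA P T) ×ˢ (NB P T), g x
      = SB * (∑ m ∈ NA P T, Wn P.c T m / m - wA * SA) + SA * ∑ n ∈ NB P T, (Wn P.c T n - (mu - wA)) / n := by
    rw [Finset.sum_product]
    have e1 : ∀ m ∈ NA P T, ∑ n ∈ NB P T, g (m, n)
        = (Wn P.c T m / m - wA * (1 / (m : ℝ))) * SB + (1 / (m : ℝ)) * ∑ n ∈ NB P T, (Wn P.c T n - (mu - wA)) / n := by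
      intro m _
      rw [hSB, Finset.mul_sum, Finset.mul_sum, ← Finset.sum_add_distrib]
      refine Finset.sum_congr rfl (fun n _ => ?_)
      simp only [hg]
      rw [one_div, one_div, mul_inv, one_div]
      ring
    rw [Finset.sum_congr rfl e1, Finset.sum_add_distrib, ← Finset.sum_mul, ← Finset.sum_mul, Finset.sum_sub_distrib,
      ← Finset.mul_sum, ← hSA]
    ring
  have hfin : rho ≤ ∑ x ∈ (NA P T) ×ˢ (NB P T), g x := by
    rw [hprod]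
    have t1 : 0 ≤ SB * (∑ m ∈ NA P T, Wn P.c T m / m - wA * SA) := mul_nonneg hSB0 (by linarith)
    have t2 : rho ≤ SA * ∑ n ∈ NB P T, (Wn P.c T n - (mu - wA)) / n := by
      calc rho = 1 * rho := (one_mul _).symm
        _ ≤ SA * ∑ n ∈ NB P T, (Wn P.c T n - (mu - wA)) / n :=
          mul_le_mul hA1 hBT hrho.le (by linarith)
    linarith
  rw [hsplit, hIX] at hfin
  linarith

theorem AT_one_le (P : Par) : ∀ᶠ T : ℝ in atTop, 1 ≤ AT P T := by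
  filter_upwards [eventually_gt_atTop (1 : ℝ)] with T hT
  have hmem : ((1, 1) : ℕ × ℕ) ∈ IX P T := by
    rw [mem_IX]
    exact ⟨one_mem_NA P hT, one_mem_NB P hT, Nat.coprime_one_left 1⟩
  have h := Finset.single_le_sum (s := IX P T) (f := fun x : ℕ × ℕ => 1 / ((x.1 : ℝ) * x.2))
    (fun x _ => by positivity) hmem
  unfold AT
  simpa using h

end Pool.Agent.Helper69.PQ
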