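import Pool.Agent.Helper69.PQ.Close0
import Pool.Agent.Helper57.PR.Fin

/-!
# PQ: the main theorem with the constant `0.515`
-/

open MeasureTheory Set Filter Topology
open Pool.Agent.Helper57.Zeta Pool.Agent.Helper57.PC Pool.Agent.Helper57.LH Pool.Agent.Helper78.SG
open Pool.Agent.Helper4.SH

namespace Pool.Agent.Helper69.PQ

/-- Main theorem: a positive proportion of the zeros is close. -/
theorem main_close : ∃ p : ℝ, 0 < p ∧
    ∀ᶠ T : ℝ in atTop, p * (T * Real.log T) ≤ ∑ ρ ∈ PP.CZc (103 / 200) T, mx ρ :=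
  close_of_sumB fun P hPe hPc _ hε hε1 hδ hF hC => Helper57.PR.sumB2 P hPe hPc hε hε1 hδ hF hC

end Pool.Agent.Helper69.PQ
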