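import Pool.Agent.Helper69.PQ.Main
import Pool.Agent.Helper69.PQ.A2b
import Pool.Agent.Helper57.PR.NumA

/-!
# PQ: a positive proportion of the zeros is close, `c = 103/200`, from the sum over the denominators
-/

open MeasureTheory Set Filter Topology
open Pool.Agent.Helper57.Zeta Pool.Agent.Helper57.PC Pool.Agent.Helper57.LH Pool.Agent.Helper78.SG
open Pool.Agent.Helper4.SH

namespace Pool.Agent.Helper69.PQ

/-- the sum over the denominators -/
def SumB : Prop := ∀ (P : PQ.Par), P.e = 1 / 100000 → P.c = 103 / 200 → ∀ {ε : ℝ}, 0 < ε → ε ≤ 1 / 10 ^ 20 → P.δ ≤ ε →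
  Flat P ε → Coll P ε → ∀ᶠ T : ℝ in atTop, 1 / 10 ^ 5 ≤ ∑ n ∈ NB P T, (PP.Wn P.c T n - 232142 / 1000000) / n

/-- a positive proportion of the zeros is close -/
theorem close_of_sumB (hB : SumB) : ∃ p : ℝ, 0 < p ∧
    ∀ᶠ T : ℝ in atTop, p * (T * Real.log T) ≤ ∑ ρ ∈ PP.CZc (103 / 200) T, mx ρ := by
  obtain ⟨ε, hε⟩ : ∃ ε : ℝ, ε = 1 / 10 ^ 20 := ⟨_, rfl⟩
  have hε0 : 0 < ε := by rw [hε]; norm_num
  obtain ⟨P, hPc, hPe, hPδ, hF, hC⟩ := exists_par (c := 103 / 200) (ε := ε) (by norm_num) (by norm_num) hε0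
    (by rw [hε]; norm_num)
  have hA := Helper57.PR.sumA2 P hPe hPc hε0 (by rw [hε]; norm_num) hPδ hF hC
  have hS := hB P hPe hPc hε0 (by rw [hε]) hPδ hF hC
  have h := reduce P (mu := 485001 / 1000000) (wA := 252859 / 1000000) (rho := 1 / 10 ^ 5)
    (by rw [abs_le]; constructor <;> norm_num) (by norm_num) (by norm_num) (by norm_num) hA (by
      filter_upwards [hS] with T hT
      refine hT.trans (le_of_eq (Finset.sum_congr rfl fun n _ => ?_))
      norm_num)
  have h2 := main_par P (ε0 := 1 / 1000000) (by norm_num) (by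
    filter_upwards [h] with T hT
    refine le_trans (le_of_eq ?_) hT
    rw [hPc]
    norm_num)
  rwa [hPc] at h2

end Pool.Agent.Helper69.PQ
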