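import Pool.Agent.Helper69.PP.Defs

/-!
# PQ: a positive proportion of small gaps (constant `0.5153`), unconditional (MP_8958e8). Definitions.

As in `Pool.Agent.Helper69.PP` (README: /team-store/h69_PP_README.md), but the denominators are the good numbers such that 4200 copies of each
of their prime factors can be put into 2099 bins of size `1 - e` (multi-copy types, helper57). The notions that do not depend on the
parameters are those of `Pool.Agent.Helper69.PP`.
-/

open MeasureTheory Set Filter Topology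
open Pool.Agent.Helper57.Zeta Pool.Agent.Helper57.PC Pool.Agent.Helper57.LH Pool.Agent.Helper78.SG
open Pool.Agent.Helper4.SH Pool.Agent.Helper69.PP
open scoped ContDiff

namespace Pool.Agent.Helper69.PQ

/-! ### Parameters -/

/-- `c`: window; `δ`: sifting level `T^δ`; `e`: slack; `G`: number of cells. -/
structure Par where
  /-- window -/
  c : ℝ
  /-- sifting level -/
  δ : ℝ
  /-- slack -/
  e : ℝ
  /-- number of cells -/
  G : ℕ
  hc : 0 < c
  hc1 : c < 1
  hδ : 0 < δ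
  hδ1 : δ ≤ 1 / 100
  he : 0 < e
  he1 : e ≤ 1 / 10000
  hG0 : 0 < G
  hG : (2 * (⌈1 / δ⌉₊ : ℝ) + 2) / G ≤ e / 2

/-- bound for the number of prime factors `≥ T^δ` of a number `≤ T` -/
noncomputable def Par.K (P : Par) : ℕ := ⌈1 / P.δ⌉₊

/-! ### Cells and types -/

/-- good numbers: `≤ T`, squarefree, prime factors `≥ T^δ` and in distinct cells -/
def Gd (P : Par) (T : ℝ) (n : ℕ) : Prop :=
  RF P.δ T n ∧ Squarefree n ∧ Set.InjOn (ce P.G T) (n.primeFactors : Set ℕ) ∧ (n : ℝ) ≤ T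

/-- types of the numerators: size at most `1/2 - e` -/
def TA (P : Par) (τ : Finset ℕ) : Prop := (US τ : ℝ) ≤ (1 / 2 - P.e) * P.G

/-- types of the denominators: 4200 copies of the type fit into 2099 bins of size `1 - e` -/
def TB (P : Par) (τ : Finset ℕ) : Prop :=
  ∃ f : Fin 2099 → ℕ → ℕ, (∀ l ∈ τ, 4200 ≤ ∑ j, f j l) ∧ ∀ j, ((∑ l ∈ τ, f j l * l : ℕ) : ℝ) ≤ (1 - P.e) * P.G

open Classical in
/-- numerators -/
noncomputable def NA (P : Par) (T : ℝ) : Finset ℕ :=
  (Finset.range (⌊T⌋₊ + 1)).filter (fun n => Gd P T n ∧ TA P (ty P.G T n))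

open Classical in
/-- denominators -/
noncomputable def NB (P : Par) (T : ℝ) : Finset ℕ :=
  (Finset.range (⌊T⌋₊ + 1)).filter (fun n => Gd P T n ∧ TB P (ty P.G T n))

/-- the index set: coprime pairs -/
noncomputable def IX (P : Par) (T : ℝ) : Finset (ℕ × ℕ) :=
  ((NA P T) ×ˢ (NB P T)).filter (fun x => Nat.Coprime x.1 x.2)

/-! ### The weight -/

/-- net size of a pair (in cells) -/
noncomputable def vv (P : Par) (T : ℝ) (x : ℕ × ℕ) : ℤ := (US (ty P.G T x.1) : ℤ) - US (ty P.G T x.2)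

/-- the class of a pair of pairs -/
noncomputable def dk (P : Par) (T : ℝ) (x y : ℕ × ℕ) : ℕ := (vv P T x - vv P T y).natAbs

/-- the class numbers that occur -/
noncomputable def KR (P : Par) : Finset ℕ := Finset.range (⌊(4199 / 4200 : ℝ) * P.G⌋₊ + 1)

/-- the weight `|M|²` -/
noncomputable def FF (P : Par) (T t : ℝ) : ℝ :=
  ∑ x ∈ IX P T, ∑ y ∈ IX P T, cfn x * cfn y * Real.cos (t * (phn x - phn y))

/-- the part of `|M|²` of class `k` -/
noncomputable def FK (P : Par) (k : ℕ) (T t : ℝ) : ℝ :=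
  ∑ x ∈ IX P T, ∑ y ∈ IX P T, if dk P T x y = k then cfn x * cfn y * Real.cos (t * (phn x - phn y)) else 0

/-- the mean value of `|M|²` -/
noncomputable def AT (P : Par) (T : ℝ) : ℝ := ∑ x ∈ IX P T, 1 / ((x.1 : ℝ) * x.2)

/-- minus the mean value of `|M|²` times the prime sum -/
noncomputable def BT (P : Par) (T : ℝ) : ℝ := ∑ x ∈ IX P T, 1 / ((x.1 : ℝ) * x.2) * (Wn P.c T x.1 + Wn P.c T x.2)

/-- the kernel of class `k` (scale `s = 2`): equal to the Fourier transform of the window on the frequencies of class `k` -/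
def KF (P : Par) (k : ℕ) (f : TF) : Prop :=
  (∀ y : ℝ, |y| ≤ (k + 2 * P.K) / P.G / 2 → f.h y = SBc P.c (2 * y)) ∧ f.th ≤ ((k + 2 * P.K) / P.G + P.e / 4) / 2

/-! ### Cell polynomials -/

open Classical in
/-- the primes of the cell `l` -/
noncomputable def PC (P : Par) (l : ℕ) (T : ℝ) : Finset ℕ :=
  (PP T).filter (fun p => T ^ P.δ ≤ (p : ℝ) ∧ ce P.G T p = l)

/-- the cell polynomial `∑_{p ∈ cell l} p^(-1/2+it)` -/
noncomputable def Pl (P : Par) (l : ℕ) (T t : ℝ) : ℂ := DP (PC P l T) (fun p => 1 / Real.sqrt p) t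

/-- `1 + |P_l|` -/
noncomputable def Rl (P : Par) (T t : ℝ) (l : ℕ) : ℝ := 1 + ‖Pl P l T t‖

/-- `∑_{p ∈ cell l} 1/p` -/
noncomputable def Wl (P : Par) (l : ℕ) (T : ℝ) : ℝ := ∑ p ∈ PC P l T, 1 / (p : ℝ)

end Pool.Agent.Helper69.PQ
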