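import Pool.Agent.Helper69.PQ.E0
import Pool.Agent.Helper69.PQ.E2
import Pool.Agent.Helper69.PQ.E3
import Pool.Agent.Helper69.PQ.W1
import Pool.Agent.Helper4.SH.PPow

/-!
# PP-E4: mean of FK pss

# PP-E: mean values

`mean_FF`: `gmv` (`Helper4/SH/GMV`) with index set `IX × IX`, `a = x.1 * y.2`, `b = x.2 * y.1 ≤ T^(4199/4200)`, `δ = 1/4200`; the diagonal
`x.1 y.2 = x.2 y.1` with both pairs coprime is `x = y`.
-/

open MeasureTheory Set Filter Topology
open Pool.Agent.Helper57.Zeta Pool.Agent.Helper57.PC Pool.Agent.Helper57.LH Pool.Agent.Helper78.SG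
open Pool.Agent.Helper4.SH Pool.Agent.Helper69.PP

namespace Pool.Agent.Helper69.PQ

open scoped ArithmeticFunction.vonMangoldt

/-- the coefficients of `|M|²`, class `k` -/
private noncomputable def e4e (P : Par) (k : ℕ) (T : ℝ) (x y : ℕ × ℕ) : ℝ :=
  if dk P T x y = k then cfn x * cfn y else 0

private theorem e4e_symm (P : Par) (k : ℕ) (T : ℝ) (x y : ℕ × ℕ) : e4e P k T x y = e4e P k T y x := by
  have h : dk P T x y = dk P T y x := by
    unfold dk
    rw [← Int.natAbs_neg, neg_sub]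
  unfold e4e
  rw [h, mul_comm]

private theorem e4e_abs (P : Par) (k : ℕ) (T : ℝ) (x y : ℕ × ℕ) :
    |e4e P k T x y| ≤ |cfn x| * |cfn y| := by
  unfold e4e
  split_ifs
  · rw [abs_mul]
  · rw [abs_zero]
    positivity

private theorem e4_sin (P : Par) (k : ℕ) (T t : ℝ) :
    ∑ x ∈ IX P T, ∑ y ∈ IX P T, e4e P k T x y * Real.sin (t * (phn x - phn y)) = 0 := by
  have h : ∑ x ∈ IX P T, ∑ y ∈ IX P T, e4e P k T x y * Real.sin (t * (phn x - phn y)) =
      -∑ x ∈ IX P T, ∑ y ∈ IX P T, e4e P k T x y * Real.sin (t * (phn x - phn y)) := by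
    conv_lhs => rw [Finset.sum_comm]
    rw [← Finset.sum_neg_distrib]
    refine Finset.sum_congr rfl fun x _ => ?_
    rw [← Finset.sum_neg_distrib]
    refine Finset.sum_congr rfl fun y _ => ?_
    rw [e4e_symm P k T y x, show t * (phn y - phn x) = -(t * (phn x - phn y)) by ring, Real.sin_neg]
    ring
  linarith

/-- the positive integers up to `T` -/
private noncomputable def RN (T : ℝ) : Finset ℕ := Finset.Icc 1 ⌊T⌋₊

private noncomputable def ck (P : Par) (k : ℕ) (f : TF) (T : ℝ) (i : ((ℕ × ℕ) × (ℕ × ℕ)) × ℕ) : ℝ :=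
  e4e P k T i.1.1 i.1.2 * cc71 f.h 2 T i.2

private def ai (i : ((ℕ × ℕ) × (ℕ × ℕ)) × ℕ) : ℕ := i.1.1.1 * i.1.2.2 * i.2

private def bi (i : ((ℕ × ℕ) × (ℕ × ℕ)) × ℕ) : ℕ := i.1.1.2 * i.1.2.1

private theorem RN_range (T : ℝ) (F : ℕ → ℝ) (h0 : F 0 = 0) :
    ∑ n ∈ Finset.range (⌊T⌋₊ + 1), F n = ∑ n ∈ RN T, F n := by
  symm
  refine Finset.sum_subset ?_ ?_
  · intro n hn
    have := Finset.mem_Icc.1 hn
    exact Finset.mem_range.2 (by omega)
  · intro n hn hn2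
    have h1 := Finset.mem_range.1 hn
    have h2 : n = 0 := by
      by_contra h
      exact hn2 (Finset.mem_Icc.2 ⟨by omega, by omega⟩)
    rw [h2, h0]

private theorem FKpss (P : Par) (k : ℕ) (f : TF) {T : ℝ} (hT : 1 < T) (t : ℝ) :
    FK P k T t * pss f.h 2 T t = ∑ i ∈ (IX P T ×ˢ IX P T) ×ˢ RN T,
      ck P k f T i * Real.cos (t * (Real.log (ai i) - Real.log (bi i))) := by
  have hpss : pss f.h 2 T t = ∑ n ∈ RN T, cc71 f.h 2 T n * Real.cos (Real.log n * t) := by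
    rw [pss_eq71 f (Or.inr rfl) hT t]
    exact RN_range T _ (by simp [cc71])
  have hFK : FK P k T t = ∑ x ∈ IX P T, ∑ y ∈ IX P T, e4e P k T x y * Real.cos (t * (phn x - phn y)) := by
    unfold FK e4e
    refine Finset.sum_congr rfl fun x _ => Finset.sum_congr rfl fun y _ => ?_
    split_ifs
    · rfl
    · rw [zero_mul]
  rw [hpss, Finset.mul_sum, Finset.sum_product_right]
  refine Finset.sum_congr rfl fun n hn => ?_
  rw [Finset.sum_product]
  have hn0 : (n : ℝ) ≠ 0 := by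
    have := (Finset.mem_Icc.1 hn).1
    exact_mod_cast (by omega : n ≠ 0)
  have e1 : ∑ x ∈ IX P T, ∑ y ∈ IX P T,
      ck P k f T ((x, y), n) * Real.cos (t * (Real.log (ai ((x, y), n)) - Real.log (bi ((x, y), n)))) =
      ∑ x ∈ IX P T, ∑ y ∈ IX P T, (cc71 f.h 2 T n * Real.cos (Real.log n * t) *
          (e4e P k T x y * Real.cos (t * (phn x - phn y))) -
        cc71 f.h 2 T n * Real.sin (Real.log n * t) *
          (e4e P k T x y * Real.sin (t * (phn x - phn y)))) := by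
    refine Finset.sum_congr rfl fun x hx => Finset.sum_congr rfl fun y hy => ?_
    obtain ⟨hx1, hx2⟩ := IX_ne hx
    obtain ⟨hy1, hy2⟩ := IX_ne hy
    have hx1' : (x.1 : ℝ) ≠ 0 := by exact_mod_cast hx1
    have hx2' : (x.2 : ℝ) ≠ 0 := by exact_mod_cast hx2
    have hy1' : (y.1 : ℝ) ≠ 0 := by exact_mod_cast hy1
    have hy2' : (y.2 : ℝ) ≠ 0 := by exact_mod_cast hy2
    simp only [ck, ai, bi, Nat.cast_mul]
    rw [Real.log_mul (mul_ne_zero hx1' hy2') hn0, Real.log_mul hx1' hy2', Real.log_mul hx2' hy1']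
    have e2 : t * (Real.log x.1 + Real.log y.2 + Real.log n - (Real.log x.2 + Real.log y.1)) =
        t * (phn x - phn y) + Real.log n * t := by
      unfold phn
      ring
    rw [e2, Real.cos_add]
    ring
  rw [e1]
  simp only [Finset.sum_sub_distrib, ← Finset.mul_sum]
  rw [e4_sin, mul_zero, sub_zero, hFK]
  ring

private theorem min_cond (P : Par) {T : ℝ} (hT : 1 < T) : ∀ i ∈ (IX P T ×ˢ IX P T) ×ˢ RN T,
    1 ≤ ai i ∧ 1 ≤ bi i ∧ ((min (ai i) (bi i) : ℕ) : ℝ) ≤ T ^ ((1 : ℝ) - 1 / 4200) := by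
  have hT0 : 0 < T := by linarith
  rintro ⟨⟨x, y⟩, n⟩ hi
  rw [Finset.mem_product, Finset.mem_product] at hi
  obtain ⟨⟨hx, hy⟩, hn⟩ := hi
  obtain ⟨hx1, hx2⟩ := IX_ne hx
  obtain ⟨hy1, hy2⟩ := IX_ne hy
  have hn1 := (Finset.mem_Icc.1 hn).1
  refine ⟨?_, ?_, ?_⟩
  · exact Nat.one_le_iff_ne_zero.2 (mul_ne_zero (mul_ne_zero hx1 hy2) (by omega))
  · exact Nat.one_le_iff_ne_zero.2 (mul_ne_zero hx2 hy1)
  · have h1 : ((min (ai ((x, y), n)) (bi ((x, y), n)) : ℕ) : ℝ) ≤ bi ((x, y), n) := by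
      exact_mod_cast min_le_right _ _
    refine h1.trans ?_
    simp only [bi, Nat.cast_mul]
    have h2 := NB_le hT (mem_IX.1 hx).2.1
    have h3 := NA_le hT (mem_IX.1 hy).1
    calc (x.2 : ℝ) * y.1 ≤ T ^ ((2099 : ℝ) / 4200) * T ^ ((1 : ℝ) / 2) :=
          mul_le_mul h2 h3 (Nat.cast_nonneg _) (Real.rpow_nonneg hT0.le _)
      _ = T ^ ((1 : ℝ) - 1 / 4200) := by
          rw [← Real.rpow_add hT0]
          norm_num

private theorem sum_abs_le (P : Par) (k : ℕ) {f : TF} {M T : ℝ} (hM : 0 < M) (hf : ∀ y, |f.h y| ≤ M)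
    (hT : 1 < T) (hs : ∑ x ∈ IX P T, |cfn x| ≤ 4 * T ^ ((4199 : ℝ) / 8400)) :
    ∑ i ∈ (IX P T ×ˢ IX P T) ×ˢ RN T, |ck P k f T i| ≤ 32 * M * (T ^ ((4199 : ℝ) / 4200) * T) := by
  have hT0 : 0 < T := by linarith
  have h1 : ∑ n ∈ RN T, |cc71 f.h 2 T n| ≤ 2 * M * T := by
    have h2 : ∀ n ∈ RN T, |cc71 f.h 2 T n| ≤ 2 * M := by
      intro n hn
      have h3 := Finset.mem_Icc.1 hn
      exact cc_bd71 hf hT (Finset.mem_range.2 (by omega)) h3.1
    have h4 : ((RN T).card : ℝ) ≤ T := by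
      rw [RN, Nat.card_Icc, Nat.add_sub_cancel]
      exact Nat.floor_le hT0.le
    calc ∑ n ∈ RN T, |cc71 f.h 2 T n| ≤ ∑ _n ∈ RN T, 2 * M := Finset.sum_le_sum h2
      _ = (RN T).card * (2 * M) := by rw [Finset.sum_const, nsmul_eq_mul]
      _ ≤ T * (2 * M) := mul_le_mul_of_nonneg_right h4 (by positivity)
      _ = 2 * M * T := by ring
  have h0 : 0 ≤ ∑ x ∈ IX P T, |cfn x| := Finset.sum_nonneg fun _ _ => abs_nonneg _
  have h0' : 0 ≤ ∑ n ∈ RN T, |cc71 f.h 2 T n| := Finset.sum_nonneg fun _ _ => abs_nonneg _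
  have h3 : ∑ x ∈ IX P T, ∑ y ∈ IX P T, |e4e P k T x y| ≤ 16 * T ^ ((4199 : ℝ) / 4200) := by
    calc ∑ x ∈ IX P T, ∑ y ∈ IX P T, |e4e P k T x y|
        ≤ ∑ x ∈ IX P T, ∑ y ∈ IX P T, |cfn x| * |cfn y| :=
          Finset.sum_le_sum fun x _ => Finset.sum_le_sum fun y _ => e4e_abs P k T x y
      _ = (∑ x ∈ IX P T, |cfn x|) * (∑ y ∈ IX P T, |cfn y|) := (Finset.sum_mul_sum _ _ _ _).symm
      _ ≤ (4 * T ^ ((4199 : ℝ) / 8400)) * (4 * T ^ ((4199 : ℝ) / 8400)) :=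
          mul_le_mul hs hs h0 (h0.trans hs)
      _ = 16 * (T ^ ((4199 : ℝ) / 8400) * T ^ ((4199 : ℝ) / 8400)) := by ring
      _ = 16 * T ^ ((4199 : ℝ) / 4200) := by
          rw [← Real.rpow_add hT0]
          norm_num
  have h4 : ∑ i ∈ (IX P T ×ˢ IX P T) ×ˢ RN T, |ck P k f T i| =
      (∑ x ∈ IX P T, ∑ y ∈ IX P T, |e4e P k T x y|) * ∑ n ∈ RN T, |cc71 f.h 2 T n| := by
    simp only [ck, abs_mul]
    rw [Finset.sum_product]
    simp only [← Finset.mul_sum]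
    rw [← Finset.sum_mul, Finset.sum_product]
  rw [h4]
  calc (∑ x ∈ IX P T, ∑ y ∈ IX P T, |e4e P k T x y|) * ∑ n ∈ RN T, |cc71 f.h 2 T n|
      ≤ (16 * T ^ ((4199 : ℝ) / 4200)) * (2 * M * T) := mul_le_mul h3 h1 h0' (by positivity)
    _ = _ := by ring

/-- the diagonal of class `k` -/
private noncomputable def Dk (P : Par) (k : ℕ) (f : TF) (T : ℝ) : ℝ :=
  ∑ i ∈ (IX P T ×ˢ IX P T) ×ˢ RN T, if ai i = bi i then ck P k f T i else 0

private theorem one_class (P : Par) (g : TF) (k : ℕ) (f : TF) {ε : ℝ} (hε : 0 < ε) : ∀ᶠ T : ℝ in atTop,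
    |(∫ t, om g.h T t * (FK P k T t * pss f.h 2 T t)) - T * (∫ x, g.h x) * Dk P k f T| ≤ ε * T := by
  obtain ⟨C, hC, hmv⟩ := gmv g (δ := 1 / 4200) (by norm_num) 12600
  obtain ⟨M, hM, hMb⟩ := tf_bdd71 f
  filter_upwards [eventually_gt_atTop 1, eventually_ge_atTop (32 * C * M / ε), sum_cf P] with T hT hTC hs
  have hT0 : 0 < T := by linarith
  have key := hmv T hT.le _ ((IX P T ×ˢ IX P T) ×ˢ RN T) (ck P k f T) ai bi (min_cond P hT)
  simp only [← FKpss P k f hT] at key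
  refine key.trans ?_
  have e5 : 0 ≤ T ^ (1 - 1 / 4200 * ((12600 : ℕ) : ℝ)) := Real.rpow_nonneg hT0.le _
  have e6 : T ^ (1 - 1 / 4200 * ((12600 : ℕ) : ℝ)) * (T ^ ((4199 : ℝ) / 4200) * T) ≤ 1 := by
    have h1 : T ^ (1 - 1 / 4200 * ((12600 : ℕ) : ℝ)) * (T ^ ((4199 : ℝ) / 4200) * T) =
        T ^ ((1 - 1 / 4200 * ((12600 : ℕ) : ℝ)) + ((4199 : ℝ) / 4200 + 1)) := by
      rw [Real.rpow_add hT0, Real.rpow_add hT0, Real.rpow_one]
    rw [h1]
    exact Real.rpow_le_one_of_one_le_of_nonpos hT.le (by norm_num)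
  calc C * T ^ (1 - 1 / 4200 * ((12600 : ℕ) : ℝ)) * ∑ i ∈ (IX P T ×ˢ IX P T) ×ˢ RN T, |ck P k f T i|
      ≤ C * T ^ (1 - 1 / 4200 * ((12600 : ℕ) : ℝ)) * (32 * M * (T ^ ((4199 : ℝ) / 4200) * T)) :=
        mul_le_mul_of_nonneg_left (sum_abs_le P k hM hMb hT hs) (mul_nonneg hC.le e5)
    _ = 32 * C * M * (T ^ (1 - 1 / 4200 * ((12600 : ℕ) : ℝ)) * (T ^ ((4199 : ℝ) / 4200) * T)) := by ring
    _ ≤ 32 * C * M * 1 := mul_le_mul_of_nonneg_left e6 (by positivity)
    _ ≤ ε * T := by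
        rw [div_le_iff₀ hε] at hTC
        linarith

private theorem SBc_abs (c y : ℝ) (hc : 0 < c) (hc1 : c < 1) : |SBc c y| ≤ 1 := by
  unfold SBc
  rw [abs_mul, abs_of_pos hc]
  have := Real.abs_sinc_le_one (Real.pi * c * y)
  nlinarith [abs_nonneg (Real.sinc (Real.pi * c * y))]

/-- the kernel on the diagonal -/
private theorem kf_diag {P : Par} {T : ℝ} (hT : 1 < T) {x y : ℕ × ℕ} (hx : x ∈ IX P T) (hy : y ∈ IX P T)
    {n : ℕ} (hn : n ≠ 0) (h : x.1 * y.2 * n = x.2 * y.1) {f : TF} (hf : KF P (dk P T x y) f) :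
    cc71 f.h 2 T n = 2 / Real.log T * (Λ n / Real.sqrt n) * SBc P.c (yy T n) := by
  have hL : 0 < Real.log T := Real.log_pos hT
  obtain ⟨hx1, hx2⟩ := IX_ne hx
  obtain ⟨hy1, hy2⟩ := IX_ne hy
  have hx1' : (x.1 : ℝ) ≠ 0 := by exact_mod_cast hx1
  have hx2' : (x.2 : ℝ) ≠ 0 := by exact_mod_cast hx2
  have hy1' : (y.1 : ℝ) ≠ 0 := by exact_mod_cast hy1
  have hy2' : (y.2 : ℝ) ≠ 0 := by exact_mod_cast hy2
  have hn' : (n : ℝ) ≠ 0 := by exact_mod_cast hn
  have e1 : Real.log n = phn y - phn x := by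
    have h2 : Real.log ((x.1 : ℝ) * y.2 * n) = Real.log ((x.2 : ℝ) * y.1) := by
      congr 1
      exact_mod_cast h
    rw [Real.log_mul (mul_ne_zero hx1' hy2') hn', Real.log_mul hx1' hy2', Real.log_mul hx2' hy1'] at h2
    unfold phn
    linarith
  have e2 : |yy T n / 2| ≤ ((dk P T x y : ℝ) + 2 * P.K) / P.G / 2 := by
    have h3 := dk_phn hT hx hy
    rw [abs_sub_comm, ← e1] at h3
    rw [abs_div, abs_of_pos (by norm_num : (0 : ℝ) < 2)]
    refine div_le_div_of_nonneg_right ?_ (by norm_num)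
    rw [yy, abs_div, abs_of_pos hL, div_le_iff₀ hL]
    exact h3
  unfold cc71
  rw [hf.1 _ e2, show 2 * (yy T n / 2) = yy T n by ring]

private theorem diag_sum (P : Par) (f : ℕ → TF) (hf : ∀ k ∈ KR P, KF P k (f k)) {ε : ℝ} (hε : 0 < ε) :
    ∀ᶠ T : ℝ in atTop, |(∑ k ∈ KR P, Dk P k (f k) T) + BT P T| ≤ ε := by
  classical
  filter_upwards [eventually_gt_atTop 1, nonprime_small P hε] with T hT hnp
  have hL : 0 < Real.log T := Real.log_pos hT
  -- the total diagonal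
  have e1 : ∑ k ∈ KR P, Dk P k (f k) T = ∑ x ∈ IX P T, ∑ y ∈ IX P T, ∑ n ∈ Finset.range (⌊T⌋₊ + 1),
      (if x.1 * y.2 * n = x.2 * y.1 then
        cfn x * cfn y * (2 / Real.log T * (Λ n / Real.sqrt n) * SBc P.c (yy T n)) else 0) := by
    unfold Dk
    rw [Finset.sum_comm, Finset.sum_product, Finset.sum_product]
    refine Finset.sum_congr rfl fun x hx => Finset.sum_congr rfl fun y hy => ?_
    rw [RN_range]
    · refine Finset.sum_congr rfl fun n hn => ?_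
      have hn0 : n ≠ 0 := by
        have := (Finset.mem_Icc.1 hn).1
        omega
      by_cases h : x.1 * y.2 * n = x.2 * y.1
      · have h' : ai ((x, y), n) = bi ((x, y), n) := h
        simp only [if_pos h', if_pos h]
        rw [Finset.sum_eq_single (dk P T x y)]
        · simp only [ck, e4e, if_true]
          rw [kf_diag hT hx hy hn0 h (hf _ (dk_mem hx hy))]
        · intro k _ hk
          simp only [ck, e4e]
          rw [if_neg (Ne.symm hk), zero_mul]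
        · intro hk
          exact absurd (dk_mem hx hy) hk
      · have h' : ¬ ai ((x, y), n) = bi ((x, y), n) := h
        simp only [if_neg h', if_neg h]
        exact Finset.sum_const_zero
    · rw [if_neg]
      intro h
      obtain ⟨-, hx2⟩ := IX_ne hx
      obtain ⟨hy1, -⟩ := IX_ne hy
      rw [mul_zero] at h
      exact mul_ne_zero hx2 hy1 h.symm
  have e2 : ∑ k ∈ KR P, Dk P k (f k) T + BT P T = ∑ x ∈ IX P T, ∑ y ∈ IX P T,
      ∑ n ∈ (Finset.range (⌊T⌋₊ + 1)).filter (fun n => ¬ n.Prime),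
      (if x.1 * y.2 * n = x.2 * y.1 then
        cfn x * cfn y * (2 / Real.log T * (Λ n / Real.sqrt n) * SBc P.c (yy T n)) else 0) := by
    have h1 := diag_total P hT
    have h2 : BT P T = -∑ x ∈ IX P T, ∑ y ∈ IX P T, ∑ p ∈ PP T,
        (if x.1 * y.2 * p = x.2 * y.1 then
          cfn x * cfn y * (2 / Real.log T * (Λ p / Real.sqrt p) * SBc P.c (yy T p)) else 0) := by
      rw [← neg_eq_iff_eq_neg, ← h1]
      refine Finset.sum_congr rfl fun x _ => Finset.sum_congr rfl fun y _ =>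
        Finset.sum_congr rfl fun p hp => ?_
      have hp' : p.Prime := (Finset.mem_filter.1 hp).2
      rw [ArithmeticFunction.vonMangoldt_apply_prime hp', ww]
      congr 2
      rw [div_mul_div_comm, mul_div_assoc]
    rw [e1, h2, ← sub_eq_add_neg, ← Finset.sum_sub_distrib]
    refine Finset.sum_congr rfl fun x _ => ?_
    rw [← Finset.sum_sub_distrib]
    refine Finset.sum_congr rfl fun y _ => ?_
    rw [sub_eq_iff_eq_add', PP]
    exact (Finset.sum_filter_add_sum_filter_not _ _ _).symm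
  rw [e2]
  refine le_trans ?_ hnp
  refine (Finset.abs_sum_le_sum_abs _ _).trans (Finset.sum_le_sum fun x _ => ?_)
  refine (Finset.abs_sum_le_sum_abs _ _).trans (Finset.sum_le_sum fun y _ => ?_)
  refine (Finset.abs_sum_le_sum_abs _ _).trans (Finset.sum_le_sum fun n _ => ?_)
  split_ifs
  · have h0 : 0 ≤ 2 / Real.log T * (Λ n / Real.sqrt n) :=
      mul_nonneg (by positivity) (div_nonneg ArithmeticFunction.vonMangoldt_nonneg (Real.sqrt_nonneg _))
    rw [abs_mul (cfn x * cfn y), abs_mul (2 / Real.log T * (Λ n / Real.sqrt n)), abs_of_nonneg h0]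
    refine mul_le_mul_of_nonneg_left ?_ (abs_nonneg _)
    have := SBc_abs P.c (yy T n) P.hc P.hc1
    calc 2 / Real.log T * (Λ n / Real.sqrt n) * |SBc P.c (yy T n)|
        ≤ 2 / Real.log T * (Λ n / Real.sqrt n) * 1 := mul_le_mul_of_nonneg_left this h0
      _ = _ := mul_one _
  · rw [abs_zero]

/-- the mean value of `|M|²` times the prime sums -/
theorem mean_FK (P : Par) (g : TF) (f : ℕ → TF) (hf : ∀ k ∈ KR P, KF P k (f k)) {ε : ℝ} (hε : 0 < ε) :
    ∀ᶠ T : ℝ in atTop,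
    |(∑ k ∈ KR P, ∫ t, om g.h T t * (FK P k T t * pss (f k).h 2 T t)) + T * (∫ x, g.h x) * BT P T| ≤ ε * T := by
  have hc0 : (0 : ℝ) < (KR P).card + 1 := by positivity
  have hI : 0 < |∫ x, g.h x| + 1 := by positivity
  have h1 : ∀ᶠ T : ℝ in atTop, ∀ k ∈ KR P,
      |(∫ t, om g.h T t * (FK P k T t * pss (f k).h 2 T t)) - T * (∫ x, g.h x) * Dk P k (f k) T| ≤
        ε / (2 * ((KR P).card + 1)) * T := by
    rw [Filter.eventually_all_finset]
    intro k _
    exact one_class P g k (f k) (by positivity)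
  filter_upwards [eventually_gt_atTop 1, h1,
    diag_sum P f hf (ε := ε / (2 * (|∫ x, g.h x| + 1))) (by positivity)] with T hT h2 h3
  have hT0 : 0 < T := by linarith
  have e1 : (∑ k ∈ KR P, ∫ t, om g.h T t * (FK P k T t * pss (f k).h 2 T t)) + T * (∫ x, g.h x) * BT P T =
      (∑ k ∈ KR P, ((∫ t, om g.h T t * (FK P k T t * pss (f k).h 2 T t)) -
        T * (∫ x, g.h x) * Dk P k (f k) T)) +
      T * (∫ x, g.h x) * ((∑ k ∈ KR P, Dk P k (f k) T) + BT P T) := by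
    rw [Finset.sum_sub_distrib, ← Finset.mul_sum]
    ring
  rw [e1]
  refine (abs_add_le _ _).trans ?_
  have h4 : |∑ k ∈ KR P, ((∫ t, om g.h T t * (FK P k T t * pss (f k).h 2 T t)) -
        T * (∫ x, g.h x) * Dk P k (f k) T)| ≤ (KR P).card * (ε / (2 * ((KR P).card + 1)) * T) := by
    refine (Finset.abs_sum_le_sum_abs _ _).trans ?_
    refine (Finset.sum_le_sum h2).trans (le_of_eq ?_)
    rw [Finset.sum_const, nsmul_eq_mul]
  have h5 : (KR P).card * (ε / (2 * ((KR P).card + 1)) * T) ≤ ε / 2 * T := by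
    have h6 : ((KR P).card : ℝ) * (ε / (2 * ((KR P).card + 1))) ≤ ε / 2 := by
      rw [mul_div_assoc', div_le_div_iff₀ (by positivity) (by norm_num)]
      nlinarith
    calc (KR P).card * (ε / (2 * ((KR P).card + 1)) * T) =
        ((KR P).card * (ε / (2 * ((KR P).card + 1)))) * T := by ring
      _ ≤ ε / 2 * T := mul_le_mul_of_nonneg_right h6 hT0.le
  have h7 : |T * (∫ x, g.h x) * ((∑ k ∈ KR P, Dk P k (f k) T) + BT P T)| ≤ ε / 2 * T := by
    rw [abs_mul, abs_mul, abs_of_pos hT0]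
    have h8 : |∫ x, g.h x| * |(∑ k ∈ KR P, Dk P k (f k) T) + BT P T| ≤ ε / 2 := by
      calc |∫ x, g.h x| * |(∑ k ∈ KR P, Dk P k (f k) T) + BT P T|
          ≤ (|∫ x, g.h x| + 1) * (ε / (2 * (|∫ x, g.h x| + 1))) :=
            mul_le_mul (by linarith) h3 (abs_nonneg _) hI.le
        _ = ε / 2 := by field_simp
    calc T * |∫ x, g.h x| * |(∑ k ∈ KR P, Dk P k (f k) T) + BT P T| =
        (|∫ x, g.h x| * |(∑ k ∈ KR P, Dk P k (f k) T) + BT P T|) * T := by ring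
      _ ≤ ε / 2 * T := mul_le_mul_of_nonneg_right h8 hT0.le
  linarith

end Pool.Agent.Helper69.PQ
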