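import Pool.Agent.Helper69.PQ.F0

/-!
# PP-F1: peeling one prime

# PP-F: the factorisation of the cell sums

`GT P T τ`: the good numbers of type `τ`. For `l ∈ τ` every element is uniquely `p m'` with `p ∈ PC P l T` and `m'` good of type
`τ \ {l}` (and conversely `p m'` is good of type `τ` as soon as `US τ ≤ G`, because then `p m' ≤ T^(US τ/G) ≤ T`). So for `l` in both types
`MM τ1 τ2 = (|P_l|² - W_l) MM (τ1 \ l) (τ2 \ l)`, for `l` only in `τ1`: `MM τ1 τ2 = - P_l MM (τ1 \ l) τ2`, for `l` only in `τ2`: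
`MM τ1 τ2 = - conj P_l MM τ1 (τ2 \ l)` (primes in distinct cells are distinct, so coprimality concerns only the common cells).
-/

open MeasureTheory Set Filter Topology
open Pool.Agent.Helper57.Zeta Pool.Agent.Helper57.PC Pool.Agent.Helper57.LH Pool.Agent.Helper78.SG
open Pool.Agent.Helper4.SH Pool.Agent.Helper69.PP

namespace Pool.Agent.Helper69.PQ

private theorem mem_GT' {P : Par} {T : ℝ} {τ : Finset ℕ} {n : ℕ} : n ∈ GT P T τ ↔ Gd P T n ∧ ty P.G T n = τ := by
  classical
  unfold GT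
  rw [Finset.mem_filter, Finset.mem_range]
  constructor
  · rintro ⟨_, h⟩; exact h
  · intro h
    refine ⟨?_, h⟩
    have h1 : (n : ℝ) ≤ T := h.1.2.2.2
    exact Nat.lt_succ_of_le (Nat.le_floor h1)

private theorem mem_PC' {P : Par} {T : ℝ} {l p : ℕ} :
    p ∈ PC P l T ↔ (p.Prime ∧ (p : ℝ) ≤ T) ∧ T ^ P.δ ≤ (p : ℝ) ∧ ce P.G T p = l := by
  classical
  unfold PC PP
  rw [Finset.mem_filter, Finset.mem_filter, Finset.mem_range]
  constructor
  · rintro ⟨⟨h1, h2⟩, h3⟩
    refine ⟨⟨h2, ?_⟩, h3⟩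
    have h4 : p ≤ ⌊T⌋₊ := Nat.lt_succ_iff.mp h1
    rcases Nat.eq_zero_or_pos ⌊T⌋₊ with h0 | h0
    · exact absurd (le_trans h2.one_lt.le h4) (by omega)
    · exact (Nat.le_floor_iff (Nat.pos_of_floor_pos h0).le).mp h4
  · rintro ⟨⟨h1, h2⟩, h3⟩
    exact ⟨⟨Nat.lt_succ_of_le (Nat.le_floor h2), h1⟩, h3⟩

/-- decomposition of a good number of type `τ ∋ l` -/
theorem GT_sum {P : Par} {T : ℝ} (hT : 1 < T) {τ : Finset ℕ} {l : ℕ} (hl : l ∈ τ) (hτ : US τ ≤ P.G) (F : ℕ → ℂ) :
    ∑ n ∈ GT P T τ, F n = ∑ p ∈ PC P l T, ∑ m ∈ GT P T (τ.erase l), F (p * m) := by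
  classical
  rw [← Finset.sum_product']
  symm
  have hL : 0 < Real.log T := Real.log_pos hT
  have hG : (0 : ℝ) < P.G := by exact_mod_cast P.hG0
  -- the forward statement
  have key : ∀ p m : ℕ, p ∈ PC P l T → m ∈ GT P T (τ.erase l) → p * m ∈ GT P T τ := by
    intro p m hp hm
    rw [mem_PC'] at hp
    rw [mem_GT'] at hm
    obtain ⟨⟨hp1, hp2⟩, hp3, hp4⟩ := hp
    obtain ⟨⟨⟨hm0, hmR⟩, hms, hmi, hmT⟩, hmt⟩ := hm
    have hnotin : ∀ q ∈ m.primeFactors, ce P.G T q ≠ l := by
      intro q hq h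
      have h1 : ce P.G T q ∈ ty P.G T m := Finset.mem_image_of_mem _ hq
      rw [hmt, h] at h1
      exact Finset.notMem_erase l τ h1
    have hpm : p ∉ m.primeFactors := fun h => hnotin p h hp4
    have hcop : Nat.Coprime p m := by
      rw [Nat.Prime.coprime_iff_not_dvd hp1]
      intro h
      exact hpm (Nat.mem_primeFactors.mpr ⟨hp1, h, hm0⟩)
    have hpf : (p * m).primeFactors = insert p m.primeFactors := by
      rw [Nat.Coprime.primeFactors_mul hcop, Nat.Prime.primeFactors hp1]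
      rfl
    have hty : ty P.G T (p * m) = τ := by
      unfold ty
      rw [hpf, Finset.image_insert, hp4]
      have h1 : m.primeFactors.image (ce P.G T) = τ.erase l := hmt
      rw [h1]
      exact Finset.insert_erase hl
    have hgm : Gd P T m := ⟨⟨hm0, hmR⟩, hms, hmi, hmT⟩
    have hlogm : P.G * Real.log m / Real.log T ≤ US (ty P.G T m) := US_ge_log hT hgm
    rw [hmt] at hlogm
    have hlogp : P.G * Real.log p / Real.log T ≤ (l : ℝ) := by
      rw [← hp4]
      unfold ce
      exact Nat.le_ceil _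
    have hUS : US τ = l + US (τ.erase l) := by
      unfold US
      rw [Finset.add_sum_erase τ (fun x => x) hl]
    have hle : ((p * m : ℕ) : ℝ) ≤ T := by
      have hp0 : (0 : ℝ) < p := by exact_mod_cast hp1.pos
      have hm0' : (0 : ℝ) < m := by exact_mod_cast Nat.pos_of_ne_zero hm0
      have h2 : P.G * (Real.log p + Real.log m) / Real.log T ≤ P.G := by
        have h3 : (US τ : ℝ) = l + US (τ.erase l) := by
          rw [hUS]; push_cast; ring
        have h4 : (US τ : ℝ) ≤ P.G := by exact_mod_cast hτ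
        have h5 : P.G * (Real.log p + Real.log m) / Real.log T
            = P.G * Real.log p / Real.log T + P.G * Real.log m / Real.log T := by ring
        rw [h5]; linarith
      have h6 : Real.log p + Real.log m ≤ Real.log T := by
        rw [div_le_iff₀ hL] at h2
        exact le_of_mul_le_mul_left h2 hG
      rw [← Real.log_mul hp0.ne' hm0'.ne'] at h6
      push_cast
      exact (Real.log_le_log_iff (by positivity) (by linarith)).mp h6
    rw [mem_GT']
    refine ⟨⟨⟨mul_ne_zero hp1.ne_zero hm0, ?_⟩, ?_, ?_, hle⟩, hty⟩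
    · intro q hq
      rw [hpf, Finset.mem_insert] at hq
      rcases hq with h | h
      · rw [h]; exact hp3
      · exact hmR q h
    · exact (Nat.squarefree_mul hcop).mpr ⟨hp1.squarefree, hms⟩
    · rw [hpf, Finset.coe_insert]
      rw [Set.injOn_insert (by simpa using hpm)]
      refine ⟨hmi, ?_⟩
      rintro ⟨q, hq, hq2⟩
      exact hnotin q hq (by rw [hq2, hp4])
  refine Finset.sum_bij (fun (x : ℕ × ℕ) _ => x.1 * x.2) ?_ ?_ ?_ ?_
  · rintro ⟨p, m⟩ h
    rw [Finset.mem_product] at h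
    exact key p m h.1 h.2
  · rintro ⟨p, m⟩ h ⟨p', m'⟩ h' heq
    rw [Finset.mem_product] at h h'
    have hn := key p m h.1 h.2
    have heq' : p * m = p' * m' := heq
    have hp := mem_PC'.mp h.1
    have hp' := mem_PC'.mp h'.1
    have hnG := (mem_GT'.mp hn).1
    have hn0 : p * m ≠ 0 := hnG.1.1
    have h1 : p ∈ (p * m).primeFactors := Nat.mem_primeFactors.mpr ⟨hp.1.1, dvd_mul_right _ _, hn0⟩
    have h2 : p' ∈ (p * m).primeFactors := by
      rw [heq'] at hn0 ⊢
      exact Nat.mem_primeFactors.mpr ⟨hp'.1.1, dvd_mul_right _ _, hn0⟩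
    have h3 : p = p' := hnG.2.2.1 h1 h2 (by rw [hp.2.2, hp'.2.2])
    subst h3
    have h4 : m = m' := Nat.eq_of_mul_eq_mul_left hp.1.1.pos heq'
    rw [h4]
  · intro n hn
    have hn' := mem_GT'.mp hn
    obtain ⟨hg, ht⟩ := hn'
    have hl' : l ∈ ty P.G T n := by rw [ht]; exact hl
    unfold ty at hl'
    rw [Finset.mem_image] at hl'
    obtain ⟨p, hp, hpl⟩ := hl'
    have hpp := Nat.prime_of_mem_primeFactors hp
    have hpd := Nat.dvd_of_mem_primeFactors hp
    obtain ⟨m, rfl⟩ := hpd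
    have hn0 : p * m ≠ 0 := hg.1.1
    have hm0 : m ≠ 0 := right_ne_zero_of_mul hn0
    have hmd : m ∣ p * m := dvd_mul_left _ _
    have hgm : Gd P T m := Gd_dvd hg hmd
    have hcop : Nat.Coprime p m := Nat.coprime_of_squarefree_mul hg.2.1
    have hpm : p ∉ m.primeFactors := by
      intro h
      have h1 := Nat.dvd_of_mem_primeFactors h
      exact (Nat.Prime.coprime_iff_not_dvd hpp).mp hcop h1
    have hpf : (p * m).primeFactors = insert p m.primeFactors := by
      rw [Nat.Coprime.primeFactors_mul hcop, Nat.Prime.primeFactors hpp]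
      rfl
    have hnotin : l ∉ m.primeFactors.image (ce P.G T) := by
      intro h
      rw [Finset.mem_image] at h
      obtain ⟨q, hq, hq2⟩ := h
      have h2 : q ∈ (p * m).primeFactors := by rw [hpf]; exact Finset.mem_insert_of_mem hq
      have h3 : q = p := hg.2.2.1 h2 hp (by rw [hq2, hpl])
      exact hpm (h3 ▸ hq)
    have htm : ty P.G T m = τ.erase l := by
      rw [← ht]
      unfold ty
      rw [hpf, Finset.image_insert, hpl, Finset.erase_insert hnotin]
    refine ⟨(p, m), ?_, rfl⟩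
    rw [Finset.mem_product]
    refine ⟨?_, mem_GT'.mpr ⟨hgm, htm⟩⟩
    rw [mem_PC']
    refine ⟨⟨hpp, ?_⟩, hg.1.2 p hp, hpl⟩
    have h5 : (p : ℝ) ≤ ((p * m : ℕ) : ℝ) := by
      exact_mod_cast Nat.le_mul_of_pos_right p (Nat.pos_of_ne_zero hm0)
    exact le_trans h5 hg.2.2.2
  · rintro ⟨p, m⟩ _
    rfl

end Pool.Agent.Helper69.PQ
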