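import Pool.Agent.Helper69.PQ.C3
import Pool.Agent.Helper4.SH.MomDiag

/-!
# PP-M1: admissible polynomials

# PP-M: admissible Dirichlet polynomials and their mean squares
-/

open MeasureTheory Set Filter Topology
open Pool.Agent.Helper57.Zeta Pool.Agent.Helper57.PC Pool.Agent.Helper57.LH Pool.Agent.Helper78.SG
open Pool.Agent.Helper4.SH Pool.Agent.Helper69.PP

namespace Pool.Agent.Helper69.PQ

theorem DP_cont (S : Finset ℕ) (c : ℕ → ℝ) : Continuous (DP S c) := by
  unfold DP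
  refine continuous_finsetSum _ fun n _ => ?_
  refine continuous_const.mul (Complex.continuous_exp.comp ?_)
  exact (Complex.continuous_ofReal.comp (continuous_id.mul continuous_const)).mul continuous_const

private theorem count35 (S1 S2 : Finset ℕ) {n : ℕ} (hn : n ≠ 0) :
    ((S1 ×ˢ S2).filter (fun x => x.1 * x.2 = n)).card ≤ 2 ^ n.primeFactorsList.length := by
  refine le_trans ?_ (MDaux.card_div_le hn)
  refine Finset.card_le_card_of_injOn (fun x => x.1) ?_ ?_
  · intro x hx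
    rw [Finset.mem_coe, Finset.mem_filter] at hx
    rw [Finset.mem_coe, Nat.mem_divisors]
    exact ⟨Dvd.intro _ hx.2, hn⟩
  · intro x hx y hy hxy
    rw [Finset.mem_coe, Finset.mem_filter] at hx hy
    have hxy' : x.1 = y.1 := hxy
    have h0 : x.1 ≠ 0 := by
      intro h
      apply hn
      rw [← hx.2, h, zero_mul]
    refine Prod.ext hxy' ?_
    have h1 : x.1 * x.2 = x.1 * y.2 := by rw [hx.2, hxy', hy.2]
    exact Nat.eq_of_mul_eq_mul_left (Nat.pos_of_ne_zero h0) h1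

/-- products of admissible polynomials are admissible (Dirichlet convolution; at most `2^Ω(n)` divisors: `card_div_le` of SH/MomDiag) -/
theorem adm_mul {K1 K2 θ1 θ2 T : ℝ} {d1 d2 : ℕ} (hT : 1 < T) (hK1 : 0 ≤ K1) (hK2 : 0 ≤ K2) {S1 S2 : Finset ℕ} {c1 c2 : ℕ → ℝ}
    (h1 : Adm K1 d1 θ1 T S1 c1) (h2 : Adm K2 d2 θ2 T S2 c2) :
    ∃ (S : Finset ℕ) (c : ℕ → ℝ), Adm (K1 * K2 * 2 ^ (d1 + d2)) (d1 + d2) (θ1 + θ2) T S c ∧
      ∀ t, DP S c t = DP S1 c1 t * DP S2 c2 t := by
  classical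
  refine ⟨(S1 ×ˢ S2).image (fun x => x.1 * x.2),
    fun n => ∑ x ∈ (S1 ×ˢ S2).filter (fun x => x.1 * x.2 = n), c1 x.1 * c2 x.2, ?_, ?_⟩
  · intro n hn
    obtain ⟨⟨a, b⟩, hab, rfl⟩ := Finset.mem_image.1 hn
    rw [Finset.mem_product] at hab
    obtain ⟨ha0, had, hap, hac, haT⟩ := h1 a hab.1
    obtain ⟨hb0, hbd, hbp, hbc, hbT⟩ := h2 b hab.2
    have hn0 : a * b ≠ 0 := Nat.mul_ne_zero ha0 hb0
    have hlen : (a * b).primeFactorsList.length ≤ d1 + d2 := by
      rw [MDaux.len_mul ha0 hb0]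
      exact Nat.add_le_add had hbd
    refine ⟨hn0, hlen, ?_, ?_, ?_⟩
    · intro p hp
      rcases (Nat.mem_primeFactorsList_mul ha0 hb0).1 hp with h | h
      · exact hap p h
      · exact hbp p h
    · have hW : 0 ≤ WW T (a * b) := WW_nonneg hT _
      calc |∑ x ∈ (S1 ×ˢ S2).filter (fun x => x.1 * x.2 = a * b), c1 x.1 * c2 x.2|
          ≤ ∑ x ∈ (S1 ×ˢ S2).filter (fun x => x.1 * x.2 = a * b), |c1 x.1 * c2 x.2| :=
            Finset.abs_sum_le_sum_abs _ _
        _ ≤ ∑ x ∈ (S1 ×ˢ S2).filter (fun x => x.1 * x.2 = a * b), K1 * K2 * WW T (a * b) := by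
            refine Finset.sum_le_sum fun x hx => ?_
            rw [Finset.mem_filter, Finset.mem_product] at hx
            obtain ⟨hx0, -, -, hxc, -⟩ := h1 x.1 hx.1.1
            obtain ⟨hy0, -, -, hyc, -⟩ := h2 x.2 hx.1.2
            rw [abs_mul, ← hx.2, WW_mul T hx0 hy0]
            have hWx : 0 ≤ WW T x.1 := WW_nonneg hT _
            have hWy : 0 ≤ WW T x.2 := WW_nonneg hT _
            calc |c1 x.1| * |c2 x.2| ≤ (K1 * WW T x.1) * (K2 * WW T x.2) :=
                  mul_le_mul hxc hyc (abs_nonneg _) (by positivity)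
              _ = K1 * K2 * (WW T x.1 * WW T x.2) := by ring
        _ = (((S1 ×ˢ S2).filter (fun x => x.1 * x.2 = a * b)).card : ℝ) *
              (K1 * K2 * WW T (a * b)) := by
            rw [Finset.sum_const, nsmul_eq_mul]
        _ ≤ (2 : ℝ) ^ (d1 + d2) * (K1 * K2 * WW T (a * b)) := by
            refine mul_le_mul_of_nonneg_right ?_ (by positivity)
            have h3 := (count35 S1 S2 hn0).trans (Nat.pow_le_pow_right (by norm_num) hlen)
            exact_mod_cast h3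
        _ = K1 * K2 * 2 ^ (d1 + d2) * WW T (a * b) := by ring
    · rw [Real.rpow_add (by linarith)]
      push_cast
      exact mul_le_mul haT hbT (Nat.cast_nonneg _) (by positivity)
  · intro t
    unfold DP
    rw [Finset.sum_mul_sum, ← Finset.sum_product',
      ← Finset.sum_fiberwise_of_maps_to (s := S1 ×ˢ S2) (t := (S1 ×ˢ S2).image (fun x => x.1 * x.2))
        (g := fun x => x.1 * x.2) (fun x hx => Finset.mem_image_of_mem _ hx)]
    refine Finset.sum_congr rfl fun n _ => ?_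
    rw [Complex.ofReal_sum, Finset.sum_mul]
    refine Finset.sum_congr rfl fun x hx => ?_
    rw [Finset.mem_filter, Finset.mem_product] at hx
    have hx0 : (x.1 : ℝ) ≠ 0 := Nat.cast_ne_zero.2 (h1 x.1 hx.1.1).1
    have hy0 : (x.2 : ℝ) ≠ 0 := Nat.cast_ne_zero.2 (h2 x.2 hx.1.2).1
    have e : ((t * Real.log ((x.1 * x.2 : ℕ) : ℝ) : ℝ) : ℂ) * Complex.I =
        ((t * Real.log x.1 : ℝ) : ℂ) * Complex.I + ((t * Real.log x.2 : ℝ) : ℂ) * Complex.I := by
      rw [Nat.cast_mul, Real.log_mul hx0 hy0, mul_add, Complex.ofReal_add, add_mul]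
    rw [← hx.2, e, Complex.exp_add, Complex.ofReal_mul]
    ring

theorem adm_one {T : ℝ} (hT : 1 < T) : Adm 1 0 0 T {1} (fun _ => 1) := by
  intro n hn
  rw [Finset.mem_singleton] at hn
  subst hn
  refine ⟨one_ne_zero, by simp, by simp, ?_, by simp⟩
  rw [MDaux.WW_one]
  simp

theorem DP_one (t : ℝ) : DP {1} (fun _ => 1) t = 1 := by
  simp [DP]

theorem adm_le {K θ θ' T : ℝ} {d : ℕ} (hT : 1 < T) (hθ : θ ≤ θ') {S : Finset ℕ} {c : ℕ → ℝ}
    (h : Adm K d θ T S c) : Adm K d θ' T S c := by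
  intro n hn
  obtain ⟨h1, h2, h3, h4, h5⟩ := h n hn
  exact ⟨h1, h2, h3, h4, h5.trans (Real.rpow_le_rpow_of_exponent_le hT.le hθ)⟩

end Pool.Agent.Helper69.PQ
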