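import Pool.Agent.Helper69.PQ.M1
import Pool.Agent.Helper4.SH.Mom

/-!
# PP-M2: mean square

# PP-M: admissible Dirichlet polynomials and their mean squares
-/

open MeasureTheory Set Filter Topology
open Pool.Agent.Helper57.Zeta Pool.Agent.Helper57.PC Pool.Agent.Helper57.LH Pool.Agent.Helper78.SG
open Pool.Agent.Helper4.SH Pool.Agent.Helper69.PP

namespace Pool.Agent.Helper69.PQ

/-- the mean square (`mom` of SH/Mom with `j = 1`, `a = id`, `b = 1`; `∑∑ c c' cos = normSq (DP S c t)`: `trp_normSq`) -/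
theorem adm_sq (g : TF) (hg0 : ∀ x, 0 ≤ g.h x) (K : ℝ) (hK : 0 ≤ K) (d : ℕ) {θ e1 : ℝ} (he1 : 0 < e1) (hθ : θ ≤ 1 - e1) :
    ∃ C : ℝ, 0 < C ∧ ∀ᶠ T : ℝ in atTop, ∀ (S : Finset ℕ) (c : ℕ → ℝ), Adm K d θ T S c →
      ∫ t, om g.h T t * ‖DP S c t‖ ^ 2 ≤ C * T := by
  obtain ⟨C, hC0, hC⟩ := mom g 1 d K e1 θ hK he1 (by simpa using hθ)
  refine ⟨C, hC0, ?_⟩
  filter_upwards [hC, eventually_gt_atTop 1] with T hT hT1 S c hS
  have hT0 : 0 < T := by linarith
  have hWW1 : WW T 1 = 1 := by simp [WW]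
  have h := hT ℕ S c (fun n => n) (fun _ => 1) (by
    intro n hn
    obtain ⟨h1, h2, h3, h4, h5⟩ := hS n hn
    refine ⟨h1, one_ne_zero, by simpa using h2, h3, by simp, ?_, by simpa using h5⟩
    rw [hWW1, mul_one]
    exact h4) (fun i _ i' _ hii _ => hii) (by
    have hsub : S ⊆ Finset.Icc 1 ⌊T⌋₊ := by
      intro n hn
      obtain ⟨h1, _, _, _, h5⟩ := hS n hn
      rw [Finset.mem_Icc]
      refine ⟨Nat.one_le_iff_ne_zero.mpr h1, Nat.le_floor (h5.trans ?_)⟩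
      calc T ^ θ ≤ T ^ (1 : ℝ) := Real.rpow_le_rpow_of_exponent_le hT1.le (by linarith)
        _ = T := Real.rpow_one T
    have h6 : (S.card : ℝ) ≤ T := by
      have h7 := Finset.card_le_card hsub
      rw [Nat.card_Icc, Nat.add_sub_cancel] at h7
      exact le_trans (by exact_mod_cast h7) (Nat.floor_le hT0.le)
    calc (S.card : ℝ) ≤ T := h6
      _ = T ^ 1 := (pow_one T).symm
      _ ≤ T ^ 3 := pow_le_pow_right₀ hT1.le (by norm_num))
  have hint : ∫ t, om g.h T t * ‖DP S c t‖ ^ 2 =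
      ∫ t, om g.h T t * (∑ i ∈ S, ∑ i' ∈ S, c i * c i' * Real.cos (t *
        ((Real.log ((i : ℕ) : ℝ) - Real.log ((1 : ℕ) : ℝ)) -
          (Real.log ((i' : ℕ) : ℝ) - Real.log ((1 : ℕ) : ℝ))))) ^ 1 := by
    refine integral_congr_ae (Filter.Eventually.of_forall fun t => ?_)
    have e1 : DP S c t = trp S c (fun n => Real.log n) t := rfl
    have e2 := trp_normSq S c (fun n => Real.log ((n : ℕ) : ℝ)) t
    simp only [pow_one, Nat.cast_one, Real.log_one, sub_zero]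
    rw [← e2, ← e1, Complex.normSq_eq_norm_sq]
  rw [hint]
  exact (le_abs_self _).trans h

end Pool.Agent.Helper69.PQ
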