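import Pool.Agent.Helper69.PQ.E0
import Pool.Agent.Helper69.PQ.E1
import Pool.Agent.Helper69.PQ.E2
import Pool.Agent.Helper69.PQ.E3
import Pool.Agent.Helper69.PQ.E4
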