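import Pool.Agent.Helper69.PQ.U1
import Pool.Agent.Helper69.PQ.M4
import Pool.Agent.Helper69.PQ.F0

/-!
# PP-U2: one quadruple

# PP-U: uniform integrability
-/

open MeasureTheory Set Filter Topology
open Pool.Agent.Helper57.Zeta Pool.Agent.Helper57.PC Pool.Agent.Helper57.LH Pool.Agent.Helper78.SG
open Pool.Agent.Helper4.SH Pool.Agent.Helper69.PP

namespace Pool.Agent.Helper69.PQ

/-- sizes: the case `v ≥ 0` -/
theorem size_third {P : Par} {τ1 τ2 τ1' τ2' : Finset ℕ} (h1 : TA P τ1) (h2 : TB P τ2')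
    (hv : 0 ≤ ((US τ1 : ℤ) - US τ2) - ((US τ1' : ℤ) - US τ2')) {k : ℕ}
    (hk : (((US τ1 : ℤ) - US τ2) - ((US τ1' : ℤ) - US τ2')).natAbs = k) :
    ((US τ2 + US τ1' : ℕ) : ℝ) / P.G + ((k + 2 * P.K) / P.G + P.e / 4) ≤ 1 - 1 / 5000 := by
  have hG0 : (0 : ℝ) < P.G := by exact_mod_cast P.hG0
  have he := P.he
  have hkk : (US τ2 + US τ1' + k : ℕ) = US τ1 + US τ2' := by omega
  have hkr : ((US τ2 + US τ1' : ℕ) : ℝ) + k = US τ1 + US τ2' := by exact_mod_cast hkk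
  have h2' : (US τ2' : ℝ) ≤ (2099 / 4200) * ((1 - P.e) * P.G) := TB_size h2
  have h1' : (US τ1 : ℝ) ≤ (1 / 2 - P.e) * P.G := h1
  have hG : (2 * (P.K : ℝ) + 2) / P.G ≤ P.e / 2 := P.hG
  have hG' : 2 * (P.K : ℝ) ≤ P.e / 2 * P.G := by
    rw [div_le_iff₀ hG0] at hG
    linarith
  have h4 : ((US τ2 + US τ1' : ℕ) : ℝ) / P.G + ((k + 2 * P.K) / P.G + P.e / 4) =
      (US τ1 + US τ2' + 2 * P.K) / P.G + P.e / 4 := by
    rw [← hkr]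
    field_simp
    ring
  rw [h4]
  have h5 : ((US τ1 : ℝ) + US τ2' + 2 * P.K) / P.G ≤ 4199 / 4200 - 9 / 10 * P.e := by
    rw [div_le_iff₀ hG0]
    nlinarith
  linarith

private theorem Rl_cont (P : Par) (T : ℝ) (l : ℕ) : Continuous (fun t => Rl P T t l) := by
  unfold Rl Pl
  exact continuous_const.add (DP_cont _ _).norm

private theorem Rl_nonneg (P : Par) (T t : ℝ) (l : ℕ) : 0 ≤ Rl P T t l := by
  unfold Rl
  positivity

/-- the product over a denominator type is dominated by the sum of the squares of the products over the bins -/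
private theorem bins (P : Par) (T t : ℝ) {nb nc : ℕ} (hnc : nc ≠ 0) {τ : Finset ℕ} {f : Fin nb → ℕ → ℕ}
    (hf : ∀ l ∈ τ, nc ≤ ∑ j, f j l) :
    ∏ l ∈ τ, Rl P T t l ≤ (∑ j, (∏ l ∈ τ, Rl P T t l ^ f j l) ^ 2) ^ ((nb : ℝ) / (2 * nc)) := by
  obtain ⟨b, hb⟩ : ∃ b, b = ∏ l ∈ τ, Rl P T t l := ⟨_, rfl⟩
  obtain ⟨S, hS⟩ : ∃ S, S = ∑ j, (∏ l ∈ τ, Rl P T t l ^ f j l) ^ 2 := ⟨_, rfl⟩
  have hR1 : ∀ l, 1 ≤ Rl P T t l := by
    intro l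
    unfold Rl
    linarith [norm_nonneg (Pl P l T t)]
  have hR0 : ∀ l, 0 ≤ Rl P T t l := fun l => zero_le_one.trans (hR1 l)
  have hb0 : 0 ≤ b := by
    rw [hb]
    exact Finset.prod_nonneg fun l _ => hR0 l
  have hM0 : ∀ j, 0 ≤ ∏ l ∈ τ, Rl P T t l ^ f j l := fun j => Finset.prod_nonneg fun l _ => pow_nonneg (hR0 l) _
  have hS0 : 0 ≤ S := by
    rw [hS]
    exact Finset.sum_nonneg fun j _ => sq_nonneg _
  have hMS : ∀ j, ∏ l ∈ τ, Rl P T t l ^ f j l ≤ S ^ ((1 : ℝ) / 2) := by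
    intro j
    rw [← Real.sqrt_eq_rpow]
    apply Real.le_sqrt_of_sq_le
    rw [hS]
    exact Finset.single_le_sum (f := fun j => (∏ l ∈ τ, Rl P T t l ^ f j l) ^ 2) (fun j _ => sq_nonneg _)
      (Finset.mem_univ j)
  have h1 : b ^ nc ≤ S ^ ((nb : ℝ) / 2) := by
    calc b ^ nc = ∏ l ∈ τ, Rl P T t l ^ nc := by rw [hb, Finset.prod_pow]
      _ ≤ ∏ l ∈ τ, Rl P T t l ^ (∑ j, f j l) :=
          Finset.prod_le_prod (fun l _ => pow_nonneg (hR0 l) _) fun l hl => pow_le_pow_right₀ (hR1 l) (hf l hl)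
      _ = ∏ l ∈ τ, ∏ j, Rl P T t l ^ f j l := by
          refine Finset.prod_congr rfl fun l _ => ?_
          rw [Finset.prod_pow_eq_pow_sum]
      _ = ∏ j, ∏ l ∈ τ, Rl P T t l ^ f j l := Finset.prod_comm
      _ ≤ ∏ _j : Fin nb, S ^ ((1 : ℝ) / 2) := Finset.prod_le_prod (fun j _ => hM0 j) fun j _ => hMS j
      _ = S ^ ((nb : ℝ) / 2) := by
          rw [Finset.prod_const, Finset.card_univ, Fintype.card_fin, ← Real.rpow_mul_natCast hS0]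
          ring_nf
  rw [← hb, ← hS]
  have h2 : (b ^ nc) ^ ((1 : ℝ) / (nc : ℕ)) = b := by
    rw [one_div, Real.pow_rpow_inv_natCast hb0 hnc]
  have hnc' : (nc : ℝ) ≠ 0 := by exact_mod_cast hnc
  calc b = (b ^ nc) ^ ((1 : ℝ) / (nc : ℕ)) := h2.symm
    _ ≤ (S ^ ((nb : ℝ) / 2)) ^ ((1 : ℝ) / (nc : ℕ)) :=
        Real.rpow_le_rpow (pow_nonneg hb0 _) h1 (by positivity)
    _ = S ^ ((nb : ℝ) / (2 * nc)) := by
        rw [← Real.rpow_mul hS0]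
        congr 1
        field_simp

private theorem core (P : Par) (g : TF) (hg : g.th = 1 / 4) (hg0 : ∀ x, 0 ≤ g.h x) (hg1 : ∀ x, g.h x ≤ 1)
    {τ1 τ2 τ1' τ2' : Finset ℕ} (h1 : TA P τ1) {nb nc : ℕ} (hnb : 0 < nb) (hbc : 2 * nb < nc) {f : Fin nb → ℕ → ℕ}
    (hf1 : ∀ l ∈ τ2', nc ≤ ∑ j, f j l)
    (hf2 : ∀ j, ((∑ l ∈ τ2', f j l * l : ℕ) : ℝ) ≤ (1 - P.e) * P.G)
    (Kx : ℝ) (hKx : 0 ≤ Kx) (d : ℕ) {θ : ℝ}
    (hθ : ((US τ2 + US τ1' : ℕ) : ℝ) / P.G + θ ≤ 1 - 1 / 5000) :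
    (∃ C : ℝ, 0 < C ∧ ∀ᶠ T : ℝ in atTop, ∀ (S : Finset ℕ) (c : ℕ → ℝ), Adm Kx d θ T S c →
      ∫ t, om g.h T t * ((∏ l ∈ τ1, Rl P T t l) * (∏ l ∈ τ2, Rl P T t l) *
        ((∏ l ∈ τ1', Rl P T t l) * ∏ l ∈ τ2', Rl P T t l) * ‖DP S c t‖) ≤ C * T) ∧
    ∀ ε : ℝ, 0 < ε → ∃ η : ℝ, 0 < η ∧ ∀ᶠ T : ℝ in atTop, ∀ (S : Finset ℕ) (c : ℕ → ℝ), Adm Kx d θ T S c →
      ∀ B : Set ℝ, MeasurableSet B → volume B ≤ ENNReal.ofReal (η * T) →
      ∫ t in B, om g.h T t * ((∏ l ∈ τ1, Rl P T t l) * (∏ l ∈ τ2, Rl P T t l) *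
        ((∏ l ∈ τ1', Rl P T t l) * ∏ l ∈ τ2', Rl P T t l) * ‖DP S c t‖) ≤ ε * T := by
  have hG0 : (0 : ℝ) < P.G := by exact_mod_cast P.hG0
  have he := P.he
  -- moments
  obtain ⟨C1, hC1, ha⟩ : ∃ C : ℝ, 0 < C ∧ ∀ᶠ T : ℝ in atTop, ∫ t, om g.h T t * (∏ l ∈ τ1, Rl P T t l) ^ 4 ≤ C * T := by
    refine R_mom P g hg hg0 τ1 2 (e1 := 2 * P.e) (by positivity) ?_
    have h1' : (US τ1 : ℝ) ≤ (1 / 2 - P.e) * P.G := h1
    rw [div_le_iff₀ hG0]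
    push_cast
    linarith
  have hbin : ∀ j, ∃ C : ℝ, 0 < C ∧ ∀ᶠ T : ℝ in atTop, ∫ t, om g.h T t * (∏ l ∈ τ2', Rl P T t l ^ f j l) ^ 2 ≤ C * T := by
    intro j
    refine R_mult P g hg hg0 τ2' (f j) (e1 := P.e) he ?_
    rw [div_le_iff₀ hG0]
    exact hf2 j
  choose Cb hCb hb using hbin
  have hbs : ∀ᶠ T : ℝ in atTop, ∀ j, ∫ t, om g.h T t * (∏ l ∈ τ2', Rl P T t l ^ f j l) ^ 2 ≤ Cb j * T :=
    eventually_all.2 hb
  have hsl : (((τ2.toList ++ τ1'.toList).sum : ℕ) : ℝ) / P.G + θ ≤ 1 - 1 / 5000 := by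
    have : (τ2.toList ++ τ1'.toList).sum = US τ2 + US τ1' := by
      rw [List.sum_append, Finset.sum_toList, Finset.sum_toList]
      rfl
    rw [this]
    exact hθ
  obtain ⟨C4, hC4, hd⟩ := R_sq P g hg hg0 (τ2.toList ++ τ1'.toList) Kx hKx d (e1 := 1 / 5000) (by norm_num) hsl
  obtain ⟨CS, hCS⟩ : ∃ CS, CS = ∑ j, Cb j := ⟨_, rfl⟩
  have hCS0 : 0 ≤ CS := by
    rw [hCS]
    exact Finset.sum_nonneg fun j _ => (hCb j).le
  obtain ⟨C, hCdef⟩ : ∃ C : ℝ, C = C1 + C4 + CS := ⟨_, rfl⟩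
  have hC : 0 < C := by rw [hCdef]; positivity
  -- Young
  have hY : ∀ K : ℝ, ∃ M : ℝ, 0 < M ∧ (0 ≤ K → ∀ a b d S : ℝ, 0 ≤ a → 0 ≤ b → 0 ≤ d → 0 ≤ S → b ≤ S ^ ((nb : ℝ) / (2 * nc)) →
      K * (a * b * d) ≤ a ^ 4 / 4 + d ^ 2 / 2 + S + M) := by
    intro K
    by_cases hK : 0 ≤ K
    · have hnc0 : (0 : ℝ) < nc := by
        have : 0 < nc := by omega
        exact_mod_cast this
      have hnb0 : (0 : ℝ) < nb := by exact_mod_cast hnb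
      have hbc' : 2 * (nb : ℝ) < nc := by exact_mod_cast hbc
      obtain ⟨M, hM, h⟩ := young_S (θ := (nb : ℝ) / (2 * nc)) (by positivity)
        (by rw [div_lt_iff₀ (by positivity)]; linarith) hK
      exact ⟨M, hM, fun _ => h⟩
    · exact ⟨1, one_pos, fun h => absurd h hK⟩
  choose m hm hY using hY
  obtain ⟨C', hC', hmain⟩ := ui_gen g hg hg0 hg1 hC hm
  -- the functions
  have hcontP : ∀ (T : ℝ) (σ : Finset ℕ), Continuous (fun t => ∏ l ∈ σ, Rl P T t l) :=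
    fun T σ => continuous_finsetProd _ fun l _ => Rl_cont P T l
  have hcontM : ∀ (T : ℝ) (j : Fin nb), Continuous (fun t => (∏ l ∈ τ2', Rl P T t l ^ f j l) ^ 2) :=
    fun T j => (continuous_finsetProd _ fun l _ => (Rl_cont P T l).pow _).pow 2
  have hposP : ∀ (T t : ℝ) (σ : Finset ℕ), 0 ≤ ∏ l ∈ σ, Rl P T t l :=
    fun T t σ => Finset.prod_nonneg fun l _ => Rl_nonneg P T t l
  have hlist : ∀ (T t : ℝ), ((τ2.toList ++ τ1'.toList).map (Rl P T t)).prod =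
      (∏ l ∈ τ2, Rl P T t l) * ∏ l ∈ τ1', Rl P T t l := by
    intro T t
    rw [List.map_append, List.prod_append, Finset.prod_map_toList, Finset.prod_map_toList]
  have hcontd : ∀ (T : ℝ) (S : Finset ℕ) (c : ℕ → ℝ),
      Continuous (fun t => ((τ2.toList ++ τ1'.toList).map (Rl P T t)).prod * ‖DP S c t‖) := by
    intro T S c
    simp_rw [hlist]
    exact ((hcontP T τ2).mul (hcontP T τ1')).mul (DP_cont S c).norm
  have hposd : ∀ (T t : ℝ) (S : Finset ℕ) (c : ℕ → ℝ),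
      0 ≤ ((τ2.toList ++ τ1'.toList).map (Rl P T t)).prod * ‖DP S c t‖ := by
    intro T t S c
    rw [hlist]
    exact mul_nonneg (mul_nonneg (hposP T t τ2) (hposP T t τ1')) (norm_nonneg _)
  have hint : ∀ (T t : ℝ) (S : Finset ℕ) (c : ℕ → ℝ),
      (∏ l ∈ τ1, Rl P T t l) * (∏ l ∈ τ2, Rl P T t l) *
        ((∏ l ∈ τ1', Rl P T t l) * ∏ l ∈ τ2', Rl P T t l) * ‖DP S c t‖ =
      (∏ l ∈ τ1, Rl P T t l) * (∏ l ∈ τ2', Rl P T t l) *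
        (((τ2.toList ++ τ1'.toList).map (Rl P T t)).prod * ‖DP S c t‖) := by
    intro T t S c
    rw [hlist]
    ring
  -- the hypotheses of `ui_gen`
  have huse : ∀ T : ℝ, 1 ≤ T → ∫ t, om g.h T t * (∏ l ∈ τ1, Rl P T t l) ^ 4 ≤ C1 * T →
      (∀ j, ∫ t, om g.h T t * (∏ l ∈ τ2', Rl P T t l ^ f j l) ^ 2 ≤ Cb j * T) →
      ∀ (S : Finset ℕ) (c : ℕ → ℝ),
      ∫ t, om g.h T t * (((τ2.toList ++ τ1'.toList).map (Rl P T t)).prod * ‖DP S c t‖) ^ 2 ≤ C4 * T →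
      ∀ η ε : ℝ, (∀ T : ℝ, 1 ≤ T → ∀ F Q : ℝ → ℝ,
        Continuous F → Continuous Q → (∀ t, 0 ≤ Q t) → (∀ K t, 0 ≤ K → K * F t ≤ Q t + m K) →
        ∫ t, om g.h T t * Q t ≤ C * T →
        (∫ t, om g.h T t * F t ≤ C' * T) ∧
        ∀ B : Set ℝ, MeasurableSet B → volume B ≤ ENNReal.ofReal (η * T) → ∫ t in B, om g.h T t * F t ≤ ε * T) →
      (∫ t, om g.h T t * ((∏ l ∈ τ1, Rl P T t l) * (∏ l ∈ τ2, Rl P T t l) *
        ((∏ l ∈ τ1', Rl P T t l) * ∏ l ∈ τ2', Rl P T t l) * ‖DP S c t‖) ≤ C' * T) ∧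
        ∀ B : Set ℝ, MeasurableSet B → volume B ≤ ENNReal.ofReal (η * T) →
          ∫ t in B, om g.h T t * ((∏ l ∈ τ1, Rl P T t l) * (∏ l ∈ τ2, Rl P T t l) *
        ((∏ l ∈ τ1', Rl P T t l) * ∏ l ∈ τ2', Rl P T t l) * ‖DP S c t‖) ≤ ε * T := by
    intro T hT e1 e2 S c e3 η ε hη
    obtain ⟨dd, hdd⟩ : ∃ dd : ℝ → ℝ, dd = fun t => ((τ2.toList ++ τ1'.toList).map (Rl P T t)).prod * ‖DP S c t‖ := ⟨_, rfl⟩
    obtain ⟨Q, hQ⟩ : ∃ Q : ℝ → ℝ, Q = fun t => (∏ l ∈ τ1, Rl P T t l) ^ 4 / 4 + dd t ^ 2 / 2 +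
      ∑ j, (∏ l ∈ τ2', Rl P T t l ^ f j l) ^ 2 := ⟨_, rfl⟩
    have hddc : Continuous dd := by rw [hdd]; exact hcontd T S c
    have hdd0 : ∀ t, 0 ≤ dd t := by
      intro t
      rw [hdd]
      exact hposd T t S c
    have hQc : Continuous Q := by
      rw [hQ]
      exact ((((hcontP T τ1).pow 4).div_const 4).add ((hddc.pow 2).div_const 2)).add
        (continuous_finsetSum _ fun j _ => hcontM T j)
    have hS0 : ∀ t, 0 ≤ ∑ j, (∏ l ∈ τ2', Rl P T t l ^ f j l) ^ 2 := fun t => Finset.sum_nonneg fun j _ => sq_nonneg _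
    have hQ0 : ∀ t, 0 ≤ Q t := by
      intro t
      rw [hQ]
      have := hposP T t τ1
      have := hdd0 t
      have := hS0 t
      positivity
    have hF : ∀ t, (∏ l ∈ τ1, Rl P T t l) * (∏ l ∈ τ2, Rl P T t l) *
        ((∏ l ∈ τ1', Rl P T t l) * ∏ l ∈ τ2', Rl P T t l) * ‖DP S c t‖ =
        (∏ l ∈ τ1, Rl P T t l) * (∏ l ∈ τ2', Rl P T t l) * dd t := by
      intro t
      rw [hint, hdd]
    simp_rw [hF]
    refine hη T hT (fun t => (∏ l ∈ τ1, Rl P T t l) * (∏ l ∈ τ2', Rl P T t l) * dd t) Q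
      (((hcontP T τ1).mul (hcontP T τ2')).mul hddc) hQc hQ0 ?_ ?_
    · intro K t hK
      rw [hQ]
      exact hY K hK _ _ _ _ (hposP T t τ1) (hposP T t τ2') (hdd0 t) (hS0 t) (bins P T t (by omega) hf1)
    · have i1 : Integrable (fun t => (1 / 4) * (om g.h T t * (∏ l ∈ τ1, Rl P T t l) ^ 4)) :=
        (int_om g hg hT ((hcontP T τ1).pow 4)).const_mul _
      have i2 : Integrable (fun t => (1 / 2 : ℝ) * (om g.h T t * dd t ^ 2)) :=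
        (int_om g hg hT (hddc.pow 2)).const_mul _
      have i3 : ∀ j ∈ (Finset.univ : Finset (Fin nb)),
          Integrable (fun t => om g.h T t * (∏ l ∈ τ2', Rl P T t l ^ f j l) ^ 2) :=
        fun j _ => int_om g hg hT (hcontM T j)
      have i3' : Integrable (fun t => ∑ j, om g.h T t * (∏ l ∈ τ2', Rl P T t l ^ f j l) ^ 2) :=
        integrable_finsetSum _ i3
      have e5 : ∀ t, om g.h T t * Q t = (1 / 4) * (om g.h T t * (∏ l ∈ τ1, Rl P T t l) ^ 4) +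
          (1 / 2) * (om g.h T t * dd t ^ 2) + ∑ j, om g.h T t * (∏ l ∈ τ2', Rl P T t l ^ f j l) ^ 2 := by
        intro t
        rw [hQ, ← Finset.mul_sum]
        ring
      simp_rw [e5]
      have i12 : Integrable (fun t => (1 / 4) * (om g.h T t * (∏ l ∈ τ1, Rl P T t l) ^ 4) +
          (1 / 2) * (om g.h T t * dd t ^ 2)) := i1.add i2
      rw [integral_add i12 i3', integral_add i1 i2, integral_const_mul, integral_const_mul, integral_finsetSum _ i3]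
      have e6 : ∑ j, ∫ t, om g.h T t * (∏ l ∈ τ2', Rl P T t l ^ f j l) ^ 2 ≤ CS * T := by
        rw [hCS, Finset.sum_mul]
        exact Finset.sum_le_sum fun j _ => e2 j
      have e7 : ∫ t, om g.h T t * dd t ^ 2 ≤ C4 * T := by
        rw [hdd]
        exact e3
      have hT0 : 0 ≤ T := by linarith
      have p1 : 0 ≤ C1 * T := mul_nonneg hC1.le hT0
      have p4 : 0 ≤ C4 * T := mul_nonneg hC4.le hT0
      rw [hCdef]
      linarith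
  constructor
  · obtain ⟨η, hη, hη'⟩ := hmain 1 one_pos
    refine ⟨C', hC', ?_⟩
    filter_upwards [ha, hbs, hd, eventually_ge_atTop 1] with T ha hbs hd hT S c hA
    exact (huse T hT ha hbs S c (hd S c hA) η 1 hη').1
  · intro ε hε
    obtain ⟨η, hη, hη'⟩ := hmain ε hε
    refine ⟨η, hη, ?_⟩
    filter_upwards [ha, hbs, hd, eventually_ge_atTop 1] with T ha hbs hd hT S c hA B hB hBv
    exact (huse T hT ha hbs S c (hd S c hA) η ε hη').2 B hB hBv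

/-- uniform integrability for one quadruple, case `v ≥ 0`: groups `τ1` (exponent 4), the bins of `τ2'` (exponents `2 * 4200`), and
`τ2, τ1', X` (exponent 2) -/
theorem ui_quad_pos (P : Par) (g : TF) (hg : g.th = 1 / 4) (hg0 : ∀ x, 0 ≤ g.h x) (hg1 : ∀ x, g.h x ≤ 1)
    {τ1 τ2 τ1' τ2' : Finset ℕ} (h1 : TA P τ1) (h2' : TB P τ2')
    (hv : 0 ≤ ((US τ1 : ℤ) - US τ2) - ((US τ1' : ℤ) - US τ2')) {k : ℕ}
    (hk : (((US τ1 : ℤ) - US τ2) - ((US τ1' : ℤ) - US τ2')).natAbs = k) (Kx : ℝ) (hKx : 0 ≤ Kx) (d : ℕ) {θ : ℝ}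
    (hθ : θ ≤ (k + 2 * P.K) / P.G + P.e / 4) :
    (∃ C : ℝ, 0 < C ∧ ∀ᶠ T : ℝ in atTop, ∀ (S : Finset ℕ) (c : ℕ → ℝ), Adm Kx d θ T S c →
      ∫ t, om g.h T t * ((∏ l ∈ τ1, Rl P T t l) * (∏ l ∈ τ2, Rl P T t l) *
        ((∏ l ∈ τ1', Rl P T t l) * ∏ l ∈ τ2', Rl P T t l) * ‖DP S c t‖) ≤ C * T) ∧
    ∀ ε : ℝ, 0 < ε → ∃ η : ℝ, 0 < η ∧ ∀ᶠ T : ℝ in atTop, ∀ (S : Finset ℕ) (c : ℕ → ℝ), Adm Kx d θ T S c →
      ∀ B : Set ℝ, MeasurableSet B → volume B ≤ ENNReal.ofReal (η * T) →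
      ∫ t in B, om g.h T t * ((∏ l ∈ τ1, Rl P T t l) * (∏ l ∈ τ2, Rl P T t l) *
        ((∏ l ∈ τ1', Rl P T t l) * ∏ l ∈ τ2', Rl P T t l) * ‖DP S c t‖) ≤ ε * T := by
  have hsz := size_third h1 h2' hv hk
  have hθ' : ((US τ2 + US τ1' : ℕ) : ℝ) / P.G + θ ≤ 1 - 1 / 5000 := by linarith
  obtain ⟨f, hf1, hf2⟩ := h2'
  exact core P g hg hg0 hg1 h1 (by norm_num) (by norm_num) hf1 hf2 Kx hKx d hθ'

end Pool.Agent.Helper69.PQ
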