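import Pool.Agent.Helper69.PQ.M1
import Pool.Agent.Helper69.PQ.M2
import Pool.Agent.Helper69.PQ.M3
import Pool.Agent.Helper69.PQ.M4
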