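import Pool.Agent.Helper69.PQ.C3

/-!
# PP-U1: Young and UI

# PP-U: uniform integrability
-/

open MeasureTheory Set Filter Topology
open Pool.Agent.Helper57.Zeta Pool.Agent.Helper57.PC Pool.Agent.Helper57.LH Pool.Agent.Helper78.SG
open Pool.Agent.Helper4.SH Pool.Agent.Helper69.PP

namespace Pool.Agent.Helper69.PQ

/-- Young's inequality for `a b d` with `b ≤ S ^ θ`, `θ < 1/4`, and a constant factor -/
theorem young_S {θ K : ℝ} (hθ : 0 < θ) (hθ1 : θ < 1 / 4) (hK : 0 ≤ K) :
    ∃ M : ℝ, 0 < M ∧ ∀ a b d S : ℝ, 0 ≤ a → 0 ≤ b → 0 ≤ d → 0 ≤ S → b ≤ S ^ θ →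
      K * (a * b * d) ≤ a ^ 4 / 4 + d ^ 2 / 2 + S + M := by
  obtain ⟨w, hw⟩ : ∃ w : ℝ, w = 1 / 4 - θ := ⟨_, rfl⟩
  have hw0 : 0 < w := by rw [hw]; linarith
  refine ⟨w * K ^ (1 / w) + 1, by positivity, ?_⟩
  intro a b d S ha hb hd hS hbS
  have key : ∀ (x : ℝ) (p : ℕ), 0 ≤ x → p ≠ 0 → (x ^ p) ^ ((1 : ℝ) / p) = x := by
    intro x p hx hp
    rw [one_div]
    exact Real.pow_rpow_inv_natCast hx hp
  have keyK : (K ^ (1 / w)) ^ w = K := by
    rw [← Real.rpow_mul hK, one_div, inv_mul_cancel₀ hw0.ne', Real.rpow_one]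
  have h := Real.geom_mean_le_arith_mean4_weighted (w₁ := 1 / (4 : ℕ)) (w₂ := 1 / (2 : ℕ)) (w₃ := θ) (w₄ := w)
    (p₁ := a ^ 4) (p₂ := d ^ 2) (p₃ := S) (p₄ := K ^ (1 / w)) (by positivity) (by positivity) hθ.le hw0.le (by positivity)
    (by positivity) hS (by positivity) (by rw [hw]; push_cast; ring)
  rw [key a 4 ha (by norm_num), key d 2 hd (by norm_num), keyK] at h
  have h1 : K * (a * b * d) ≤ a * d * S ^ θ * K := by
    have h2 : a * d * b ≤ a * d * S ^ θ := mul_le_mul_of_nonneg_left hbS (mul_nonneg ha hd)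
    calc K * (a * b * d) = a * d * b * K := by ring
      _ ≤ a * d * S ^ θ * K := mul_le_mul_of_nonneg_right h2 hK
  have h3 : θ * S ≤ S := by nlinarith
  have h4 : (1 : ℝ) / ((4 : ℕ) : ℝ) * a ^ 4 = a ^ 4 / 4 := by push_cast; ring
  have h5 : (1 : ℝ) / ((2 : ℕ) : ℝ) * d ^ 2 = d ^ 2 / 2 := by push_cast; ring
  rw [h4, h5] at h
  linarith

private lemma om_cs (g : TF) (hg : g.th = 1 / 4) {T : ℝ} (hT : 1 ≤ T) :
    ∀ t, t ∉ Icc 0 T → om g.h T t = 0 := by
  intro t ht
  show g.h (t / T - 1 / 2) = 0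
  apply g.supp
  rw [hg]
  by_contra h
  push Not at h
  rw [abs_lt] at h
  apply ht
  have hT0 : 0 < T := by linarith
  have h1 : t / T * T = t := div_mul_cancel₀ t hT0.ne'
  constructor
  · nlinarith [h.1, h.2]
  · nlinarith [h.1, h.2]

private lemma om_cont (g : TF) (T : ℝ) : Continuous (om g.h T) := by
  exact g.smooth.continuous.comp ((continuous_id.div_const T).sub continuous_const)

theorem int_om (g : TF) (hg : g.th = 1 / 4) {T : ℝ} (hT : 1 ≤ T) {f : ℝ → ℝ} (hf : Continuous f) :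
    Integrable (fun t => om g.h T t * f t) := by
  apply ((om_cont g T).mul hf).integrable_of_hasCompactSupport
  apply HasCompactSupport.of_support_subset_isCompact (isCompact_Icc (a := (0 : ℝ)) (b := T))
  intro t ht
  by_contra h
  apply ht
  show om g.h T t * f t = 0
  rw [om_cs g hg hT t h, zero_mul]

/-- uniform integrability of `F` when `K F ≤ Q + M(K)` for all `K` and `Q` is bounded in the mean -/
theorem ui_gen (g : TF) (hg : g.th = 1 / 4) (hg0 : ∀ x, 0 ≤ g.h x) (hg1 : ∀ x, g.h x ≤ 1) {C : ℝ} (hC : 0 < C) {m : ℝ → ℝ}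
    (hm : ∀ K, 0 < m K) :
    ∃ C' : ℝ, 0 < C' ∧ (∀ ε : ℝ, 0 < ε → ∃ η : ℝ, 0 < η ∧ ∀ T : ℝ, 1 ≤ T → ∀ F Q : ℝ → ℝ,
      Continuous F → Continuous Q → (∀ t, 0 ≤ Q t) → (∀ K t, 0 ≤ K → K * F t ≤ Q t + m K) →
      ∫ t, om g.h T t * Q t ≤ C * T →
      (∫ t, om g.h T t * F t ≤ C' * T) ∧
      ∀ B : Set ℝ, MeasurableSet B → volume B ≤ ENNReal.ofReal (η * T) → ∫ t in B, om g.h T t * F t ≤ ε * T) := by
  have hM1 := hm 1
  refine ⟨C + m 1, by positivity, ?_⟩
  intro ε hε
  obtain ⟨K, hKdef⟩ : ∃ K : ℝ, K = 2 * C / ε + 1 := ⟨_, rfl⟩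
  have hK0 : 0 < K := by rw [hKdef]; positivity
  have hCK : C / K ≤ ε / 2 := by
    rw [div_le_iff₀ hK0, hKdef]
    have : ε / 2 * (2 * C / ε + 1) = C + ε / 2 := by field_simp
    rw [this]; linarith
  obtain ⟨M, hM⟩ : ∃ M : ℝ, M = m K / K := ⟨_, rfl⟩
  have hM0 : 0 < M := by rw [hM]; exact div_pos (hm K) hK0
  refine ⟨ε / (2 * M), by positivity, ?_⟩
  intro T hT F Q cF hS hS0 hFQ hSi
  have hT0 : 0 < T := by linarith
  have om0 : ∀ t, 0 ≤ om g.h T t := fun t => hg0 _
  have om1 : ∀ t, om g.h T t ≤ 1 := fun t => hg1 _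
  have hI := int_om g hg hT cF
  have hSI := int_om g hg hT hS
  have hOI : Integrable (fun t => om g.h T t) := by
    have := int_om g hg hT (continuous_const (y := (1 : ℝ)))
    simpa using this
  have hO : ∫ t, om g.h T t ≤ T := by
    have e1 : ∫ t, om g.h T t = ∫ t in Icc 0 T, om g.h T t := by
      rw [setIntegral_eq_integral_of_forall_compl_eq_zero]
      intro t ht
      exact om_cs g hg hT t ht
    rw [e1]
    calc ∫ t in Icc 0 T, om g.h T t ≤ ∫ t in Icc 0 T, (1 : ℝ) := by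
          apply setIntegral_mono hOI.integrableOn
          · exact integrableOn_const (by simp)
          · exact om1
      _ = T := by simp [hT0.le]
  constructor
  · have hpt : ∀ t, om g.h T t * F t ≤ om g.h T t * Q t + m 1 * om g.h T t := by
      intro t
      have y := hFQ 1 t zero_le_one
      rw [one_mul] at y
      calc om g.h T t * F t ≤ om g.h T t * (Q t + m 1) := mul_le_mul_of_nonneg_left y (om0 t)
        _ = _ := by ring
    have hMO : ∫ t, m 1 * om g.h T t ≤ m 1 * T := by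
      rw [integral_const_mul]
      exact mul_le_mul_of_nonneg_left hO hM1.le
    calc ∫ t, om g.h T t * F t
        ≤ ∫ t, (om g.h T t * Q t + m 1 * om g.h T t) := integral_mono hI (hSI.add (hOI.const_mul _)) hpt
      _ = (∫ t, om g.h T t * Q t) + ∫ t, m 1 * om g.h T t := integral_add hSI (hOI.const_mul _)
      _ ≤ (C + m 1) * T := by linarith
  · intro B hB hvB
    have hfin : volume B < ⊤ := lt_of_le_of_lt hvB ENNReal.ofReal_lt_top
    have hpt : ∀ t, om g.h T t * F t ≤ (1 / K) * (om g.h T t * Q t) + M * om g.h T t := by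
      intro t
      have y := hFQ K t hK0.le
      have y2 : F t ≤ (1 / K) * Q t + M := by
        have : (1 / K) * (K * F t) = F t := by
          field_simp
        rw [← this]
        calc (1 / K) * (K * F t) ≤ (1 / K) * (Q t + m K) := mul_le_mul_of_nonneg_left y (by positivity)
          _ = _ := by rw [hM]; ring
      calc om g.h T t * F t ≤ om g.h T t * ((1 / K) * Q t + M) := mul_le_mul_of_nonneg_left y2 (om0 t)
        _ = _ := by ring
    have j1 : IntegrableOn (fun t => (1 / K) * (om g.h T t * Q t)) B := (hSI.const_mul _).integrableOn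
    have j2 : IntegrableOn (fun t => M * om g.h T t) B := (hOI.const_mul _).integrableOn
    have s1 : ∫ t in B, (1 / K) * (om g.h T t * Q t) ≤ (1 / K) * (C * T) := by
      rw [integral_const_mul]
      apply mul_le_mul_of_nonneg_left _ (by positivity)
      refine le_trans ?_ hSi
      exact setIntegral_le_integral hSI (Eventually.of_forall fun t => mul_nonneg (om0 t) (hS0 t))
    have s2 : ∫ t in B, M * om g.h T t ≤ M * (ε / (2 * M) * T) := by
      rw [integral_const_mul]
      apply mul_le_mul_of_nonneg_left _ hM0.le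
      calc ∫ t in B, om g.h T t ≤ ∫ t in B, (1 : ℝ) := by
            apply setIntegral_mono hOI.integrableOn
            · exact integrableOn_const hfin.ne
            · exact om1
        _ = (volume B).toReal := by simp [Measure.real]
        _ ≤ ε / (2 * M) * T := ENNReal.toReal_le_of_le_ofReal (by positivity) hvB
    calc ∫ t in B, om g.h T t * F t
        ≤ ∫ t in B, ((1 / K) * (om g.h T t * Q t) + M * om g.h T t) := setIntegral_mono hI.integrableOn (j1.add j2) hpt
      _ = _ := integral_add j1 j2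
      _ ≤ (1 / K) * (C * T) + M * (ε / (2 * M) * T) := add_le_add s1 s2
      _ = (C / K) * T + ε / 2 * T := by field_simp
      _ ≤ ε / 2 * T + ε / 2 * T := by
          have := mul_le_mul_of_nonneg_right hCK hT0.le
          linarith
      _ = ε * T := by ring

end Pool.Agent.Helper69.PQ
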